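import Mathlib

/-!
# Places which extend a prime ideal or a valuation of a subring
-/

set_option autoImplicit false

namespace Pool.Agent.Q147.GP

variable {A M : Type*} [CommRing A] [IsDomain A] [Field M]

omit [IsDomain A] in
/-- a place of `M` with centre `P` on `A` -/
theorem place_of_prime (φ : A →+* M) (hφ : Function.Injective φ) (P : Ideal A) [hP : P.IsPrime] :
    ∃ V : ValuationSubring M, ∀ a : A, φ a ∈ V ∧ (V.valuation (φ a) < 1 ↔ a ∈ P) := by
  have hu : ∀ y : P.primeCompl, IsUnit (φ y) := by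
    intro y
    refine IsUnit.mk0 _ fun h => y.2 ?_
    rw [(map_eq_zero_iff φ hφ).1 h]
    exact P.zero_mem
  let f : Localization.AtPrime P →+* M := IsLocalization.lift (M := P.primeCompl) hu
  have hf : ∀ a : A, f (algebraMap A _ a) = φ a := fun a => IsLocalization.lift_eq hu a
  obtain ⟨V, hV, hloc⟩ := IsLocalRing.exists_factor_valuationRing f
  have hmem : ∀ a : A, φ a ∈ V := fun a => by
    rw [← hf]
    exact hV _
  refine ⟨V, fun a => ⟨hmem a, ?_⟩⟩
  have h1 : V.valuation (φ a) < 1 ↔ ¬ IsUnit (⟨φ a, hmem a⟩ : V) :=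
    (V.valuation_lt_one_iff ⟨φ a, hmem a⟩).symm
  rw [h1]
  have h2 : IsUnit (⟨φ a, hmem a⟩ : V) ↔ IsUnit (algebraMap A (Localization.AtPrime P) a) := by
    have e : f.codRestrict V.toSubring hV (algebraMap A _ a) = (⟨φ a, hmem a⟩ : V) :=
      Subtype.ext (hf a)
    constructor
    · intro h
      refine hloc.map_nonunit _ ?_
      rw [e]
      exact h
    · intro h
      have := h.map (f.codRestrict V.toSubring hV)
      rw [e] at this
      exact this
  rw [h2, IsLocalization.AtPrime.isUnit_to_map_iff (Localization.AtPrime P) P a]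
  exact not_not

/-- a place of `M` which extends a valuation of `A` -/
theorem place_of_valuation {Γ : Type*} [LinearOrderedCommGroupWithZero Γ] (φ : A →+* M)
    (hφ : Function.Injective φ) (v : Valuation A Γ) (hv : ∀ a, v a = 0 → a = 0) :
    ∃ V : ValuationSubring M, ∀ a b : A, V.valuation (φ a) ≤ V.valuation (φ b) ↔ v a ≤ v b := by
  classical
  let K := FractionRing A
  have hS : nonZeroDivisors A ≤ v.supp.primeCompl := by
    intro a ha h
    exact nonZeroDivisors.ne_zero ha (hv a ((Valuation.mem_supp_iff v a).1 h))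
  let w : Valuation K Γ := v.extendToLocalization hS K
  have hw : ∀ a : A, w (algebraMap A K a) = v a := fun a =>
    Valuation.extendToLocalization_apply_map_apply v hS K a
  have hinj : ∀ y : nonZeroDivisors A, IsUnit (φ y) := fun y =>
    IsUnit.mk0 _ fun h => nonZeroDivisors.ne_zero y.2 ((map_eq_zero_iff φ hφ).1 h)
  let g : K →+* M := IsLocalization.lift (M := nonZeroDivisors A) hinj
  have hg : ∀ a : A, g (algebraMap A K a) = φ a := fun a => IsLocalization.lift_eq hinj a
  let O := w.valuationSubring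
  obtain ⟨V, hV, hloc⟩ := IsLocalRing.exists_factor_valuationRing (g.comp O.subtype)
  have h1 : ∀ z : K, w z ≤ 1 → V.valuation (g z) ≤ 1 := by
    intro z hz
    rw [V.valuation_le_one_iff]
    exact hV ⟨z, hz⟩
  have h2 : ∀ z : K, w z < 1 → V.valuation (g z) < 1 := by
    intro z hz
    have hzO : z ∈ O := le_of_lt hz
    refine (V.valuation_lt_one_iff ⟨g z, hV ⟨z, hzO⟩⟩).1 fun hun => ?_
    have h3 : IsUnit (⟨z, hzO⟩ : O) := hloc.map_nonunit _ hun
    obtain ⟨u, hu⟩ := h3
    have h4 : w z * w (u⁻¹ : Oˣ) = 1 := by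
      rw [← map_mul]
      have : z * ((u⁻¹ : Oˣ) : K) = 1 := by
        have h5 : (u : O) * ((u⁻¹ : Oˣ) : O) = 1 := Units.mul_inv u
        rw [hu] at h5
        exact congrArg Subtype.val h5
      rw [this, map_one]
    have h6 : w ((u⁻¹ : Oˣ) : K) ≤ 1 := ((u⁻¹ : Oˣ) : O).2
    have h7 : w z * w (u⁻¹ : Oˣ) < 1 := lt_of_le_of_lt (mul_le_of_le_one_right' h6) hz
    exact (ne_of_lt h7) h4
  have key : ∀ a b : A, (v a ≤ v b → V.valuation (φ a) ≤ V.valuation (φ b)) ∧
      (v a < v b → V.valuation (φ a) < V.valuation (φ b)) := by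
    intro a b
    by_cases hb : b = 0
    · subst hb
      refine ⟨fun h => ?_, fun h => ?_⟩
      · rw [map_zero, le_zero_iff] at h
        rw [hv a h]
      · rw [map_zero] at h
        exact absurd h not_lt_zero
    have hb0 : algebraMap A K b ≠ 0 := fun h => hb ((IsFractionRing.injective A K) (by rw [h, map_zero]))
    have hφb : φ b ≠ 0 := fun h => hb ((map_eq_zero_iff φ hφ).1 h)
    have hvb : 0 < v b := zero_lt_iff.2 fun h => hb (hv b h)
    have hVb : 0 < V.valuation (φ b) := zero_lt_iff.2 ((Valuation.ne_zero_iff _).2 hφb)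
    have e1 : w (algebraMap A K a / algebraMap A K b) = v a / v b := by
      rw [map_div₀, hw, hw]
    have e2 : V.valuation (g (algebraMap A K a / algebraMap A K b)) =
        V.valuation (φ a) / V.valuation (φ b) := by
      rw [map_div₀, hg, hg, map_div₀]
    refine ⟨fun h => ?_, fun h => ?_⟩
    · have := h1 (algebraMap A K a / algebraMap A K b) (by
        rw [e1]
        exact div_le_one_of_le₀ h zero_le)
      rw [e2] at this
      rwa [div_le_one₀ hVb] at this
    · have := h2 (algebraMap A K a / algebraMap A K b) (by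
        rw [e1, div_lt_one₀ hvb]
        exact h)
      rw [e2] at this
      rwa [div_lt_one₀ hVb] at this
  refine ⟨V, fun a b => ⟨fun h => ?_, (key a b).1⟩⟩
  by_contra hlt
  exact absurd ((key b a).2 (not_le.1 hlt)) (not_lt.2 h)

end Pool.Agent.Q147.GP
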