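import Pool.Agent.Q147.GP.Struct

/-!
# The dimension of spaces of products
-/

set_option autoImplicit false
set_option linter.unusedSectionVars false

namespace Pool.Agent.Q147.GP

open Polynomial Module

variable {k R K M : Type*} [Field k] [CommRing R] [IsDomain R] [UniqueFactorizationMonoid R]
  [Field K] [Field M] [Algebra k R] [Algebra R K] [IsFractionRing R K] [Algebra R M]
  [Algebra K M] [IsScalarTower R K M] [IsGalois K M] [Algebra k M] [IsScalarTower k R M]
  {e : ℕ} {ι : Type*}

/-- a quadratic expression in the coordinates of the conjugates -/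
def Quad (K k : Type*) [Field k] [Field K] [Algebra K M] [Algebra k M]
    (g : (Fin e → M) → M) : Prop :=
  (∀ (s : M ≃ₐ[K] M) (v : Fin e → M), s (g v) = g fun j => s (v j)) ∧
  ∀ V : ValuationSubring M, (∀ c : k, V.valuation (algebraMap k M c) ≤ 1) →
    ∀ v : Fin e → M, V.valuation (g v) ≤ mx V.valuation v ^ 2

omit [IsGalois K M] in
theorem quad_sum (hk : Fixes K k M) {h : ℕ} (σ ω : Fin h → Fin e → k) :
    Quad K k (fun v : Fin e → M => ∑ i, dot (σ i) v * dot (ω i) v) := by
  refine ⟨fun s v => ?_, fun V hV v => ?_⟩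
  · rw [map_sum]
    refine Finset.sum_congr rfl fun i _ => ?_
    rw [map_mul, map_dot hk, map_dot hk]
  · refine Valuation.map_sum_le _ fun i _ => ?_
    rw [map_mul, pow_two]
    exact mul_le_mul' (dot_le hV _ v) (dot_le hV _ v)

/-- the norm of a quadratic expression is integral of bounded degrees -/
theorem norm_quad {u : Fin e → M} {I : ι → InfPlace k R M} {a w : ι → ℕ} {b : R}
    (hb : Datum K u I a w b) {g : (Fin e → M) → M} (hg : Quad K k g) :
    ∃ r : R, algebraMap R M r = algebraMap R M b ^ 2 * ∏ v ∈ orb K u, g v ∧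
      (r ≠ 0 → ∀ i, (I i).d r ≤ 2 * a i) := by
  obtain ⟨hb0, h1, h2⟩ := hb
  have key : ∀ V : ValuationSubring M, (∀ c : k, V.valuation (algebraMap k M c) ≤ 1) →
      ∀ ρ : V.ValueGroup, V.valuation (algebraMap R M b ^ 2 * ∏ v ∈ orb K u, g v) ≤
      (V.valuation (algebraMap R M b) * ∏ v ∈ orb K u, max ρ (mx V.valuation v)) ^ 2 := by
    intro V hV ρ
    rw [map_mul, map_pow, map_prod, mul_pow, ← Finset.prod_pow]
    refine mul_le_mul' le_rfl (Finset.prod_le_prod' fun v _ => ?_)
    exact (hg.2 V hV v).trans (pow_le_pow_left₀ zero_le (le_max_right _ _) 2)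
  obtain ⟨r, hr⟩ := mem_of_places (R := R) (inj_RM R K M)
    (z := algebraMap R M b ^ 2 * ∏ v ∈ orb K u, g v)
    (frac_of_mem R K M (by
      obtain ⟨y, hy⟩ := prod_orb_mem (K := K) u g hg.1
      exact ⟨algebraMap R K b ^ 2 * y, by
        rw [map_mul, hy, map_pow, ← IsScalarTower.algebraMap_apply]⟩))
    (fun p hp => by
      obtain ⟨V, hV, h3⟩ := h1 p hp
      refine ⟨V, hV, (key V (fun c => hV.le_one_k c) 1).trans ?_⟩
      exact pow_le_one₀ zero_le h3)
  refine ⟨r, hr, fun hr0 i => ?_⟩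
  have h3 := key (I i).V (fun c => (I i).le_one c) ((I i).τ ^ w i)
  rw [← hr, (I i).hd r hr0] at h3
  have h4 := h3.trans (pow_le_pow_left₀ zero_le (h2 i) 2)
  rw [← pow_mul] at h4
  have h5 := (pow_le_pow_iff_right₀ (I i).hτ).1 h4
  omega

/-- the place over a point -/
def IsPt (V : ValuationSubring M) (ε : R →ₐ[k] k) : Prop :=
  ∀ r : R, algebraMap R M r ∈ V ∧ (V.valuation (algebraMap R M r) < 1 ↔ ε r = 0)

omit [UniqueFactorizationMonoid R] in
theorem exists_pt (hR : Function.Injective (algebraMap R M)) (ε : R →ₐ[k] k) :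
    ∃ V : ValuationSubring M, IsPt V ε := by
  have : (RingHom.ker ε.toRingHom).IsPrime := RingHom.ker_isPrime _
  obtain ⟨V, hV⟩ := place_of_prime (algebraMap R M) hR (RingHom.ker ε.toRingHom)
  exact ⟨V, fun r => ⟨(hV r).1, by rw [(hV r).2]; exact RingHom.mem_ker⟩⟩

omit [UniqueFactorizationMonoid R] [IsDomain R] in
theorem IsPt.le_one {V : ValuationSubring M} {ε : R →ₐ[k] k} (h : IsPt V ε) (r : R) :
    V.valuation (algebraMap R M r) ≤ 1 := (V.valuation_le_one_iff _).2 (h r).1

omit [UniqueFactorizationMonoid R] [IsDomain R] in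
theorem IsPt.eq_one {V : ValuationSubring M} {ε : R →ₐ[k] k} (h : IsPt V ε) {r : R}
    (hr : ε r ≠ 0) : V.valuation (algebraMap R M r) = 1 :=
  le_antisymm (h.le_one r) (not_lt.1 fun h' => hr ((h r).2.1 h'))

omit [UniqueFactorizationMonoid R] [IsDomain R] in
theorem IsPt.k_le {V : ValuationSubring M} {ε : R →ₐ[k] k} (h : IsPt V ε) (c : k) :
    V.valuation (algebraMap k M c) ≤ 1 := by
  rw [IsScalarTower.algebraMap_apply k R M]
  exact h.le_one _

omit [UniqueFactorizationMonoid R] [IsDomain R] in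
theorem IsPt.k_eq {V : ValuationSubring M} {ε : R →ₐ[k] k} (h : IsPt V ε) {c : k} (hc : c ≠ 0) :
    V.valuation (algebraMap k M c) = 1 := by
  rw [IsScalarTower.algebraMap_apply k R M]
  exact h.eq_one (by rwa [AlgHom.commutes])

omit [UniqueFactorizationMonoid R] [IsDomain R] in
/-- residues of integral elements are in `k` -/
theorem exists_residue [IsAlgClosed k] {V : ValuationSubring M} {ε : R →ₐ[k] k} (h : IsPt V ε)
    {d : R} (hd : ε d ≠ 0) {G : R[X]} (hG : G.leadingCoeff ∣ d) {z : M}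
    (hz : G.eval₂ (algebraMap R M) z = 0) :
    V.valuation z ≤ 1 ∧ ∃ c : k, V.valuation (z - algebraMap k M c) < 1 := by
  have hlc : ε G.leadingCoeff ≠ 0 := fun h0 => hd (by
    obtain ⟨s, rfl⟩ := hG
    rw [map_mul, h0, zero_mul])
  have hz1 : V.valuation z ≤ 1 := mem_of_root (fun r => (h r).1) (h.eq_one hlc) hz
  refine ⟨hz1, ?_⟩
  let H : k[X] := G.map (ε : R →+* k)
  have hlcH : H.leadingCoeff = ε G.leadingCoeff := by
    have : (ε : R →+* k) G.leadingCoeff ≠ 0 := hlc
    exact leadingCoeff_map_of_leadingCoeff_ne_zero _ this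
  have h1 : V.valuation (H.eval₂ (algebraMap k M) z) < 1 := by
    have h2 : H.eval₂ (algebraMap k M) z = H.eval₂ (algebraMap k M) z -
        G.eval₂ (algebraMap R M) z := by rw [hz, sub_zero]
    rw [h2, eval₂_map, eval₂_eq_sum_range, eval₂_eq_sum_range, ← Finset.sum_sub_distrib]
    refine Valuation.map_sum_lt _ one_ne_zero fun s _ => ?_
    rw [← sub_mul, map_mul, map_pow]
    refine lt_of_le_of_lt (mul_le_of_le_one_right' (pow_le_one₀ zero_le hz1)) ?_
    have h3 : ((algebraMap k M).comp (ε : R →+* k)) (G.coeff s) - algebraMap R M (G.coeff s) =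
        algebraMap R M (algebraMap k R (ε (G.coeff s)) - G.coeff s) := by
      rw [map_sub, ← IsScalarTower.algebraMap_apply]
      rfl
    rw [h3]
    refine (h _).2.2 ?_
    rw [map_sub, AlgHom.commutes]
    exact sub_self _
  have h2 : H = C H.leadingCoeff * (H.roots.map fun c => X - C c).prod :=
    (IsAlgClosed.splits H).eq_prod_roots
  rw [h2, eval₂_mul, eval₂_C, map_mul, hlcH, h.k_eq hlc, one_mul, eval₂_multiset_prod,
    Multiset.map_map, map_multiset_prod, Multiset.map_map] at h1
  by_contra hcon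
  push Not at hcon
  refine absurd h1 (not_lt.2 ?_)
  refine Multiset.one_le_prod_of_one_le fun y hy => ?_
  obtain ⟨c, hc, rfl⟩ := Multiset.mem_map.1 hy
  simpa using hcon c

end Pool.Agent.Q147.GP
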