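import Pool.Agent.Q147.GP.Place

/-!
# Places and denominators over a factorial ring
-/

set_option autoImplicit false
set_option linter.unusedSectionVars false

namespace Pool.Agent.Q147.GP

open Polynomial

variable {R M : Type*} [CommRing R] [IsDomain R] [Field M] [Algebra R M]

/-- `V` is a place of `M` whose centre on `R` is generated by `p` -/
def IsPlace (V : ValuationSubring M) (p : R) : Prop :=
  ∀ r : R, algebraMap R M r ∈ V ∧ (V.valuation (algebraMap R M r) < 1 ↔ p ∣ r)

theorem exists_place (hR : Function.Injective (algebraMap R M)) {p : R} (hp : Prime p) :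
    ∃ V : ValuationSubring M, IsPlace V p := by
  have : (Ideal.span {p}).IsPrime := (Ideal.span_singleton_prime hp.ne_zero).2 hp
  obtain ⟨V, hV⟩ := place_of_prime (algebraMap R M) hR (Ideal.span {p})
  exact ⟨V, fun r => ⟨(hV r).1, by rw [(hV r).2, Ideal.mem_span_singleton]⟩⟩

omit [IsDomain R] in
theorem IsPlace.le_one {V : ValuationSubring M} {p : R} (h : IsPlace V p) (r : R) :
    V.valuation (algebraMap R M r) ≤ 1 := (V.valuation_le_one_iff _).2 (h r).1

omit [IsDomain R] in
theorem IsPlace.eq_one {V : ValuationSubring M} {p : R} (h : IsPlace V p) {r : R}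
    (hr : ¬ p ∣ r) : V.valuation (algebraMap R M r) = 1 :=
  le_antisymm (h.le_one r) (not_lt.1 fun h' => hr ((h r).2.1 h'))

omit [IsDomain R] in
theorem IsPlace.congr {V : ValuationSubring M} {p q : R} (h : IsPlace V p)
    (hpq : Associated p q) : IsPlace V q :=
  fun r => ⟨(h r).1, by rw [(h r).2, hpq.dvd_iff_dvd_left]⟩

/-- an element of the fraction field without poles belongs to `R` -/
theorem mem_of_places [UniqueFactorizationMonoid R] (hR : Function.Injective (algebraMap R M))
    {z : M} (hz : ∃ a b : R, b ≠ 0 ∧ z * algebraMap R M b = algebraMap R M a)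
    (h : ∀ p : R, Prime p → ∃ V : ValuationSubring M, IsPlace V p ∧ V.valuation z ≤ 1) :
    ∃ r : R, algebraMap R M r = z := by
  obtain ⟨a, b, hb, hab⟩ := hz
  obtain ⟨a', b', c, hrel, rfl, rfl⟩ := UniqueFactorizationMonoid.exists_reduced_factors' a b hb
  have hc : c ≠ 0 := left_ne_zero_of_mul hb
  have hb' : b' ≠ 0 := right_ne_zero_of_mul hb
  have hcM : algebraMap R M c ≠ 0 := fun h => hc (hR (by rw [h, map_zero]))
  have h1 : z * algebraMap R M b' = algebraMap R M a' := by
    apply mul_left_cancel₀ hcM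
    rw [map_mul, map_mul] at hab
    rw [← hab]
    ring
  have hunit : IsUnit b' := by
    by_contra hnu
    obtain ⟨p, hp, hpb⟩ := WfDvdMonoid.exists_irreducible_factor hnu hb'
    have hpp : Prime p := UniqueFactorizationMonoid.irreducible_iff_prime.1 hp
    obtain ⟨V, hV, hVz⟩ := h p hpp
    have hpa : ¬ p ∣ a' := fun hpa => hpp.not_isUnit (hrel hpa hpb)
    have h2 : V.valuation (algebraMap R M b') < 1 := (hV b').2.2 hpb
    have h3 : V.valuation (algebraMap R M a') = 1 := hV.eq_one hpa
    have h4 : V.valuation z * V.valuation (algebraMap R M b') = 1 := by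
      rw [← map_mul, h1, h3]
    have h5 : V.valuation z * V.valuation (algebraMap R M b') < 1 :=
      lt_of_le_of_lt (mul_le_of_le_one_left' hVz) h2
    exact (ne_of_lt h5) h4
  obtain ⟨u, rfl⟩ := hunit
  refine ⟨a' * ((u⁻¹ : Rˣ) : R), ?_⟩
  rw [map_mul, ← h1, mul_assoc, ← map_mul, Units.mul_inv, map_one, mul_one]

/-- common denominators -/
theorem exists_denom {ι : Type*} (s : Finset ι)
    (z : ι → M)
    (hz : ∀ i ∈ s, ∃ a b : R, b ≠ 0 ∧ z i * algebraMap R M b = algebraMap R M a) :
    ∃ b : R, b ≠ 0 ∧ ∀ i ∈ s, ∃ a : R, algebraMap R M b * z i = algebraMap R M a := by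
  classical
  induction s using Finset.induction_on with
  | empty => exact ⟨1, one_ne_zero, fun i hi => absurd hi (Finset.notMem_empty i)⟩
  | insert i s his ih =>
    obtain ⟨b, hb, h⟩ := ih fun j hj => hz j (Finset.mem_insert_of_mem hj)
    obtain ⟨a₁, b₁, hb₁, h₁⟩ := hz i (Finset.mem_insert_self i s)
    refine ⟨b * b₁, mul_ne_zero hb hb₁, fun j hj => ?_⟩
    rcases Finset.mem_insert.1 hj with rfl | hj
    · refine ⟨b * a₁, ?_⟩
      rw [map_mul, map_mul, ← h₁]
      ring
    · obtain ⟨a, ha⟩ := h j hj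
      refine ⟨b₁ * a, ?_⟩
      rw [map_mul, map_mul, ← ha]
      ring

/-- minimal denominators of a polynomial which has an integral nonzero coefficient -/
theorem exists_min_denom [UniqueFactorizationMonoid R] (hR : Function.Injective (algebraMap R M))
    (f : M[X]) (hf : f.Monic)
    (hz : ∀ s, ∃ a b : R, b ≠ 0 ∧ f.coeff s * algebraMap R M b = algebraMap R M a) :
    ∃ b : R, b ≠ 0 ∧ (∀ s, ∃ a : R, algebraMap R M b * f.coeff s = algebraMap R M a) ∧
      ∀ p : R, Prime p → ∃ s, ∃ a : R, algebraMap R M b * f.coeff s = algebraMap R M a ∧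
        ¬ p ∣ a := by
  let S : Set R := {b | b ≠ 0 ∧ ∀ s, ∃ a : R, algebraMap R M b * f.coeff s = algebraMap R M a}
  have hne : S.Nonempty := by
    obtain ⟨b, hb, h⟩ := exists_denom f.support (fun s => f.coeff s) fun s _ => hz s
    refine ⟨b, hb, fun s => ?_⟩
    by_cases hs : s ∈ f.support
    · exact h s hs
    · exact ⟨0, by rw [notMem_support_iff.1 hs, mul_zero, map_zero]⟩
  obtain ⟨b, hbS, hmin⟩ := (wellFounded_dvdNotUnit (α := R)).has_min S hne
  refine ⟨b, hbS.1, hbS.2, fun p hp => ?_⟩
  by_contra hcon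
  push Not at hcon
  have hpM : algebraMap R M p ≠ 0 := fun h => hp.ne_zero (hR (by rw [h, map_zero]))
  obtain ⟨a, ha⟩ := hbS.2 f.natDegree
  have ha' : b = a := by
    apply hR
    rw [← ha, hf.coeff_natDegree, mul_one]
  obtain ⟨b', rfl⟩ : p ∣ b := by
    rw [ha']
    exact hcon _ a ha
  have hb' : b' ≠ 0 := right_ne_zero_of_mul hbS.1
  refine hmin b' ⟨hb', fun s => ?_⟩ ⟨hb', p, hp.not_isUnit, mul_comm _ _⟩
  obtain ⟨c, hc⟩ := hbS.2 s
  obtain ⟨c', rfl⟩ := hcon s c hc
  refine ⟨c', ?_⟩
  apply mul_left_cancel₀ hpM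
  rw [← map_mul, ← hc, map_mul]
  ring

omit [IsDomain R] in
/-- integrality at the places where a leading coefficient is a unit -/
theorem mem_of_root {V : ValuationSubring M} (hV : ∀ r : R, algebraMap R M r ∈ V) {G : R[X]}
    (hG : V.valuation (algebraMap R M G.leadingCoeff) = 1) {z : M}
    (hz : G.eval₂ (algebraMap R M) z = 0) : V.valuation z ≤ 1 := by
  by_contra hlt
  rw [not_le] at hlt
  have h0 : V.valuation z ≠ 0 := (lt_trans zero_lt_one hlt).ne'
  rw [eval₂_eq_sum_range, Finset.sum_range_succ] at hz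
  have h1 : V.valuation (algebraMap R M (G.coeff G.natDegree) * z ^ G.natDegree) =
      V.valuation z ^ G.natDegree := by
    rw [map_mul, map_pow]
    change V.valuation (algebraMap R M G.leadingCoeff) * _ = _
    rw [hG, one_mul]
  have h2 : V.valuation (∑ i ∈ Finset.range G.natDegree, algebraMap R M (G.coeff i) * z ^ i) <
      V.valuation z ^ G.natDegree := by
    refine Valuation.map_sum_lt _ (pow_ne_zero _ h0) fun i hi => ?_
    rw [map_mul, map_pow]
    have h3 : V.valuation (algebraMap R M (G.coeff i)) ≤ 1 := (V.valuation_le_one_iff _).2 (hV _)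
    exact lt_of_le_of_lt (mul_le_of_le_one_left' h3)
      (pow_lt_pow_right₀ hlt (Finset.mem_range.1 hi))
  have h3 : V.valuation (∑ i ∈ Finset.range G.natDegree, algebraMap R M (G.coeff i) * z ^ i) =
      V.valuation z ^ G.natDegree := by
    rw [← h1, ← Valuation.map_neg _ (algebraMap R M (G.coeff G.natDegree) * z ^ G.natDegree)]
    congr 1
    exact eq_neg_of_add_eq_zero_left hz
  exact (ne_of_lt h2) h3

end Pool.Agent.Q147.GP
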