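import Pool.Agent.Q147.GP.Orb
import Pool.Agent.Q147.GP.Frac

/-!
# General linear combinations
-/

set_option autoImplicit false
set_option linter.unusedSectionVars false

namespace Pool.Agent.Q147.GP

open Polynomial

section bad

variable {k M Γ : Type*} [Field k] [Field M] [Algebra k M] [LinearOrderedCommGroupWithZero Γ]
  {e : ℕ}

/-- the maximum of the values of the coordinates -/
noncomputable def mx (v : Valuation M Γ) (w : Fin e → M) : Γ := Finset.univ.sup fun j => v (w j)

theorem le_mx (v : Valuation M Γ) (w : Fin e → M) (j : Fin e) : v (w j) ≤ mx v w :=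
  Finset.le_sup (f := fun j => v (w j)) (Finset.mem_univ j)

theorem mx_le {v : Valuation M Γ} {w : Fin e → M} {c : Γ} (h : ∀ j, v (w j) ≤ c) : mx v w ≤ c :=
  Finset.sup_le fun j _ => h j

theorem exists_mx (v : Valuation M Γ) (he : 0 < e) (w : Fin e → M) : ∃ j, v (w j) = mx v w := by
  have : Nonempty (Fin e) := ⟨⟨0, he⟩⟩
  obtain ⟨j, -, h⟩ := Finset.exists_mem_eq_sup (Finset.univ : Finset (Fin e))
    Finset.univ_nonempty fun j => v (w j)
  exact ⟨j, h.symm⟩

variable {v : Valuation M Γ}

theorem dot_le (hk : ∀ c : k, v (algebraMap k M c) ≤ 1) (t : Fin e → k) (w : Fin e → M) :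
    v (dot t w) ≤ mx v w := by
  rw [dot]
  refine Valuation.map_sum_le v fun j _ => ?_
  rw [Algebra.smul_def, map_mul]
  exact le_trans (mul_le_of_le_one_left' (hk _)) (le_mx v w j)

theorem dot_single (w : Fin e → M) (j : Fin e) : dot (Pi.single j (1 : k)) w = w j := by
  rw [dot, Finset.sum_eq_single j]
  · rw [Pi.single_eq_same, one_smul]
  · intro i _ hij
    rw [Pi.single_eq_of_ne hij, zero_smul]
  · intro h
    exact absurd (Finset.mem_univ j) h

theorem dot_add (t t' : Fin e → k) (w : Fin e → M) : dot (t + t') w = dot t w + dot t' w := by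
  rw [dot, dot, dot, ← Finset.sum_add_distrib]
  exact Finset.sum_congr rfl fun j _ => by rw [Pi.add_apply, add_smul]

theorem dot_smul (c : k) (t : Fin e → k) (w : Fin e → M) : dot (c • t) w = c • dot t w := by
  rw [dot, dot, Finset.smul_sum]
  exact Finset.sum_congr rfl fun j _ => by rw [Pi.smul_apply, smul_eq_mul, mul_smul]

theorem dot_zero (w : Fin e → M) : dot (0 : Fin e → k) w = 0 := by
  rw [dot]
  exact Finset.sum_eq_zero fun j _ => by rw [Pi.zero_apply, zero_smul]

theorem exists_bad (hk : ∀ c : k, v (algebraMap k M c) ≤ 1) (he : 0 < e) (w : Fin e → M) (ρ : Γ) :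
    ∃ P : Submodule k (Fin e → k), P ≠ ⊤ ∧
      ∀ t, t ∉ P → max ρ (v (dot t w)) = max ρ (mx v w) := by
  have hN : Nonempty (Fin e) := ⟨⟨0, he⟩⟩
  by_cases h : mx v w ≤ ρ
  · refine ⟨⊥, bot_ne_top, fun t _ => ?_⟩
    rw [max_eq_left h, max_eq_left ((dot_le hk t w).trans h)]
  · rw [not_le] at h
    have hpos : 0 < mx v w := lt_of_le_of_lt zero_le h
    let P : Submodule k (Fin e → k) :=
      { carrier := {t | v (dot t w) < mx v w}
        add_mem' := by
          intro a b ha hb
          change v (dot (a + b) w) < mx v w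
          rw [dot_add]
          exact Valuation.map_add_lt v ha hb
        zero_mem' := by
          change v (dot 0 w) < mx v w
          rw [dot_zero, map_zero]
          exact hpos
        smul_mem' := by
          intro c a ha
          change v (dot (c • a) w) < mx v w
          rw [dot_smul, Algebra.smul_def, map_mul]
          exact lt_of_le_of_lt (mul_le_of_le_one_left' (hk _)) ha }
    refine ⟨P, fun hP => ?_, fun t ht => ?_⟩
    · obtain ⟨j, hj⟩ := exists_mx v he w
      have h1 : Pi.single j (1 : k) ∈ P := hP ▸ Submodule.mem_top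
      have h2 : v (dot (Pi.single j (1 : k)) w) < mx v w := h1
      rw [dot_single, hj] at h2
      exact lt_irrefl _ h2
    · congr 1
      exact le_antisymm (dot_le hk t w) (not_lt.1 ht)

theorem exists_sep (w w' : Fin e → M) (h : w ≠ w') : ∃ P : Submodule k (Fin e → k), P ≠ ⊤ ∧
    ∀ t, t ∉ P → dot t w ≠ dot t w' := by
  let P : Submodule k (Fin e → k) :=
    { carrier := {t | dot t w = dot t w'}
      add_mem' := by
        intro a b ha hb
        change dot (a + b) w = dot (a + b) w'
        rw [dot_add, dot_add]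
        rw [show dot a w = dot a w' from ha, show dot b w = dot b w' from hb]
      zero_mem' := by
        change dot 0 w = dot 0 w'
        rw [dot_zero, dot_zero]
      smul_mem' := by
        intro c a ha
        change dot (c • a) w = dot (c • a) w'
        rw [dot_smul, dot_smul, show dot a w = dot a w' from ha] }
  refine ⟨P, fun hP => h (funext fun j => ?_), fun t ht h' => ht h'⟩
  have h1 : Pi.single j (1 : k) ∈ P := hP ▸ Submodule.mem_top
  have h2 : dot (Pi.single j (1 : k)) w = dot (Pi.single j (1 : k)) w' := h1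
  rwa [dot_single, dot_single] at h2

end bad

section good

variable {k R K M : Type*} [Field k] [CommRing R] [IsDomain R] [UniqueFactorizationMonoid R]
  [Field K] [Field M] [Algebra k R] [Algebra R K] [IsFractionRing R K] [Algebra R M]
  [Algebra K M] [IsScalarTower R K M] [IsGalois K M] [Algebra k M] [IsScalarTower k R M]

omit [UniqueFactorizationMonoid R] in
theorem inj_RM (R K M : Type*) [CommRing R] [IsDomain R] [Field K] [Field M] [Algebra R K]
    [IsFractionRing R K] [Algebra R M] [Algebra K M] [IsScalarTower R K M] :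
    Function.Injective (algebraMap R M) := by
  rw [IsScalarTower.algebraMap_eq R K M]
  exact (algebraMap K M).injective.comp (IsFractionRing.injective R K)

theorem fixes_k (k R K M : Type*) [Field k] [CommRing R] [Field K] [Field M] [Algebra k R]
    [Algebra R K] [Algebra R M] [Algebra K M] [IsScalarTower R K M] [Algebra k M]
    [IsScalarTower k R M] : Fixes K k M := by
  intro g c
  rw [IsScalarTower.algebraMap_apply k R M, IsScalarTower.algebraMap_apply R K M]
  exact g.commutes _

theorem frac_of_mem (R K M : Type*) [CommRing R] [IsDomain R] [Field K] [Field M] [Algebra R K]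
    [IsFractionRing R K] [Algebra R M] [Algebra K M] [IsScalarTower R K M] {z : M}
    (hz : z ∈ Set.range (algebraMap K M)) :
    ∃ a b : R, b ≠ 0 ∧ z * algebraMap R M b = algebraMap R M a := by
  obtain ⟨y, rfl⟩ := hz
  obtain ⟨a, b, hb, rfl⟩ := IsFractionRing.div_surjective (A := R) y
  refine ⟨a, b, nonZeroDivisors.ne_zero hb, ?_⟩
  have hb' : algebraMap R K b ≠ 0 := fun h => nonZeroDivisors.ne_zero hb
    (IsFractionRing.injective R K (by rw [h, map_zero]))
  rw [IsScalarTower.algebraMap_apply R K M b, IsScalarTower.algebraMap_apply R K M a, ← map_mul,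
    div_mul_cancel₀ _ hb']

/-- a common multiple of leading coefficients -/
theorem exists_lead (R K M : Type*) [CommRing R] [IsDomain R] [Field K] [Field M] [Algebra R K]
    [IsFractionRing R K] [Algebra R M] [Algebra K M] [IsScalarTower R K M]
    [Algebra.IsAlgebraic K M] (S : Finset M) :
    ∃ d : R, d ≠ 0 ∧ ∀ z ∈ S, ∃ G : R[X], G.leadingCoeff ∣ d ∧ G.eval₂ (algebraMap R M) z = 0 := by
  classical
  have h1 : ∀ z : M, ∃ G : R[X], G ≠ 0 ∧ G.eval₂ (algebraMap R M) z = 0 := by
    intro z
    have h2 : IsAlgebraic R z :=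
      (IsFractionRing.isAlgebraic_iff R K M).2 (Algebra.IsAlgebraic.isAlgebraic z)
    obtain ⟨G, hG0, hG⟩ := h2
    exact ⟨G, hG0, hG⟩
  choose G hG0 hG using h1
  refine ⟨∏ z ∈ S, (G z).leadingCoeff,
    Finset.prod_ne_zero_iff.2 fun z _ => leadingCoeff_ne_zero.2 (hG0 z),
    fun z hz => ⟨G z, Finset.dvd_prod_of_mem _ hz, hG z⟩⟩

omit [IsDomain R] [UniqueFactorizationMonoid R] in
theorem val_one_of_dvd {V : ValuationSubring M} (hV : ∀ r : R, algebraMap R M r ∈ V) {r d : R}
    (hrd : r ∣ d) (hd : V.valuation (algebraMap R M d) = 1) :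
    V.valuation (algebraMap R M r) = 1 := by
  obtain ⟨s, rfl⟩ := hrd
  rw [map_mul, map_mul] at hd
  have h1 := (V.valuation_le_one_iff _).2 (hV r)
  have h2 := (V.valuation_le_one_iff _).2 (hV s)
  refine le_antisymm h1 (not_lt.1 fun h => ?_)
  have h3 : V.valuation (algebraMap R M r) * V.valuation (algebraMap R M s) < 1 :=
    lt_of_le_of_lt (mul_le_of_le_one_right' h2) h
  exact (ne_of_lt h3) hd

/-- places at infinity -/
structure InfPlace (k R M : Type*) [Field k] [CommRing R] [Field M] [Algebra k R]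
    [Algebra R M] where
  /-- the valuation ring -/
  V : ValuationSubring M
  /-- the degree -/
  d : R → ℕ
  /-- the value of an element of degree one -/
  τ : V.ValueGroup
  hτ : 1 < τ
  hd : ∀ r : R, r ≠ 0 → V.valuation (algebraMap R M r) = τ ^ d r
  hdk : ∀ c : k, c ≠ 0 → d (algebraMap k R c) = 0

omit [UniqueFactorizationMonoid R] in
theorem InfPlace.le_one (I : InfPlace k R M) (c : k) :
    I.V.valuation (algebraMap k M c) ≤ 1 := by
  by_cases hc : c = 0
  · rw [hc, map_zero, map_zero]
    exact zero_le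
  · rw [IsScalarTower.algebraMap_apply k R M, I.hd _ (fun h => hc
      ((algebraMap k R).injective (by rw [h, map_zero]))), I.hdk c hc, pow_zero]

omit [IsDomain R] [UniqueFactorizationMonoid R] in
theorem IsPlace.le_one_k {V : ValuationSubring M} {p : R} (h : IsPlace V p) (c : k) :
    V.valuation (algebraMap k M c) ≤ 1 := by
  rw [IsScalarTower.algebraMap_apply k R M]
  exact h.le_one _

/-- general position -/
def Good {e : ℕ} {ι : Type*} (K : Type*) [Field K] [Algebra K M] [IsGalois K M] (u : Fin e → M)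
    (I : ι → InfPlace k R M) (w : ι → ℕ) (Vp : R → ValuationSubring M) (t : Fin e → k) : Prop :=
  (∀ v ∈ orb K u, ∀ v' ∈ orb K u, dot t v = dot t v' → v = v') ∧
  (∀ p : R, Prime p → ∀ v ∈ orb K u,
    max 1 ((Vp p).valuation (dot t v)) = max 1 (mx (Vp p).valuation v)) ∧
  ∀ i, ∀ v ∈ orb K u, max ((I i).τ ^ w i) ((I i).V.valuation (dot t v)) =
    max ((I i).τ ^ w i) (mx (I i).V.valuation v)

theorem exists_good {e : ℕ} (he : 0 < e) {ι : Type*} [Finite ι] (u : Fin e → M)
    (I : ι → InfPlace k R M) (w : ι → ℕ) :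
    ∃ (BB : Set (Submodule k (Fin e → k))) (Vp : R → ValuationSubring M), BB.Finite ∧
      (∀ P ∈ BB, P ≠ ⊤) ∧ (∀ p : R, Prime p → IsPlace (Vp p) p) ∧
      ∀ t : Fin e → k, (∀ P ∈ BB, t ∉ P) → Good K u I w Vp t := by
  classical
  have hinj := inj_RM R K M
  obtain ⟨d, hd0, hd⟩ := exists_lead R K M ((orb K u).biUnion fun v => Finset.univ.image v)
  have hd' : ∀ v ∈ orb K u, ∀ j, ∃ G : R[X], G.leadingCoeff ∣ d ∧
      G.eval₂ (algebraMap R M) (v j) = 0 := fun v hv j => hd _ (Finset.mem_biUnion.2
    ⟨v, hv, Finset.mem_image.2 ⟨j, Finset.mem_univ _, rfl⟩⟩)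
  -- places
  let pl : R → ValuationSubring M := fun p =>
    if h : Prime p then (exists_place (M := M) hinj h).choose else ⊤
  have hpl : ∀ p, Prime p → IsPlace (pl p) p := by
    intro p hp
    simp only [pl, dif_pos hp]
    exact (exists_place (M := M) hinj hp).choose_spec
  let Q := UniqueFactorizationMonoid.factors d
  have hQp : ∀ q ∈ Q, Prime q := fun q hq =>
    UniqueFactorizationMonoid.prime_of_factor q hq
  have hQ : ∀ p : R, Prime p → p ∣ d → ∃ q ∈ Q, Associated p q := fun p hp hpd =>
    UniqueFactorizationMonoid.exists_mem_factors_of_dvd hd0 hp.irreducible hpd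
  let Vp : R → ValuationSubring M := fun p =>
    if h : Prime p ∧ p ∣ d then pl (hQ p h.1 h.2).choose else pl p
  have hVp : ∀ p, Prime p → IsPlace (Vp p) p := by
    intro p hp
    by_cases hpd : p ∣ d
    · simp only [Vp, dif_pos (And.intro hp hpd)]
      obtain ⟨h1, h2⟩ := (hQ p hp hpd).choose_spec
      exact (hpl _ (hQp _ h1)).congr h2.symm
    · have : ¬ (Prime p ∧ p ∣ d) := fun h => hpd h.2
      simp only [Vp, dif_neg this]
      exact hpl p hp
  -- bad subspaces
  have hkp : ∀ p : R, Prime p → ∀ c : k, (pl p).valuation (algebraMap k M c) ≤ 1 := fun p hp c =>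
    (hpl p hp).le_one_k c
  have hB1 : ∀ q : R, ∀ v : Fin e → M, ∃ P : Submodule k (Fin e → k), P ≠ ⊤ ∧
      (Prime q → ∀ t, t ∉ P → max 1 ((pl q).valuation (dot t v)) =
        max 1 (mx (pl q).valuation v)) := by
    intro q v
    by_cases hq : Prime q
    · obtain ⟨P, h1, h2⟩ := exists_bad (hkp q hq) he v 1
      exact ⟨P, h1, fun _ => h2⟩
    · have : Nonempty (Fin e) := ⟨⟨0, he⟩⟩
      exact ⟨⊥, bot_ne_top, fun h => absurd h hq⟩
  choose B1 hB1a hB1b using hB1
  have hB2 : ∀ i, ∀ v : Fin e → M, ∃ P : Submodule k (Fin e → k), P ≠ ⊤ ∧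
      ∀ t, t ∉ P → max ((I i).τ ^ w i) ((I i).V.valuation (dot t v)) =
        max ((I i).τ ^ w i) (mx (I i).V.valuation v) := fun i v =>
    exists_bad (fun c => (I i).le_one c) he v _
  choose B2 hB2a hB2b using hB2
  have hB3 : ∀ v v' : Fin e → M, ∃ P : Submodule k (Fin e → k), P ≠ ⊤ ∧
      (v ≠ v' → ∀ t, t ∉ P → dot t v ≠ dot t v') := by
    intro v v'
    by_cases h : v = v'
    · have : Nonempty (Fin e) := ⟨⟨0, he⟩⟩
      exact ⟨⊥, bot_ne_top, fun h' => absurd h h'⟩
    · obtain ⟨P, h1, h2⟩ := exists_sep (k := k) v v' h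
      exact ⟨P, h1, fun _ => h2⟩
  choose B3 hB3a hB3b using hB3
  refine ⟨(⋃ q ∈ Q.toFinset, ⋃ v ∈ orb K u, {B1 q v}) ∪ (⋃ i, ⋃ v ∈ orb K u, {B2 i v}) ∪
    (⋃ v ∈ orb K u, ⋃ v' ∈ orb K u, {B3 v v'}), Vp, ?_, ?_, hVp, ?_⟩
  · refine Set.Finite.union (Set.Finite.union ?_ ?_) ?_
    · exact Q.toFinset.finite_toSet.biUnion fun q _ =>
        (orb K u).finite_toSet.biUnion fun v _ => Set.finite_singleton _
    · exact Set.finite_iUnion fun i =>
        (orb K u).finite_toSet.biUnion fun v _ => Set.finite_singleton _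
    · exact (orb K u).finite_toSet.biUnion fun v _ =>
        (orb K u).finite_toSet.biUnion fun v _ => Set.finite_singleton _
  · rintro P ((hP | hP) | hP)
    · simp only [Set.mem_iUnion, Set.mem_singleton_iff] at hP
      obtain ⟨q, hq, v, hv, rfl⟩ := hP
      exact hB1a q v
    · simp only [Set.mem_iUnion, Set.mem_singleton_iff] at hP
      obtain ⟨i, v, hv, rfl⟩ := hP
      exact hB2a i v
    · simp only [Set.mem_iUnion, Set.mem_singleton_iff] at hP
      obtain ⟨v, hv, v', hv', rfl⟩ := hP
      exact hB3a v v'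
  · intro t ht
    refine ⟨fun v hv v' hv' h => ?_, fun p hp v hv => ?_, fun i v hv => ?_⟩
    · by_contra hne
      refine hB3b v v' hne t (ht _ (Or.inr ?_)) h
      simp only [Set.mem_iUnion, Set.mem_singleton_iff]
      exact ⟨v, hv, v', hv', rfl⟩
    · by_cases hpd : p ∣ d
      · have h1 := (hQ p hp hpd).choose_spec
        have h2 : Vp p = pl (hQ p hp hpd).choose := dif_pos (And.intro hp hpd)
        rw [h2]
        refine hB1b _ v (hQp _ h1.1) t (ht _ (Or.inl (Or.inl ?_)))
        simp only [Set.mem_iUnion, Set.mem_singleton_iff]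
        exact ⟨_, Multiset.mem_toFinset.2 h1.1, v, hv, rfl⟩
      · have hV := hVp p hp
        have h1 : mx (Vp p).valuation v ≤ 1 := mx_le fun j => by
          obtain ⟨G, hG1, hG2⟩ := hd' v hv j
          exact mem_of_root (fun r => (hV r).1)
            (val_one_of_dvd (fun r => (hV r).1) hG1 (hV.eq_one hpd)) hG2
        rw [max_eq_left h1, max_eq_left ((dot_le (fun c => hV.le_one_k c) t v).trans h1)]
    · refine hB2b i v t (ht _ (Or.inl (Or.inr ?_)))
      simp only [Set.mem_iUnion, Set.mem_singleton_iff]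
      exact ⟨i, v, hv, rfl⟩

end good

end Pool.Agent.Q147.GP
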