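import Pool.Agent.Q147.GP.Gauss
import Pool.Agent.Q147.GP.Gen

/-!
# The dichotomy: all linear combinations satisfy relations of bounded degree, or only those in
finitely many proper subspaces
-/

set_option autoImplicit false
set_option linter.unusedSectionVars false

namespace Pool.Agent.Q147.GP

open Polynomial

variable {k R K M : Type*} [Field k] [CommRing R] [IsDomain R] [UniqueFactorizationMonoid R]
  [Field K] [Field M] [Algebra k R] [Algebra R K] [IsFractionRing R K] [Algebra R M]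
  [Algebra K M] [IsScalarTower R K M] [IsGalois K M] [Algebra k M] [IsScalarTower k R M]
  {e : ℕ} {ι : Type*}

/-- `y` is a root of a nonzero polynomial over `R` of weighted degrees at most `a` -/
def Rel (I : ι → InfPlace k R M) (a w : ι → ℕ) (y : M) : Prop :=
  ∃ G : R[X], G ≠ 0 ∧ G.eval₂ (algebraMap R M) y = 0 ∧
    ∀ s, G.coeff s ≠ 0 → ∀ i, (I i).d (G.coeff s) + w i * s ≤ a i

/-- a common denominator of all linear combinations of the `u j` -/
def Datum (K : Type*) [Field K] [Algebra K M] [IsGalois K M] (u : Fin e → M)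
    (I : ι → InfPlace k R M) (a w : ι → ℕ) (b : R) : Prop :=
  b ≠ 0 ∧ (∀ p : R, Prime p → ∃ V : ValuationSubring M, IsPlace V p ∧
    V.valuation (algebraMap R M b) * ∏ v ∈ orb K u, max 1 (mx V.valuation v) ≤ 1) ∧
  ∀ i, (I i).V.valuation (algebraMap R M b) *
    ∏ v ∈ orb K u, max ((I i).τ ^ w i) (mx (I i).V.valuation v) ≤ (I i).τ ^ a i

theorem InfPlace.pos (I : InfPlace k R M) : 0 < I.τ := lt_trans zero_lt_one I.hτ

theorem ranges_eq_of_map {f g : M[X]} (hg : g ≠ 0)
    (hf : ∀ s : M ≃ₐ[K] M, (g * f).map (s : M →+* M) = g * f)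
    (hg' : ∀ s : M ≃ₐ[K] M, g.map (s : M →+* M) = g) (s : M ≃ₐ[K] M) :
    f.map (s : M →+* M) = f := by
  apply mul_left_cancel₀ hg
  conv_lhs => rw [← hg' s]
  rw [← Polynomial.map_mul, hf s]

theorem map_fixed (G : R[X]) (s : M ≃ₐ[K] M) :
    (G.map (algebraMap R M)).map (s : M →+* M) = G.map (algebraMap R M) := by
  rw [Polynomial.map_map]
  congr 1
  ext r
  rw [RingHom.comp_apply, IsScalarTower.algebraMap_apply R K M]
  exact s.commutes _

/-- polynomials without poles -/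
theorem exists_lift (f : M[X]) (hf : ∀ s, f.coeff s ∈ Set.range (algebraMap K M))
    (hp : ∀ p : R, Prime p → ∃ V : ValuationSubring M, IsPlace V p ∧ gn V.valuation 1 f ≤ 1) :
    ∃ G : R[X], G.map (algebraMap R M) = f := by
  have h1 : f ∈ Polynomial.lifts (algebraMap R M) := by
    rw [Polynomial.lifts_iff_coeff_lifts]
    intro s
    obtain ⟨r, hr⟩ := mem_of_places (inj_RM R K M) (frac_of_mem R K M (hf s)) fun p hpp => by
      obtain ⟨V, hV, h⟩ := hp p hpp
      refine ⟨V, hV, ?_⟩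
      have := le_gn V.valuation 1 f s
      rw [one_pow, mul_one] at this
      exact this.trans h
    exact ⟨r, hr⟩
  exact (Polynomial.mem_lifts f).1 h1

theorem gn_map_le {V : ValuationSubring M} {p : R} (hV : IsPlace V p) (G : R[X]) :
    gn V.valuation 1 (G.map (algebraMap R M)) ≤ 1 :=
  gn_le fun s => by
    rw [one_pow, mul_one, coeff_map]
    exact hV.le_one _

theorem gn_inf_le (I : InfPlace k R M) {a w : ℕ} {G : R[X]}
    (h : ∀ s, G.coeff s ≠ 0 → I.d (G.coeff s) + w * s ≤ a) :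
    gn I.V.valuation (I.τ ^ w) (G.map (algebraMap R M)) ≤ I.τ ^ a :=
  gn_le fun s => by
    rw [coeff_map]
    by_cases hs : G.coeff s = 0
    · rw [hs, map_zero, map_zero, zero_mul]
      exact zero_le
    · rw [I.hd _ hs, ← pow_mul, ← pow_add]
      exact pow_le_pow_right₀ I.hτ.le (h s hs)

theorem one_le_gn_inf (I : InfPlace k R M) {w : ℕ} {G : R[X]} (hG : G ≠ 0) :
    1 ≤ gn I.V.valuation (I.τ ^ w) (G.map (algebraMap R M)) := by
  obtain ⟨s, hs⟩ : ∃ s, G.coeff s ≠ 0 := by
    by_contra h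
    push Not at h
    exact hG (Polynomial.ext h)
  have h1 := le_gn I.V.valuation (I.τ ^ w) (G.map (algebraMap R M)) s
  rw [coeff_map, I.hd _ hs, ← pow_mul, ← pow_add] at h1
  exact le_trans (one_le_pow₀ I.hτ.le) h1

theorem deg_of_gn (I : InfPlace k R M) {a w : ℕ} {G : R[X]}
    (h : gn I.V.valuation (I.τ ^ w) (G.map (algebraMap R M)) ≤ I.τ ^ a) (s : ℕ)
    (hs : G.coeff s ≠ 0) : I.d (G.coeff s) + w * s ≤ a := by
  have h1 := (le_gn I.V.valuation (I.τ ^ w) (G.map (algebraMap R M)) s).trans h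
  rw [coeff_map, I.hd _ hs, ← pow_mul, ← pow_add] at h1
  exact (pow_le_pow_iff_right₀ I.hτ).1 h1

/-- the denominator makes all the polynomials integral -/
theorem datum_rel {u : Fin e → M} {I : ι → InfPlace k R M} {a w : ι → ℕ} {b : R}
    (h : Datum K u I a w b) (t : Fin e → k) : Rel I a w (dot t u) := by
  obtain ⟨hb, h1, h2⟩ := h
  have hinj := inj_RM R K M
  have hbM : algebraMap R M b ≠ 0 := fun h => hb (hinj (by rw [h, map_zero]))
  obtain ⟨G, hG⟩ := exists_lift (R := R) (K := K) (C (algebraMap R M b) * pol K u t)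
    (fun s => by
      rw [coeff_C_mul]
      obtain ⟨z, hz⟩ := pol_coeff_mem (K := K) (fixes_k k R K M) u t s
      exact ⟨algebraMap R K b * z, by rw [map_mul, hz, ← IsScalarTower.algebraMap_apply]⟩)
    (fun p hp => by
      obtain ⟨V, hV, h3⟩ := h1 p hp
      refine ⟨V, hV, ?_⟩
      rw [pol, gn_lin _ one_ne_zero]
      refine le_trans (mul_le_mul' le_rfl (Finset.prod_le_prod' fun v _ => ?_)) h3
      exact max_le_max le_rfl (dot_le (fun c => hV.le_one_k c) t v))
  refine ⟨G, ?_, ?_, fun s hs i => ?_⟩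
  · rintro rfl
    rw [Polynomial.map_zero] at hG
    exact mul_ne_zero (C_ne_zero.2 hbM) (pol_monic u t).ne_zero hG.symm
  · rw [← eval_map, hG, eval_mul, eval_pol, mul_zero]
  · refine deg_of_gn (I i) ?_ s hs
    rw [hG, pol, gn_lin _ (pow_ne_zero _ (I i).pos.ne')]
    refine le_trans (mul_le_mul' le_rfl (Finset.prod_le_prod' fun v _ => ?_)) (h2 i)
    exact max_le_max le_rfl (dot_le (fun c => (I i).le_one c) t v)

theorem dichotomy [Infinite k] [Finite ι] (he : 0 < e) (u : Fin e → M)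
    (I : ι → InfPlace k R M) (a w : ι → ℕ) :
    (∃ b, Datum K u I a w b) ∨ ∃ BB : Set (Submodule k (Fin e → k)), BB.Finite ∧
      (∀ P ∈ BB, P ≠ ⊤) ∧ ∀ t, Rel I a w (dot t u) → ∃ P ∈ BB, t ∈ P := by
  classical
  have hinj := inj_RM R K M
  have hk := fixes_k k R K M
  obtain ⟨BB, Vp, hBf, hBt, hVp, hgood⟩ := exists_good (K := K) he u I w
  obtain ⟨t₀, ht₀⟩ : ∃ t₀ : Fin e → k, ∀ P ∈ BB, t₀ ∉ P := by
    by_contra hcon
    push Not at hcon
    have h1 : ⋃ P ∈ hBf.toFinset, (P : Set (Fin e → k)) = Set.univ := by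
      rw [Set.eq_univ_iff_forall]
      intro t
      obtain ⟨P, hP, ht⟩ := hcon t
      simp only [Set.mem_iUnion]
      exact ⟨P, hBf.mem_toFinset.2 hP, ht⟩
    have h2 := Subspace.top_mem_of_biUnion_eq_univ h1
    exact hBt _ (hBf.mem_toFinset.1 h2) rfl
  have hG0 := hgood t₀ ht₀
  obtain ⟨b, hb, hb1, hb2⟩ := exists_min_denom hinj (pol K u t₀) (pol_monic u t₀)
    fun s => frac_of_mem R K M (pol_coeff_mem hk u t₀ s)
  have hbM : algebraMap R M b ≠ 0 := fun h => hb (hinj (by rw [h, map_zero]))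
  have hnorm : ∀ p : R, Prime p → (Vp p).valuation (algebraMap R M b) *
      ∏ v ∈ orb K u, max 1 (mx (Vp p).valuation v) = 1 := by
    intro p hp
    have h1 : ∏ v ∈ orb K u, max 1 (mx (Vp p).valuation v) =
        ∏ v ∈ orb K u, max 1 ((Vp p).valuation (dot t₀ v)) :=
      Finset.prod_congr rfl fun v hv => (hG0.2.1 p hp v hv).symm
    rw [h1, ← gn_lin (Vp p).valuation one_ne_zero]
    apply le_antisymm
    · refine gn_le fun s => ?_
      obtain ⟨r, hr⟩ := hb1 s
      rw [one_pow, mul_one, coeff_C_mul]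
      change (Vp p).valuation (algebraMap R M b * (pol K u t₀).coeff s) ≤ 1
      rw [hr]
      exact (hVp p hp).le_one r
    · obtain ⟨s, r, hr, hpr⟩ := hb2 p hp
      have h2 := le_gn (Vp p).valuation 1
        (C (algebraMap R M b) * ∏ v ∈ orb K u, (X - C (dot t₀ v))) s
      rw [one_pow, mul_one, coeff_C_mul] at h2
      change (Vp p).valuation (algebraMap R M b * (pol K u t₀).coeff s) ≤ _ at h2
      rw [hr, (hVp p hp).eq_one hpr] at h2
      exact h2
  by_cases hA : ∀ i, (I i).V.valuation (algebraMap R M b) *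
      ∏ v ∈ orb K u, max ((I i).τ ^ w i) (mx (I i).V.valuation v) ≤ (I i).τ ^ a i
  · exact Or.inl ⟨b, hb, fun p hp => ⟨Vp p, hVp p hp, (hnorm p hp).le⟩, hA⟩
  right
  push Not at hA
  obtain ⟨i, hi⟩ := hA
  refine ⟨BB, hBf, hBt, fun t hrel => ?_⟩
  by_contra hcon
  push Not at hcon
  have hGt := hgood t hcon
  obtain ⟨G, hG0', hG, hGd⟩ := hrel
  obtain ⟨Q₀, hQ₀⟩ := pol_dvd hk u t hGt.1 (G.map (algebraMap R M))
    (fun g => map_fixed G g) (by rw [eval_map, hG])
  set F : M[X] := C (algebraMap R M b) * pol K u t with hF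
  have hF0 : F ≠ 0 := mul_ne_zero (C_ne_zero.2 hbM) (pol_monic u t).ne_zero
  set Q : M[X] := C (algebraMap R M b)⁻¹ * Q₀ with hQ
  have hFQ : F * Q = G.map (algebraMap R M) := by
    rw [hQ₀, hF, hQ]
    have : (C (algebraMap R M b) : M[X]) * C (algebraMap R M b)⁻¹ = 1 := by
      rw [← C_mul, mul_inv_cancel₀ hbM, C_1]
    calc C (algebraMap R M b) * pol K u t * (C (algebraMap R M b)⁻¹ * Q₀)
        = (C (algebraMap R M b) * C (algebraMap R M b)⁻¹) * (pol K u t * Q₀) := by ring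
      _ = pol K u t * Q₀ := by rw [this, one_mul]
  have hFmap : ∀ s : M ≃ₐ[K] M, F.map (s : M →+* M) = F := by
    intro s
    rw [hF, Polynomial.map_mul, map_pol hk s u t, map_C]
    congr 2
    rw [IsScalarTower.algebraMap_apply R K M]
    exact s.commutes _
  have hQmap := ranges_eq_of_map hF0 (f := Q) (fun s => by rw [hFQ]; exact map_fixed G s) hFmap
  have hgnF : ∀ p : R, Prime p → gn (Vp p).valuation 1 F = 1 := by
    intro p hp
    rw [hF, pol, gn_lin _ one_ne_zero]
    refine Eq.trans ?_ (hnorm p hp)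
    congr 1
    exact Finset.prod_congr rfl fun v hv => hGt.2.1 p hp v hv
  obtain ⟨Q', hQ'⟩ := exists_lift (R := R) (K := K) Q (coeff_mem_of_map Q hQmap) fun p hp => by
    refine ⟨Vp p, hVp p hp, ?_⟩
    have h1 := gn_mul (Vp p).valuation one_ne_zero F Q
    rw [hgnF p hp, one_mul, hFQ] at h1
    rw [← h1]
    exact gn_map_le (hVp p hp) G
  have hQ'0 : Q' ≠ 0 := by
    rintro rfl
    rw [Polynomial.map_zero] at hQ'
    rw [← hQ', mul_zero] at hFQ
    exact ((Polynomial.map_ne_zero_iff hinj).2 hG0') hFQ.symm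
  have hτ : (I i).τ ^ w i ≠ 0 := pow_ne_zero _ (I i).pos.ne'
  have h1 := gn_mul (I i).V.valuation hτ F Q
  rw [hFQ, ← hQ'] at h1
  have h2 : gn (I i).V.valuation ((I i).τ ^ w i) F = (I i).V.valuation (algebraMap R M b) *
      ∏ v ∈ orb K u, max ((I i).τ ^ w i) (mx (I i).V.valuation v) := by
    rw [hF, pol, gn_lin _ hτ]
    congr 1
    exact Finset.prod_congr rfl fun v hv => hGt.2.2 i v hv
  have h3 := gn_inf_le (I i) (fun s hs => hGd s hs i)
  have h4 := one_le_gn_inf (I i) (w := w i) hQ'0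
  rw [h1, h2] at h3
  exact absurd (lt_of_lt_of_le hi (le_trans (le_mul_of_one_le_right' h4) h3)) (lt_irrefl _)

end Pool.Agent.Q147.GP
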