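import Pool.Agent.Q147.GP.Bound

/-!
# The dimension inequality
-/

set_option autoImplicit false
set_option linter.unusedSectionVars false

namespace Pool.Agent.Q147.GP

open Polynomial Module

variable {k R K M : Type*} [Field k] [IsAlgClosed k] [CommRing R] [IsDomain R]
  [UniqueFactorizationMonoid R]
  [Field K] [Field M] [Algebra k R] [Algebra R K] [IsFractionRing R K] [Algebra R M]
  [Algebra K M] [IsScalarTower R K M] [IsGalois K M] [Algebra k M] [IsScalarTower k R M]
  {e : ℕ} {ι : Type*}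

/-- residues at a point -/
structure Res (K : Type*) [Field K] [Algebra K M] [IsGalois K M] (k : Type*) [Field k]
    [Algebra k R] [Algebra k M] (u : Fin e → M) (ε : R →ₐ[k] k)
    (V : ValuationSubring M) (c : Fin e → k) : Prop where
  pt : IsPt V ε
  int : ∀ v ∈ orb K u, ∀ j, V.valuation (v j) ≤ 1
  res : ∀ j, V.valuation (u j - algebraMap k M (c j)) < 1

theorem exists_res (K : Type*) [Field K] [Algebra R K] [IsFractionRing R K] [Algebra K M]
    [IsScalarTower R K M] [IsGalois K M] (u : Fin e → M) :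
    ∃ d : R, d ≠ 0 ∧ ∀ ε : R →ₐ[k] k, ε d ≠ 0 → ∃ V c, Res K k u ε V c := by
  classical
  have hinj := inj_RM R K M
  obtain ⟨d, hd0, hd⟩ := exists_lead R K M ((orb K u).biUnion fun v => Finset.univ.image v)
  have hd' : ∀ v ∈ orb K u, ∀ j, ∃ G : R[X], G.leadingCoeff ∣ d ∧
      G.eval₂ (algebraMap R M) (v j) = 0 := fun v hv j => hd _ (Finset.mem_biUnion.2
    ⟨v, hv, Finset.mem_image.2 ⟨j, Finset.mem_univ _, rfl⟩⟩)
  refine ⟨d, hd0, fun ε hε => ?_⟩
  obtain ⟨V, hV⟩ := exists_pt (M := M) hinj ε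
  have h1 : ∀ j, ∃ c : k, V.valuation (u j - algebraMap k M c) < 1 := by
    intro j
    obtain ⟨G, hG1, hG2⟩ := hd' u (self_mem_orb u) j
    exact (exists_residue hV hε hG1 hG2).2
  choose c hc using h1
  refine ⟨V, c, hV, fun v hv j => ?_, hc⟩
  obtain ⟨G, hG1, hG2⟩ := hd' v hv j
  exact (exists_residue hV hε hG1 hG2).1

/-- the residue functional -/
noncomputable def lam (c : Fin e → k) : (Fin e → k) →ₗ[k] k where
  toFun t := ∑ j, t j * c j
  map_add' a b := by
    rw [← Finset.sum_add_distrib]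
    exact Finset.sum_congr rfl fun j _ => by rw [Pi.add_apply, add_mul]
  map_smul' r a := by
    rw [RingHom.id_apply, smul_eq_mul, Finset.mul_sum]
    exact Finset.sum_congr rfl fun j _ => by rw [Pi.smul_apply, smul_eq_mul, mul_assoc]

variable {u : Fin e → M}

theorem Res.dot_le {ε : R →ₐ[k] k} {V : ValuationSubring M} {c : Fin e → k}
    (h : Res K k u ε V c) (t : Fin e → k) : V.valuation (dot t u) ≤ 1 :=
  (Pool.Agent.Q147.GP.dot_le (fun c => h.pt.k_le c) t u).trans
    (mx_le fun j => h.int u (self_mem_orb u) j)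

theorem Res.dot_res {ε : R →ₐ[k] k} {V : ValuationSubring M} {c : Fin e → k}
    (h : Res K k u ε V c) (t : Fin e → k) :
    V.valuation (dot t u - algebraMap k M (lam c t)) < 1 := by
  have h1 : dot t u - algebraMap k M (lam c t) =
      ∑ j, t j • (u j - algebraMap k M (c j)) := by
    change (∑ j, t j • u j) - algebraMap k M (∑ j, t j * c j) = _
    rw [map_sum, ← Finset.sum_sub_distrib]
    refine Finset.sum_congr rfl fun j _ => ?_
    rw [smul_sub, map_mul, Algebra.smul_def, Algebra.smul_def]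
  rw [h1]
  refine Valuation.map_sum_lt _ one_ne_zero fun j _ => ?_
  rw [Algebra.smul_def, map_mul]
  exact lt_of_le_of_lt (mul_le_of_le_one_left' (h.pt.k_le _)) (h.res j)

/-- a sum of products has a small value if its residue vanishes -/
theorem Res.prod_lt {ε : R →ₐ[k] k} {V : ValuationSubring M} {c : Fin e → k}
    (h : Res K k u ε V c) {m : ℕ} (σ ω : Fin m → Fin e → k)
    (h0 : ∑ i, lam c (σ i) * lam c (ω i) = 0) :
    V.valuation (∑ i, dot (σ i) u * dot (ω i) u) < 1 := by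
  have h1 : ∑ i, dot (σ i) u * dot (ω i) u = ∑ i, (dot (σ i) u * dot (ω i) u -
      algebraMap k M (lam c (σ i) * lam c (ω i))) := by
    rw [Finset.sum_sub_distrib, ← map_sum, h0, map_zero, sub_zero]
  rw [h1]
  refine Valuation.map_sum_lt _ one_ne_zero fun i _ => ?_
  have h2 : dot (σ i) u * dot (ω i) u - algebraMap k M (lam c (σ i) * lam c (ω i)) =
      (dot (σ i) u - algebraMap k M (lam c (σ i))) * dot (ω i) u +
      algebraMap k M (lam c (σ i)) * (dot (ω i) u - algebraMap k M (lam c (ω i))) := by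
    rw [map_mul]
    ring
  rw [h2]
  refine Valuation.map_add_lt _ ?_ ?_
  · rw [map_mul]
    exact lt_of_le_of_lt (mul_le_of_le_one_right' (h.dot_le _)) (h.dot_res _)
  · rw [map_mul]
    exact lt_of_le_of_lt (mul_le_of_le_one_left' (h.pt.k_le _)) (h.dot_res _)

/-- a sum of products with small values at sufficiently many points vanishes -/
theorem zero_of_small {I : ι → InfPlace k R M} {a w : ι → ℕ} {b : R}
    (hb : Datum K u I a w b) {Ξ : Finset (R →ₐ[k] k)}
    (hΞ : ∀ r : R, r ≠ 0 → (∀ i, (I i).d r ≤ 2 * a i) → ∃ ε ∈ Ξ, ε r ≠ 0)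
    {V : (R →ₐ[k] k) → ValuationSubring M} {c : (R →ₐ[k] k) → Fin e → k}
    (hV : ∀ ε ∈ Ξ, Res K k u ε (V ε) (c ε)) {m : ℕ} (σ ω : Fin m → Fin e → k)
    (h : ∀ ε ∈ Ξ, ∑ i, lam (c ε) (σ i) * lam (c ε) (ω i) = 0) :
    ∑ i, dot (σ i) u * dot (ω i) u = 0 := by
  have hinj := inj_RM R K M
  have hq := quad_sum (K := K) (M := M) (fixes_k k R K M) σ ω
  obtain ⟨r, hr, hrd⟩ := norm_quad hb hq
  have hr0 : r = 0 := by
    by_contra hne
    obtain ⟨ε, hε, hεr⟩ := hΞ r hne (hrd hne)
    have hR := hV ε hε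
    apply hεr
    rw [← (hR.pt r).2, hr, map_mul, map_pow, map_prod]
    refine lt_of_le_of_lt (mul_le_of_le_one_left' (pow_le_one₀ zero_le (hR.pt.le_one b))) ?_
    classical
    rw [← Finset.mul_prod_erase _ _ (self_mem_orb (K := K) u)]
    refine lt_of_le_of_lt (mul_le_of_le_one_right' (Finset.prod_le_one' fun v hv => ?_))
      (hR.prod_lt σ ω (h ε hε))
    refine (hq.2 (V ε) (fun c => hR.pt.k_le c) v).trans (pow_le_one₀ zero_le ?_)
    exact mx_le fun j => hR.int v (Finset.mem_of_mem_erase hv) j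
  rw [hr0, map_zero] at hr
  have hbM : algebraMap R M b ≠ 0 := fun h => hb.1 (hinj (by rw [h, map_zero]))
  have h1 := (mul_eq_zero.1 hr.symm).resolve_left (pow_ne_zero 2 hbM)
  obtain ⟨v, hv, hv0⟩ := Finset.prod_eq_zero_iff.1 h1
  obtain ⟨g, rfl⟩ := mem_orb.1 hv
  exact (map_eq_zero_iff g g.injective).1 ((hq.1 g u).trans hv0)

theorem exists_indep_of_le {E : Type*} [AddCommGroup E] [Module k E] {P : Submodule k E}
    [FiniteDimensional k P] {h : ℕ} (hP : h ≤ finrank k P) :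
    ∃ σ : Fin h → E, LinearIndependent k σ ∧ ∀ i, σ i ∈ P := by
  have hf := (Module.finBasis k P).linearIndependent.comp (Fin.castLE hP) (Fin.castLE_injective hP)
  exact ⟨fun i => (Module.finBasis k P (Fin.castLE hP i) : E),
    hf.map' P.subtype (Submodule.ker_subtype P), fun i => (Module.finBasis k P _).2⟩

/-- **Dimension inequality.** -/
theorem dim_ineq {I : ι → InfPlace k R M} {a w : ι → ℕ} {b : R} (hu : LinearIndependent k u)
    (hb : Datum K u I a w b) {Ξ : Finset (R →ₐ[k] k)}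
    (hΞ : ∀ r : R, r ≠ 0 → (∀ i, (I i).d r ≤ 2 * a i) → ∃ ε ∈ Ξ, ε r ≠ 0)
    (hV : ∀ ε ∈ Ξ, ∃ V c, Res K k u ε V c)
    (hyp : ∀ (h : ℕ) (σ : Fin h → Fin e → k), LinearIndependent k (fun i => dot (σ i) u) →
      ∀ (l : ℕ) (ω : Fin l → Fin h → Fin e → k), LinearIndependent k ω →
        (∀ j, ∑ i, dot (σ i) u * dot (ω j i) u = 0) → l ≤ h * (h - 1))
    {h : ℕ} (hh : 0 < h) (hhe : h ≤ e) : h * e + e ≤ h * h + Ξ.card := by
  classical
  choose! V c hVc using hV
  have hinju := dotL_injective hu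
  have key : ∀ {m : ℕ} (σ ω : Fin m → Fin e → k),
      (∀ ε ∈ Ξ, ∑ i, lam (c ε) (σ i) * lam (c ε) (ω i) = 0) →
      ∑ i, dot (σ i) u * dot (ω i) u = 0 := fun σ ω h =>
    zero_of_small hb hΞ hVc σ ω h
  -- the points separate the space
  have hA : e ≤ Ξ.card := by
    let L : (Fin e → k) →ₗ[k] (Ξ → k) := LinearMap.pi fun ε => lam (c ε)
    have hL : Function.Injective L := by
      rw [injective_iff_map_eq_zero]
      intro t ht
      have h1 : ∑ i : Fin 1, dot ((fun _ => t) i) u * dot ((fun _ => t) i) u = 0 := by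
        refine key (fun _ => t) (fun _ => t) fun ε hε => ?_
        have h2 : lam (c ε) t = 0 := congrFun ht ⟨ε, hε⟩
        simp [h2]
      simp only [Finset.univ_unique, Finset.sum_const, Finset.card_singleton, one_smul] at h1
      have h2 : dot t u = 0 := by
        rcases mul_eq_zero.1 h1 with h | h <;> exact h
      exact hinju (by rw [dotL_apply, h2, map_zero])
    have := LinearMap.finrank_le_finrank_of_injective hL
    rwa [finrank_fin_fun, finrank_fintype_fun_eq_card, Fintype.card_coe] at this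
  obtain ⟨Ξ₁, hΞ₁, hcard₁⟩ := Finset.exists_subset_card_eq (s := Ξ) (n := e - h) (by omega)
  let T₁ : (Fin e → k) →ₗ[k] (Ξ₁ → k) := LinearMap.pi fun ε => lam (c ε)
  have hT₁ : h ≤ finrank k (LinearMap.ker T₁) := by
    have h1 := LinearMap.finrank_range_add_finrank_ker T₁
    have h2 : finrank k (LinearMap.range T₁) ≤ e - h := by
      refine (Submodule.finrank_le _).trans ?_
      rw [finrank_fintype_fun_eq_card, Fintype.card_coe, hcard₁]
    rw [finrank_fin_fun] at h1
    omega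
  obtain ⟨σ, hσ, hσT⟩ := exists_indep_of_le hT₁
  have hσ' : ∀ i, ∀ ε ∈ Ξ₁, lam (c ε) (σ i) = 0 := fun i ε hε =>
    congrFun (LinearMap.mem_ker.1 (hσT i)) ⟨ε, hε⟩
  let Θ : (Fin h → Fin e → k) →ₗ[k] ((Ξ \ Ξ₁ : Finset _) → k) :=
    LinearMap.pi fun ε => ∑ i, (lam (c ε) (σ i)) • ((lam (c ε)).comp (LinearMap.proj i))
  have hΘ : ∀ (ω : Fin h → Fin e → k) ε (hε : ε ∈ Ξ \ Ξ₁), Θ ω ⟨ε, hε⟩ =
      ∑ i, lam (c ε) (σ i) * lam (c ε) (ω i) := by
    intro ω ε hε
    simp [Θ]
  have hker : ∀ ω ∈ LinearMap.ker Θ, ∑ i, dot (σ i) u * dot (ω i) u = 0 := by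
    intro ω hω
    refine key σ ω fun ε hε => ?_
    by_cases h1 : ε ∈ Ξ₁
    · exact Finset.sum_eq_zero fun i _ => by rw [hσ' i ε h1, zero_mul]
    · have h2 := congrFun (LinearMap.mem_ker.1 hω) ⟨ε, Finset.mem_sdiff.2 ⟨hε, h1⟩⟩
      rw [hΘ] at h2
      exact h2
  obtain ⟨ω, hω, hωT⟩ := exists_indep_of_le (P := LinearMap.ker Θ) le_rfl
  have hl := hyp h σ (by
    have := hσ.map' (dotL k u) (LinearMap.ker_eq_bot.2 hinju)
    exact this) _ ω hω fun j => hker _ (hωT j)
  have h1 := LinearMap.finrank_range_add_finrank_ker Θ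
  have h2 : finrank k (LinearMap.range Θ) ≤ Ξ.card - (e - h) := by
    refine (Submodule.finrank_le _).trans ?_
    rw [finrank_fintype_fun_eq_card, Fintype.card_coe, Finset.card_sdiff_of_subset hΞ₁, hcard₁]
  have h3 : finrank k (Fin h → Fin e → k) = h * e := by
    rw [finrank_pi_fintype]
    simp
  rw [h3] at h1
  obtain ⟨h', rfl⟩ : ∃ h', h = h' + 1 := ⟨h - 1, by omega⟩
  have h4 : (h' + 1) * (h' + 1 - 1) + (h' + 1) = (h' + 1) * (h' + 1) := by
    rw [Nat.add_sub_cancel]
    ring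
  omega

end Pool.Agent.Q147.GP
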