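import Mathlib

/-!
# The Gauss norm of a polynomial over a valued field
-/

set_option autoImplicit false

namespace Pool.Agent.Q147.GP

open Polynomial

variable {M Γ : Type*} [Field M] [LinearOrderedCommGroupWithZero Γ]

theorem mul_lt_aux {a b c d : Γ} (h1 : a < b) (h2 : c ≤ d) (h3 : 0 < d) : a * c < b * d :=
  lt_of_le_of_lt (mul_le_mul' le_rfl h2) (mul_lt_mul_of_pos_right h1 h3)

/-- the Gauss norm with radius `ρ` -/
noncomputable def gn (v : Valuation M Γ) (ρ : Γ) (f : M[X]) : Γ :=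
  f.support.sup fun s => v (f.coeff s) * ρ ^ s

theorem le_gn (v : Valuation M Γ) (ρ : Γ) (f : M[X]) (s : ℕ) :
    v (f.coeff s) * ρ ^ s ≤ gn v ρ f := by
  by_cases h : s ∈ f.support
  · exact Finset.le_sup (f := fun s => v (f.coeff s) * ρ ^ s) h
  · rw [notMem_support_iff.1 h, map_zero, zero_mul]
    exact zero_le

theorem gn_le {v : Valuation M Γ} {ρ : Γ} {f : M[X]} {c : Γ}
    (h : ∀ s, v (f.coeff s) * ρ ^ s ≤ c) : gn v ρ f ≤ c :=
  Finset.sup_le fun s _ => h s

theorem exists_gn (v : Valuation M Γ) (ρ : Γ) {f : M[X]} (hf : f ≠ 0) :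
    ∃ s, f.coeff s ≠ 0 ∧ v (f.coeff s) * ρ ^ s = gn v ρ f := by
  obtain ⟨s, hs, h⟩ := Finset.exists_mem_eq_sup f.support (support_nonempty.2 hf)
    fun s => v (f.coeff s) * ρ ^ s
  exact ⟨s, mem_support_iff.1 hs, h.symm⟩

theorem gn_pos (v : Valuation M Γ) {ρ : Γ} (hρ : ρ ≠ 0) {f : M[X]} (hf : f ≠ 0) :
    0 < gn v ρ f := by
  obtain ⟨s, h1, h2⟩ := exists_gn v ρ hf
  rw [← h2]
  exact zero_lt_iff.2 (mul_ne_zero ((Valuation.ne_zero_iff v).2 h1) (pow_ne_zero _ hρ))

theorem gn_zero (v : Valuation M Γ) (ρ : Γ) : gn v ρ 0 = 0 := by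
  rw [gn, support_zero, Finset.sup_empty]
  exact bot_eq_zero

theorem gn_mul (v : Valuation M Γ) {ρ : Γ} (hρ : ρ ≠ 0) (f g : M[X]) :
    gn v ρ (f * g) = gn v ρ f * gn v ρ g := by
  classical
  by_cases hf : f = 0
  · rw [hf, zero_mul, gn_zero, zero_mul]
  by_cases hg : g = 0
  · rw [hg, mul_zero, gn_zero, mul_zero]
  have hsplit : ∀ a b : ℕ, v (f.coeff a * g.coeff b) * ρ ^ (a + b) =
      (v (f.coeff a) * ρ ^ a) * (v (g.coeff b) * ρ ^ b) := by
    intro a b
    rw [map_mul, pow_add]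
    exact mul_mul_mul_comm _ _ _ _
  apply le_antisymm
  · refine gn_le fun s => ?_
    rw [coeff_mul]
    have h1 : ∀ x ∈ Finset.HasAntidiagonal.antidiagonal s,
        v (f.coeff x.1 * g.coeff x.2) ≤ gn v ρ f * gn v ρ g * (ρ ^ s)⁻¹ := by
      intro x hx
      rw [← div_eq_mul_inv, le_div_iff₀ (zero_lt_iff.2 (pow_ne_zero _ hρ)),
        ← Finset.HasAntidiagonal.mem_antidiagonal.1 hx, hsplit]
      exact mul_le_mul' (le_gn v ρ f _) (le_gn v ρ g _)
    have h2 := Valuation.map_sum_le v h1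
    refine le_trans (mul_le_mul_left h2 _) ?_
    rw [mul_assoc, inv_mul_cancel₀ (pow_ne_zero _ hρ), mul_one]
  · have hfe : ∃ s, v (f.coeff s) * ρ ^ s = gn v ρ f :=
      (exists_gn v ρ hf).imp fun s h => h.2
    have hge : ∃ s, v (g.coeff s) * ρ ^ s = gn v ρ g :=
      (exists_gn v ρ hg).imp fun s h => h.2
    set a := Nat.find hfe with ha
    set b := Nat.find hge with hb
    have hfa : v (f.coeff a) * ρ ^ a = gn v ρ f := Nat.find_spec hfe
    have hgb : v (g.coeff b) * ρ ^ b = gn v ρ g := Nat.find_spec hge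
    have hfm : ∀ c < a, v (f.coeff c) * ρ ^ c < gn v ρ f := fun c hc =>
      lt_of_le_of_ne (le_gn v ρ f c) (Nat.find_min hfe hc)
    have hgm : ∀ c < b, v (g.coeff c) * ρ ^ c < gn v ρ g := fun c hc =>
      lt_of_le_of_ne (le_gn v ρ g c) (Nat.find_min hge hc)
    have hpf := gn_pos v hρ hf
    have hpg := gn_pos v hρ hg
    have hab : (a, b) ∈ Finset.HasAntidiagonal.antidiagonal (a + b) := Finset.HasAntidiagonal.mem_antidiagonal.2 rfl
    have h3 : (f * g).coeff (a + b) = f.coeff a * g.coeff b +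
        ∑ x ∈ (Finset.HasAntidiagonal.antidiagonal (a + b)).erase (a, b), f.coeff x.1 * g.coeff x.2 := by
      rw [coeff_mul]
      exact (Finset.add_sum_erase _ _ hab).symm
    have h4 : v (f.coeff a * g.coeff b) * ρ ^ (a + b) = gn v ρ f * gn v ρ g := by
      rw [hsplit, hfa, hgb]
    have h5 : v (f.coeff a * g.coeff b) ≠ 0 := by
      intro h
      rw [h, zero_mul] at h4
      exact (mul_ne_zero hpf.ne' hpg.ne') h4.symm
    have h6 : v (∑ x ∈ (Finset.HasAntidiagonal.antidiagonal (a + b)).erase (a, b), f.coeff x.1 * g.coeff x.2) <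
        v (f.coeff a * g.coeff b) := by
      refine Valuation.map_sum_lt v h5 fun x hx => ?_
      obtain ⟨hx1, hx2⟩ := Finset.mem_erase.1 hx
      have hx3 := Finset.HasAntidiagonal.mem_antidiagonal.1 hx2
      have hlt : v (f.coeff x.1 * g.coeff x.2) * ρ ^ (a + b) < gn v ρ f * gn v ρ g := by
        rw [← hx3, hsplit]
        by_cases hc : x.1 < a
        · exact mul_lt_aux (hfm _ hc) (le_gn v ρ g _) hpg
        · have hc2 : x.2 < b := by
            by_contra hc2
            apply hx1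
            have h7 : x.1 = a := by omega
            have h8 : x.2 = b := by omega
            exact Prod.ext h7 h8
          rw [mul_comm (v (f.coeff x.1) * ρ ^ x.1), mul_comm (gn v ρ f)]
          exact mul_lt_aux (hgm _ hc2) (le_gn v ρ f _) hpf
      rw [← h4] at hlt
      exact lt_of_mul_lt_mul_right' hlt
    have h9 : v ((f * g).coeff (a + b)) = v (f.coeff a * g.coeff b) := by
      rw [h3]
      exact Valuation.map_add_eq_of_lt_left v h6
    calc gn v ρ f * gn v ρ g = v ((f * g).coeff (a + b)) * ρ ^ (a + b) := by rw [h9, h4]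
      _ ≤ gn v ρ (f * g) := le_gn v ρ _ _

theorem gn_C (v : Valuation M Γ) (ρ : Γ) (a : M) : gn v ρ (C a) = v a := by
  apply le_antisymm
  · refine gn_le fun s => ?_
    rw [coeff_C]
    split_ifs with h
    · rw [h, pow_zero, mul_one]
    · rw [map_zero, zero_mul]
      exact zero_le
  · have := le_gn v ρ (C a) 0
    rwa [coeff_C_zero, pow_zero, mul_one] at this

theorem gn_X_sub_C (v : Valuation M Γ) (ρ : Γ) (z : M) : gn v ρ (X - C z) = max ρ (v z) := by
  apply le_antisymm
  · refine gn_le fun s => ?_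
    rcases s with _ | _ | s
    · simp
    · simp
    · have : (X - C z : M[X]).coeff (s + 1 + 1) = 0 := by
        rw [coeff_sub, coeff_X, coeff_C]
        simp
      rw [this, map_zero, zero_mul]
      exact zero_le
  · refine max_le ?_ ?_
    · have := le_gn v ρ (X - C z) 1
      simpa using this
    · have := le_gn v ρ (X - C z) 0
      simpa using this

theorem gn_prod (v : Valuation M Γ) {ρ : Γ} (hρ : ρ ≠ 0) {ι : Type*} (s : Finset ι)
    (f : ι → M[X]) : gn v ρ (∏ i ∈ s, f i) = ∏ i ∈ s, gn v ρ (f i) := by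
  classical
  induction s using Finset.induction_on with
  | empty =>
    rw [Finset.prod_empty, Finset.prod_empty, ← C_1, gn_C, map_one]
  | insert i s his ih => rw [Finset.prod_insert his, Finset.prod_insert his, gn_mul v hρ, ih]

/-- the Gauss norm of a product of linear factors -/
theorem gn_lin (v : Valuation M Γ) {ρ : Γ} (hρ : ρ ≠ 0) {ι : Type*} (s : Finset ι) (b : M)
    (z : ι → M) : gn v ρ (C b * ∏ i ∈ s, (X - C (z i))) = v b * ∏ i ∈ s, max ρ (v (z i)) := by
  rw [gn_mul v hρ, gn_C, gn_prod v hρ]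
  congr 1
  exact Finset.prod_congr rfl fun i _ => gn_X_sub_C v ρ (z i)

end Pool.Agent.Q147.GP
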