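import Pool.Agent.Q147.GP.Dim

/-!
# The growth of the powers of a space
-/

set_option autoImplicit false
set_option linter.unusedSectionVars false

namespace Pool.Agent.Q147.GP

open Polynomial Module

variable {k R K M : Type*} [Field k] [IsAlgClosed k] [CommRing R] [IsDomain R]
  [UniqueFactorizationMonoid R]
  [Field K] [Field M] [Algebra k R] [Algebra R K] [IsFractionRing R K] [Algebra R M]
  [Algebra K M] [IsScalarTower R K M] [IsGalois K M] [Algebra k M] [IsScalarTower k R M]
  {e : ℕ} {ι : Type*}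

/-- an expression of degree `q` in the coordinates of the conjugates -/
def QF (K k : Type*) [Field k] [Field K] [Algebra K M] [Algebra k M] (q : ℕ)
    (g : (Fin e → M) → M) : Prop :=
  (∀ (s : M ≃ₐ[K] M) (v : Fin e → M), s (g v) = g fun j => s (v j)) ∧
  ∀ V : ValuationSubring M, (∀ c : k, V.valuation (algebraMap k M c) ≤ 1) →
    ∀ v : Fin e → M, V.valuation (g v) ≤ mx V.valuation v ^ q

omit [IsGalois K M] [IsAlgClosed k] in
theorem exists_QF (hk : Fixes K k M) (u : Fin e → M) (q : ℕ) :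
    ∀ z ∈ (LinearMap.range (dotL k u)) ^ q, ∃ g : (Fin e → M) → M, QF K k q g ∧ g u = z := by
  induction q with
  | zero =>
    intro z hz
    rw [pow_zero, Submodule.mem_one] at hz
    obtain ⟨c, rfl⟩ := hz
    refine ⟨fun _ => algebraMap k M c, ⟨fun s _ => hk s c, fun V hV v => ?_⟩, rfl⟩
    rw [pow_zero]
    exact hV c
  | succ q ih =>
    intro z hz
    rw [pow_succ] at hz
    refine Submodule.mul_induction_on hz ?_ ?_
    · rintro a ha _ ⟨t, rfl⟩
      obtain ⟨g, hg, rfl⟩ := ih a ha
      refine ⟨fun v => g v * dot t v, ⟨fun s v => ?_, fun V hV v => ?_⟩, rfl⟩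
      · rw [map_mul, hg.1, map_dot hk]
      · rw [map_mul, pow_succ]
        exact mul_le_mul' (hg.2 V hV v) (dot_le hV t v)
    · rintro _ _ ⟨g, hg, rfl⟩ ⟨g', hg', rfl⟩
      refine ⟨fun v => g v + g' v, ⟨fun s v => ?_, fun V hV v => ?_⟩, rfl⟩
      · rw [map_add, hg.1, hg'.1]
      · exact Valuation.map_add_le _ (hg.2 V hV v) (hg'.2 V hV v)

/-- the norm of an expression of degree `q` is integral of bounded degrees -/
theorem norm_QF {u : Fin e → M} {I : ι → InfPlace k R M} {a w : ι → ℕ} {b : R}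
    (hb : Datum K u I a w b) {q : ℕ} {g : (Fin e → M) → M} (hg : QF K k q g) :
    ∃ r : R, algebraMap R M r = algebraMap R M b ^ q * ∏ v ∈ orb K u, g v ∧
      (r ≠ 0 → ∀ i, (I i).d r ≤ q * a i) := by
  obtain ⟨hb0, h1, h2⟩ := hb
  have key : ∀ V : ValuationSubring M, (∀ c : k, V.valuation (algebraMap k M c) ≤ 1) →
      ∀ ρ : V.ValueGroup, V.valuation (algebraMap R M b ^ q * ∏ v ∈ orb K u, g v) ≤
      (V.valuation (algebraMap R M b) * ∏ v ∈ orb K u, max ρ (mx V.valuation v)) ^ q := by
    intro V hV ρ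
    rw [map_mul, map_pow, map_prod, mul_pow, ← Finset.prod_pow]
    refine mul_le_mul' le_rfl (Finset.prod_le_prod' fun v _ => ?_)
    exact (hg.2 V hV v).trans (pow_le_pow_left₀ zero_le (le_max_right _ _) q)
  obtain ⟨r, hr⟩ := mem_of_places (R := R) (inj_RM R K M)
    (z := algebraMap R M b ^ q * ∏ v ∈ orb K u, g v)
    (frac_of_mem R K M (by
      obtain ⟨y, hy⟩ := prod_orb_mem (K := K) u g hg.1
      exact ⟨algebraMap R K b ^ q * y, by
        rw [map_mul, hy, map_pow, ← IsScalarTower.algebraMap_apply]⟩))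
    (fun p hp => by
      obtain ⟨V, hV, h3⟩ := h1 p hp
      refine ⟨V, hV, (key V (fun c => hV.le_one_k c) 1).trans ?_⟩
      exact pow_le_one₀ zero_le h3)
  refine ⟨r, hr, fun hr0 i => ?_⟩
  have h3 := key (I i).V (fun c => (I i).le_one c) ((I i).τ ^ w i)
  rw [← hr, (I i).hd r hr0] at h3
  have h4 := h3.trans (pow_le_pow_left₀ zero_le (h2 i) q)
  rw [← pow_mul] at h4
  have h5 := (pow_le_pow_iff_right₀ (I i).hτ).1 h4
  rwa [mul_comm (a i) q] at h5

/-- an element of a power of the space with small values at sufficiently many points vanishes -/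
theorem zero_of_small' {u : Fin e → M} {I : ι → InfPlace k R M} {a w : ι → ℕ} {b : R}
    (hb : Datum K u I a w b) {q : ℕ} {Ξ : Finset (R →ₐ[k] k)}
    (hΞ : ∀ r : R, r ≠ 0 → (∀ i, (I i).d r ≤ q * a i) → ∃ ε ∈ Ξ, ε r ≠ 0)
    {V : (R →ₐ[k] k) → ValuationSubring M} {c : (R →ₐ[k] k) → Fin e → k}
    (hV : ∀ ε ∈ Ξ, Res K k u ε (V ε) (c ε)) {z : M} (hz : z ∈ (LinearMap.range (dotL k u)) ^ q)
    (h : ∀ ε ∈ Ξ, (V ε).valuation z < 1) : z = 0 := by
  have hinj := inj_RM R K M
  obtain ⟨g, hq, rfl⟩ := exists_QF (K := K) (fixes_k k R K M) u q z hz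
  obtain ⟨r, hr, hrd⟩ := norm_QF hb hq
  have hr0 : r = 0 := by
    by_contra hne
    obtain ⟨ε, hε, hεr⟩ := hΞ r hne (hrd hne)
    have hR := hV ε hε
    apply hεr
    rw [← (hR.pt r).2, hr, map_mul, map_pow, map_prod]
    refine lt_of_le_of_lt (mul_le_of_le_one_left' (pow_le_one₀ zero_le (hR.pt.le_one b))) ?_
    classical
    rw [← Finset.mul_prod_erase _ _ (self_mem_orb (K := K) u)]
    refine lt_of_le_of_lt (mul_le_of_le_one_right' (Finset.prod_le_one' fun v hv => ?_)) (h ε hε)
    refine (hq.2 (V ε) (fun c => hR.pt.k_le c) v).trans (pow_le_one₀ zero_le ?_)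
    exact mx_le fun j => hR.int v (Finset.mem_of_mem_erase hv) j
  rw [hr0, map_zero] at hr
  have hbM : algebraMap R M b ≠ 0 := fun h => hb.1 (hinj (by rw [h, map_zero]))
  have h1 := (mul_eq_zero.1 hr.symm).resolve_left (pow_ne_zero q hbM)
  obtain ⟨v, hv, hv0⟩ := Finset.prod_eq_zero_iff.1 h1
  obtain ⟨s, rfl⟩ := mem_orb.1 hv
  exact (map_eq_zero_iff s s.injective).1 ((hq.1 s u).trans hv0)

/-- the elements with residue in `k` -/
def resAlg (k : Type*) [Field k] [Algebra k M] (V : ValuationSubring M)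
    (hV : ∀ c : k, V.valuation (algebraMap k M c) ≤ 1) : Subalgebra k M where
  carrier := {z | ∃ c : k, V.valuation (z - algebraMap k M c) < 1}
  mul_mem' := by
    rintro a b ⟨c, hc⟩ ⟨c', hc'⟩
    refine ⟨c * c', ?_⟩
    have ha : V.valuation a ≤ 1 := by
      have : a = (a - algebraMap k M c) + algebraMap k M c := by ring
      rw [this]
      exact Valuation.map_add_le _ hc.le (hV c)
    have h2 : a * b - algebraMap k M (c * c') =
        a * (b - algebraMap k M c') + (a - algebraMap k M c) * algebraMap k M c' := by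
      rw [map_mul]
      ring
    rw [h2]
    refine Valuation.map_add_lt _ ?_ ?_
    · rw [map_mul]
      exact lt_of_le_of_lt (mul_le_of_le_one_left' ha) hc'
    · rw [map_mul]
      exact lt_of_le_of_lt (mul_le_of_le_one_right' (hV _)) hc
  add_mem' := by
    rintro a b ⟨c, hc⟩ ⟨c', hc'⟩
    refine ⟨c + c', ?_⟩
    have h2 : a + b - algebraMap k M (c + c') =
        (a - algebraMap k M c) + (b - algebraMap k M c') := by
      rw [map_add]
      ring
    rw [h2]
    exact Valuation.map_add_lt _ hc hc'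
  algebraMap_mem' c := ⟨c, by rw [sub_self, map_zero]; exact zero_lt_one⟩

/-- the residue functional -/
noncomputable def resFun (V : ValuationSubring M)
    (hV : ∀ c : k, V.valuation (algebraMap k M c) ≤ 1)
    (hV1 : ∀ c : k, c ≠ 0 → V.valuation (algebraMap k M c) = 1) :
    resAlg k V hV →ₗ[k] k :=
  have huniq : ∀ (z : M) (c c' : k), V.valuation (z - algebraMap k M c) < 1 →
      V.valuation (z - algebraMap k M c') < 1 → c = c' := by
    intro z c c' h h'
    by_contra hne
    have h1 := hV1 (c - c') (sub_ne_zero.2 hne)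
    have h2 : algebraMap k M (c - c') = (z - algebraMap k M c') - (z - algebraMap k M c) := by
      rw [map_sub]
      ring
    rw [h2] at h1
    exact absurd (Valuation.map_sub_lt _ h' h) (by rw [h1]; exact lt_irrefl _)
  { toFun := fun z => z.2.choose
    map_add' := fun a b => by
      refine huniq (a + b : M) _ _ (a + b).2.choose_spec ?_
      have h2 : (a : M) + b - algebraMap k M (a.2.choose + b.2.choose) =
          (a - algebraMap k M a.2.choose) + (b - algebraMap k M b.2.choose) := by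
        rw [map_add]
        ring
      rw [h2]
      exact Valuation.map_add_lt _ a.2.choose_spec b.2.choose_spec
    map_smul' := fun c a => by
      refine huniq (c • a : M) _ _ (c • a).2.choose_spec ?_
      have h2 : c • (a : M) - algebraMap k M ((RingHom.id k) c • a.2.choose) =
          algebraMap k M c * (a - algebraMap k M a.2.choose) := by
        rw [RingHom.id_apply, smul_eq_mul, map_mul, Algebra.smul_def]
        ring
      rw [h2, map_mul]
      exact lt_of_le_of_lt (mul_le_of_le_one_left' (hV _)) a.2.choose_spec }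

theorem resFun_spec (V : ValuationSubring M)
    (hV : ∀ c : k, V.valuation (algebraMap k M c) ≤ 1)
    (hV1 : ∀ c : k, c ≠ 0 → V.valuation (algebraMap k M c) = 1) (z : resAlg k V hV) :
    V.valuation ((z : M) - algebraMap k M (resFun V hV hV1 z)) < 1 := z.2.choose_spec

theorem resFun_eq_zero (V : ValuationSubring M)
    (hV : ∀ c : k, V.valuation (algebraMap k M c) ≤ 1)
    (hV1 : ∀ c : k, c ≠ 0 → V.valuation (algebraMap k M c) = 1) (z : resAlg k V hV) :
    resFun V hV hV1 z = 0 ↔ V.valuation (z : M) < 1 := by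
  have h := resFun_spec V hV hV1 z
  constructor
  · intro h0
    rwa [h0, map_zero, sub_zero] at h
  · intro h0
    by_contra hne
    have h1 := hV1 _ hne
    have h2 : algebraMap k M (resFun V hV hV1 z) =
        (z : M) - ((z : M) - algebraMap k M (resFun V hV hV1 z)) := by ring
    rw [h2] at h1
    exact absurd (Valuation.map_sub_lt _ h0 h) (by rw [h1]; exact lt_irrefl _)

theorem pow_le_resAlg {u : Fin e → M} {ε : R →ₐ[k] k} {V : ValuationSubring M} {c : Fin e → k}
    (h : Res K k u ε V c) (q : ℕ) {z : M} (hz : z ∈ (LinearMap.range (dotL k u)) ^ q) :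
    z ∈ resAlg k V (fun c => h.pt.k_le c) := by
  have h1 : LinearMap.range (dotL k u) ≤
      Subalgebra.toSubmodule (resAlg k V (fun c => h.pt.k_le c)) := by
    rintro _ ⟨t, rfl⟩
    exact ⟨_, h.dot_res t⟩
  have h2 : ∀ q : ℕ, ∀ z ∈ (LinearMap.range (dotL k u)) ^ q,
      z ∈ resAlg k V (fun c => h.pt.k_le c) := by
    intro q
    induction q with
    | zero =>
      intro z hz
      rw [pow_zero, Submodule.mem_one] at hz
      obtain ⟨c, rfl⟩ := hz
      exact Subalgebra.algebraMap_mem _ c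
    | succ q ih =>
      intro z hz
      rw [pow_succ] at hz
      refine Submodule.mul_induction_on hz (fun a ha b hb => ?_) fun a b ha hb => ?_
      · exact Subalgebra.mul_mem _ (ih a ha) (h1 hb)
      · exact Subalgebra.add_mem _ ha hb
  exact h2 q z hz

/-- a separating family of functionals contains families of any size with surjective value map -/
theorem exists_sel {X : Type*} [AddCommGroup X] [Module k X] [FiniteDimensional k X]
    {ι : Type*} (f : ι → X →ₗ[k] k) (hf : ∀ x, (∀ i, f i x = 0) → x = 0) (j : ℕ)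
    (hj : j ≤ finrank k X) :
    ∃ s : Finset ι, s.card = j ∧ Function.Surjective fun x : X => fun i : s => f i x := by
  classical
  induction j with
  | zero =>
    refine ⟨∅, rfl, fun y => ⟨0, funext fun i => absurd i.2 (Finset.notMem_empty _)⟩⟩
  | succ j ih =>
    obtain ⟨s, hs, hsurj⟩ := ih (by omega)
    let L : X →ₗ[k] (s → k) := LinearMap.pi fun i => f i
    have hL : Function.Surjective L := hsurj
    have h1 := LinearMap.finrank_range_add_finrank_ker L
    rw [LinearMap.range_eq_top.2 hL, finrank_top, finrank_fintype_fun_eq_card,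
      Fintype.card_coe, hs] at h1
    have h2 : LinearMap.ker L ≠ ⊥ := by
      intro h
      rw [h, finrank_bot] at h1
      omega
    obtain ⟨x, hx, hx0⟩ := Submodule.exists_mem_ne_zero_of_ne_bot h2
    obtain ⟨i, hi⟩ : ∃ i, f i x ≠ 0 := by
      by_contra h
      push Not at h
      exact hx0 (hf x h)
    have his : i ∉ s := fun h => hi (congrFun (LinearMap.mem_ker.1 hx) ⟨i, h⟩)
    refine ⟨insert i s, by rw [Finset.card_insert_of_notMem his, hs], fun y => ?_⟩
    obtain ⟨x₀, hx₀⟩ := hL fun m => y ⟨m, Finset.mem_insert_of_mem m.2⟩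
    refine ⟨x₀ + ((y ⟨i, Finset.mem_insert_self i s⟩ - f i x₀) / f i x) • x, ?_⟩
    funext m
    obtain ⟨m, hm⟩ := m
    change f m (x₀ + ((y ⟨i, Finset.mem_insert_self i s⟩ - f i x₀) / f i x) • x) = y ⟨m, hm⟩
    rw [map_add, map_smul, smul_eq_mul]
    rcases Finset.mem_insert.1 hm with rfl | hm'
    · rw [div_mul_cancel₀ _ hi]
      ring
    · have h3 : f m x = 0 := congrFun (LinearMap.mem_ker.1 hx) ⟨m, hm'⟩
      have h4 : f m x₀ = y ⟨m, hm⟩ := congrFun hx₀ ⟨m, hm'⟩
      rw [h3, mul_zero, add_zero, h4]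

/-- the number of points bounds the dimension -/
theorem finrank_pow_le {u : Fin e → M} {I : ι → InfPlace k R M} {a w : ι → ℕ} {b : R}
    (hb : Datum K u I a w b) {q : ℕ} {Ξ : Finset (R →ₐ[k] k)}
    (hΞ : ∀ r : R, r ≠ 0 → (∀ i, (I i).d r ≤ q * a i) → ∃ ε ∈ Ξ, ε r ≠ 0)
    (hV : ∀ ε ∈ Ξ, ∃ V c, Res K k u ε V c) :
    finrank k ((LinearMap.range (dotL k u)) ^ q : Submodule k M) ≤ Ξ.card := by
  classical
  choose! V c hVc using hV
  set W : Submodule k M := LinearMap.range (dotL k u) with hW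
  let L : (W ^ q : Submodule k M) →ₗ[k] (Ξ → k) := LinearMap.pi fun ε =>
    (resFun (V ε) (fun c => (hVc ε ε.2).pt.k_le c) (fun c hc => (hVc ε ε.2).pt.k_eq hc)).comp
      ((W ^ q : Submodule k M).subtype.codRestrict
        (Subalgebra.toSubmodule (resAlg k (V ε) (fun c => (hVc ε ε.2).pt.k_le c)))
        fun z => pow_le_resAlg (hVc ε ε.2) q z.2)
  have hL : Function.Injective L := by
    rw [injective_iff_map_eq_zero]
    intro z hz
    have h1 := zero_of_small' hb hΞ hVc z.2 fun ε hε =>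
      (resFun_eq_zero (V ε) (fun c => (hVc ε hε).pt.k_le c) (fun c hc => (hVc ε hε).pt.k_eq hc)
      ⟨z, pow_le_resAlg (hVc ε hε) q z.2⟩).1 (congrFun hz ⟨ε, hε⟩)
    exact Subtype.ext h1
  have := LinearMap.finrank_le_finrank_of_injective hL
  rwa [finrank_fintype_fun_eq_card, Fintype.card_coe] at this

/-- **One step of the growth.** -/
theorem growth_step {u : Fin e → M} {I : ι → InfPlace k R M} {a w : ι → ℕ} {b : R}
    (hu : LinearIndependent k u) (h1u : (1 : M) ∈ LinearMap.range (dotL k u))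
    (hb : Datum K u I a w b) {q : ℕ} {Ξ : Finset (R →ₐ[k] k)}
    (hΞ : ∀ r : R, r ≠ 0 → (∀ i, (I i).d r ≤ (q + 1) * a i) → ∃ ε ∈ Ξ, ε r ≠ 0)
    (hV : ∀ ε ∈ Ξ, ∃ V c, Res K k u ε V c)
    (hyp : ∀ (h : ℕ) (s : Fin h → M), LinearIndependent k s →
      ∀ (l : ℕ) (ω : Fin l → Fin h → Fin e → k), LinearIndependent k ω →
        (∀ j, ∑ i, s i * dot (ω j i) u = 0) → l ≤ h * (h - 1))
    {h : ℕ} (hh : 0 < h) (hhq : h ≤ finrank k ((LinearMap.range (dotL k u)) ^ q : Submodule k M)) :
    h * e + finrank k ((LinearMap.range (dotL k u)) ^ q : Submodule k M) ≤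
      h * h + finrank k ((LinearMap.range (dotL k u)) ^ (q + 1) : Submodule k M) := by
  classical
  choose! V c hVc using hV
  set W : Submodule k M := LinearMap.range (dotL k u) with hW
  have hWfg : W.FG := by
    rw [← Submodule.fg_top]
    exact Module.Finite.fg_top
  have : FiniteDimensional k (W ^ q : Submodule k M) := Module.Finite.iff_fg.2 (hWfg.pow q)
  have : FiniteDimensional k (W ^ (q + 1) : Submodule k M) :=
    Module.Finite.iff_fg.2 (hWfg.pow (q + 1))
  have hle : W ^ q ≤ W ^ (q + 1) := by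
    intro z hz
    rw [pow_succ, ← mul_one z]
    exact Submodule.mul_mem_mul hz h1u
  -- the residue functionals on the larger power
  let lamE : Ξ → (W ^ (q + 1) : Submodule k M) →ₗ[k] k := fun ε =>
    (resFun (V ε) (fun c => (hVc ε ε.2).pt.k_le c) (fun c hc => (hVc ε ε.2).pt.k_eq hc)).comp
      ((W ^ (q + 1) : Submodule k M).subtype.codRestrict
        (Subalgebra.toSubmodule (resAlg k (V ε) (fun c => (hVc ε ε.2).pt.k_le c)))
        fun z => pow_le_resAlg (hVc ε ε.2) (q + 1) z.2)
  have hlam : ∀ (ε : Ξ) (z : (W ^ (q + 1) : Submodule k M)), lamE ε z = 0 ↔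
      (V ε).valuation (z : M) < 1 := fun ε z =>
    resFun_eq_zero (V ε) (fun c => (hVc ε ε.2).pt.k_le c) (fun c hc => (hVc ε ε.2).pt.k_eq hc)
      ⟨z, pow_le_resAlg (hVc ε ε.2) (q + 1) z.2⟩
  have hsep : ∀ z : (W ^ (q + 1) : Submodule k M), (∀ ε, lamE ε z = 0) → z = 0 := by
    intro z hz
    have h1 := zero_of_small' hb hΞ hVc z.2 fun ε hε => (hlam ⟨ε, hε⟩ z).1 (hz ⟨ε, hε⟩)
    exact Subtype.ext h1
  let inc : (W ^ q : Submodule k M) →ₗ[k] (W ^ (q + 1) : Submodule k M) :=
    Submodule.inclusion hle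
  have hinc : Function.Injective inc := Submodule.inclusion_injective hle
  obtain ⟨S₁, hS₁, hsurj⟩ := exists_sel (fun ε : Ξ => (lamE ε).comp inc)
    (fun x hx => hinc (by rw [map_zero]; exact hsep (inc x) hx))
    (finrank k (W ^ q : Submodule k M) - h) (Nat.sub_le _ _)
  let L₁ : (W ^ (q + 1) : Submodule k M) →ₗ[k] (S₁ → k) := LinearMap.pi fun ε => lamE ε
  have hL₁ : Function.Surjective L₁ := by
    intro y
    obtain ⟨x, hx⟩ := hsurj y
    exact ⟨inc x, hx⟩
  have hL₁' : Function.Surjective (L₁.comp inc) := hsurj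
  have hker1 : finrank k (LinearMap.ker L₁) + (finrank k (W ^ q : Submodule k M) - h) =
      finrank k (W ^ (q + 1) : Submodule k M) := by
    have h1 := LinearMap.finrank_range_add_finrank_ker L₁
    rw [LinearMap.range_eq_top.2 hL₁, finrank_top, finrank_fintype_fun_eq_card,
      Fintype.card_coe, hS₁] at h1
    omega
  have hker2 : finrank k (LinearMap.ker (L₁.comp inc)) = h := by
    have h1 := LinearMap.finrank_range_add_finrank_ker (L₁.comp inc)
    rw [LinearMap.range_eq_top.2 hL₁', finrank_top, finrank_fintype_fun_eq_card,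
      Fintype.card_coe, hS₁] at h1
    omega
  obtain ⟨s, hs, hsT⟩ := exists_indep_of_le (P := LinearMap.ker (L₁.comp inc)) hker2.ge
  let sM : Fin h → M := fun i => (s i : M)
  have hsM : LinearIndependent k sM :=
    hs.map' (W ^ q : Submodule k M).subtype (Submodule.ker_subtype _)
  have hss : ∀ i, ∀ ε ∈ S₁, (V (ε : Ξ)).valuation (sM i) < 1 := by
    intro i ε hε
    have h1 : (L₁.comp inc) (s i) = 0 := LinearMap.mem_ker.1 (hsT i)
    have h2 := congrFun h1 ⟨ε, hε⟩
    exact (hlam ε (inc (s i))).1 h2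
  -- the multiplication map
  let Θ : (Fin h → Fin e → k) →ₗ[k] (W ^ (q + 1) : Submodule k M) :=
    LinearMap.codRestrict (W ^ (q + 1))
      (∑ i, (LinearMap.mulLeft k (sM i)).comp ((dotL k u).comp (LinearMap.proj i)))
      (fun ω => by
        rw [LinearMap.sum_apply]
        refine Submodule.sum_mem _ fun i _ => ?_
        rw [pow_succ]
        exact Submodule.mul_mem_mul (s i).2 ⟨ω i, rfl⟩)
  have hΘ : ∀ ω, ((Θ ω : (W ^ (q + 1) : Submodule k M)) : M) = ∑ i, sM i * dot (ω i) u := by
    intro ω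
    change (∑ i, (LinearMap.mulLeft k (sM i)).comp ((dotL k u).comp (LinearMap.proj i)) :
      (Fin h → Fin e → k) →ₗ[k] M) ω = _
    rw [LinearMap.sum_apply]
    rfl
  have hΘL : LinearMap.range Θ ≤ LinearMap.ker L₁ := by
    rintro _ ⟨ω, rfl⟩
    rw [LinearMap.mem_ker]
    funext ε
    have h1 : (V (ε.1 : Ξ)).valuation ((Θ ω : (W ^ (q + 1) : Submodule k M)) : M) < 1 := by
      rw [hΘ]
      refine Valuation.map_sum_lt _ one_ne_zero fun i _ => ?_
      rw [map_mul]
      exact lt_of_le_of_lt (mul_le_of_le_one_right' ((hVc _ ε.1.2).dot_le _))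
        (hss i ε.1 ε.2)
    exact (hlam ε.1 _).2 h1
  have h1 := LinearMap.finrank_range_add_finrank_ker Θ
  have h2 : finrank k (LinearMap.range Θ) ≤ finrank k (LinearMap.ker L₁) :=
    Submodule.finrank_mono hΘL
  have h3 : finrank k (Fin h → Fin e → k) = h * e := by
    rw [finrank_pi_fintype]
    simp
  obtain ⟨ω, hω, hωT⟩ := exists_indep_of_le (P := LinearMap.ker Θ) le_rfl
  have hl := hyp h sM hsM _ ω hω fun j => by
    rw [← hΘ, LinearMap.mem_ker.1 (hωT j)]
    rfl
  rw [h3] at h1
  obtain ⟨h', rfl⟩ : ∃ h', h = h' + 1 := ⟨h - 1, by omega⟩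
  have h4 : (h' + 1) * (h' + 1 - 1) + (h' + 1) = (h' + 1) * (h' + 1) := by
    rw [Nat.add_sub_cancel]
    ring
  omega

end Pool.Agent.Q147.GP
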