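import Pool.Agent.Q147.GP.MvRel
import Pool.Agent.Y787.CStrat

/-!
# Logarithms which are algebraic functions of given numbers
-/

set_option autoImplicit false
set_option linter.unusedSectionVars false

namespace Pool.Agent.Q147.GP

open Module
open Pool.Agent.Y787 (QC mem_QC HypC)

variable {Cc : Type} [Field Cc] [CharZero Cc] [IsAlgClosed Cc] {Lt : Submodule (QC Cc) Cc}
  [HypC Lt] {n : ℕ}

theorem isAlgClosed_QC (Cc : Type) [Field Cc] [CharZero Cc] [IsAlgClosed Cc] :
    IsAlgClosed (QC Cc) := (algebraicClosure.isAlgClosure ℚ Cc).isAlgClosed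

/-- a space of logarithms with relations of bounded degrees has small dimension -/
theorem log_bound (x : Fin n → Cc) (hx : AlgebraicIndependent (QC Cc) x) (a w : Fin n → ℕ)
    (U : Submodule (QC Cc) Cc) [FiniteDimensional (QC Cc) U] (hUL : U ≤ Lt) (h1 : (1 : Cc) ∈ U)
    (hrel : ∀ y ∈ U, RelX (k := QC Cc) x a w y) {h : ℕ} (hh : h ≤ finrank (QC Cc) U) (q : ℕ) :
    q * (h * (finrank (QC Cc) U - h)) + finrank (QC Cc) U ≤ ∏ i, ((q + 1) * a i + 1) := by
  have := isAlgClosed_QC Cc
  let bU := Module.finBasis (QC Cc) U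
  let u : Fin (finrank (QC Cc) U) → Cc := fun j => (bU j : Cc)
  have hu : LinearIndependent (QC Cc) u :=
    bU.linearIndependent.map' U.subtype (Submodule.ker_subtype U)
  have hrange : ∀ y ∈ U, ∃ t : Fin (finrank (QC Cc) U) → QC Cc, dot t u = y := by
    intro y hy
    refine ⟨fun j => bU.repr ⟨y, hy⟩ j, ?_⟩
    have h1 := congrArg Subtype.val (bU.sum_repr ⟨y, hy⟩)
    rw [Submodule.coe_sum] at h1
    exact h1
  have hmem : ∀ t : Fin (finrank (QC Cc) U) → QC Cc, dot t u ∈ U := fun t =>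
    Submodule.sum_mem _ fun j _ => U.smul_mem _ (bU j).2
  have hpos : 0 < finrank (QC Cc) U := by
    have : Nontrivial U := ⟨⟨⟨1, h1⟩, 0, fun h => one_ne_zero (congrArg Subtype.val h)⟩⟩
    exact finrank_pos
  refine dim_ineq_omega x hx a w u hu (hrange 1 h1) (fun t => hrel _ (hmem t))
    (fun h s hs l ω hω h0 => ?_) hpos hh q
  refine Pool.Agent.Y787.hyperplane (Lt := Lt) h l s
    (fun i j => dot (ω j i) u) hs (fun i j => hUL (hmem _)) h0 ?_
  have hinj : Function.Injective ((dotL (QC Cc) u).compLeft (Fin h)) := by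
    intro f g hfg
    funext i
    exact dotL_injective hu (congrFun hfg i)
  exact hω.map' _ (LinearMap.ker_eq_bot.2 hinj)

theorem exists_subspaces_log (x : Fin n → Cc) (hx : AlgebraicIndependent (QC Cc) x)
    (a w : Fin n → ℕ) (W : Submodule (QC Cc) Cc) [FiniteDimensional (QC Cc) W] :
    ∃ UU : Set (Submodule (QC Cc) Cc), UU.Finite ∧
      ∀ y, (y ∈ W ∧ RelX (k := QC Cc) x a w y) ↔ ∃ U ∈ UU, y ∈ U :=
  have := isAlgClosed_QC Cc
  exists_subspaces_omega x hx a w W

theorem RelX_add (x : Fin n → Cc) (hx : AlgebraicIndependent (QC Cc) x) {a w : Fin n → ℕ} {y : Cc}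
    (h : RelX (k := QC Cc) x a w y) (p : MvPolynomial (Fin n) (QC Cc))
    (hp : ∀ i, p.degreeOf i ≤ w i) :
    RelX (k := QC Cc) x a w (y + MvPolynomial.aeval x p) :=
  have := isAlgClosed_QC Cc
  RelX.add hx h p hp

/-- in one variable the bound becomes independent of the number of steps -/
theorem le_of_growth {X D e : ℕ} (h : ∀ q : ℕ, q * X + e ≤ (q + 1) * D + 1) (he : 0 < e) :
    X ≤ D := by
  by_contra hlt
  push Not at hlt
  have h1 := h (D + 1)
  have h2 : (D + 1) * (D + 1) ≤ (D + 1) * X := Nat.mul_le_mul_left _ hlt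
  have h3 : (D + 1) * (D + 1) = (D + 1) * D + (D + 1) := by ring
  have h4 : (D + 1 + 1) * D = (D + 1) * D + D := by ring
  omega

theorem log_bound_one (x : Cc) (hx : Transcendental (QC Cc) x) (D w : ℕ)
    (U : Submodule (QC Cc) Cc) [FiniteDimensional (QC Cc) U] (hUL : U ≤ Lt) (h1 : (1 : Cc) ∈ U)
    (hrel : ∀ y ∈ U, RelX (k := QC Cc) (fun _ : Fin 1 => x) (fun _ => D) (fun _ => w) y) {h : ℕ}
    (hh : h ≤ finrank (QC Cc) U) :
    h * (finrank (QC Cc) U - h) ≤ D := by
  have hx' : AlgebraicIndependent (QC Cc) (fun _ : Fin 1 => x) := by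
    rw [algebraicIndependent_unique_type_iff]
    exact hx
  have hpos : 0 < finrank (QC Cc) U := by
    have : Nontrivial U := ⟨⟨⟨1, h1⟩, 0, fun h => one_ne_zero (congrArg Subtype.val h)⟩⟩
    exact finrank_pos
  refine le_of_growth (fun q => ?_) hpos
  have := log_bound (Lt := Lt) (fun _ : Fin 1 => x) hx' (fun _ => D) (fun _ => w) U hUL h1 hrel hh q
  simpa using this

end Pool.Agent.Q147.GP
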