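import Pool.Agent.Q147.GP.Dim

/-!
# Polynomial rings: degrees and points
-/

set_option autoImplicit false
set_option linter.unusedSectionVars false

namespace Pool.Agent.Q147.GP

open Polynomial Module

section deg

variable {k : Type*} [Field k] {n : ℕ}

/-- the degree in one variable as a valuation -/
noncomputable def degVal (i : Fin n) :
    Valuation (MvPolynomial (Fin n) k) (WithZero (Multiplicative ℤ)) where
  toFun r := by
    classical
    exact if r = 0 then 0 else ((Multiplicative.ofAdd (r.degreeOf i : ℤ) : Multiplicative ℤ) :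
      WithZero (Multiplicative ℤ))
  map_zero' := by simp
  map_one' := by
    simp [MvPolynomial.degreeOf_one]
  map_mul' r s := by
    by_cases hr : r = 0
    · simp [hr]
    by_cases hs : s = 0
    · simp [hs]
    have h := MvPolynomial.degreeOf_mul_eq (n := i) hr hs
    simp only [hr, hs, mul_eq_zero, or_self, if_false, h, Nat.cast_add, ofAdd_add,
      WithZero.coe_mul]
  map_add_le_max' r s := by
    by_cases hrs : r + s = 0
    · simp [hrs]
    by_cases hr : r = 0
    · subst hr
      rw [if_neg hrs]
      refine le_max_of_le_right ?_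
      rw [zero_add] at hrs ⊢
      rw [if_neg hrs]
    by_cases hs : s = 0
    · subst hs
      rw [if_neg hrs]
      refine le_max_of_le_left ?_
      rw [add_zero] at hrs ⊢
      rw [if_neg hrs]
    simp only [hr, hs, hrs, if_false]
    have h := MvPolynomial.degreeOf_add_le i r s
    rcases le_max_iff.1 h with h | h
    · refine le_max_of_le_left ?_
      rw [WithZero.coe_le_coe, Multiplicative.ofAdd_le]
      exact_mod_cast h
    · refine le_max_of_le_right ?_
      rw [WithZero.coe_le_coe, Multiplicative.ofAdd_le]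
      exact_mod_cast h

theorem degVal_apply (i : Fin n) {r : MvPolynomial (Fin n) k} (hr : r ≠ 0) :
    degVal i r = ((Multiplicative.ofAdd (r.degreeOf i : ℤ) : Multiplicative ℤ) :
      WithZero (Multiplicative ℤ)) := by
  classical
  change (if r = 0 then 0 else _) = _
  rw [if_neg hr]

theorem degVal_eq_zero (i : Fin n) (r : MvPolynomial (Fin n) k) (h : degVal i r = 0) : r = 0 := by
  by_contra hr
  rw [degVal_apply i hr] at h
  exact WithZero.coe_ne_zero h

theorem degVal_le (i : Fin n) {r s : MvPolynomial (Fin n) k} (hr : r ≠ 0) (hs : s ≠ 0) :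
    degVal i r ≤ degVal i s ↔ r.degreeOf i ≤ s.degreeOf i := by
  rw [degVal_apply i hr, degVal_apply i hs, WithZero.coe_le_coe, Multiplicative.ofAdd_le]
  exact Nat.cast_le

theorem degreeOf_X_pow_self (i : Fin n) (m : ℕ) :
    ((MvPolynomial.X i : MvPolynomial (Fin n) k) ^ m).degreeOf i = m := by
  exact MvPolynomial.degreeOf_X_self_pow i m

/-- the place at infinity for the degree in the variable `i` -/
theorem exists_infPlace {M : Type*} [Field M] [Algebra (MvPolynomial (Fin n) k) M]
    (hinj : Function.Injective (algebraMap (MvPolynomial (Fin n) k) M)) (i : Fin n) :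
    ∃ I : InfPlace k (MvPolynomial (Fin n) k) M, I.d = fun r => r.degreeOf i := by
  obtain ⟨V, hV⟩ := place_of_valuation (algebraMap (MvPolynomial (Fin n) k) M) hinj (degVal i)
    (degVal_eq_zero i)
  have hX : (MvPolynomial.X i : MvPolynomial (Fin n) k) ≠ 0 := MvPolynomial.X_ne_zero i
  refine ⟨{ V := V
            d := fun r => r.degreeOf i
            τ := V.valuation (algebraMap (MvPolynomial (Fin n) k) M (MvPolynomial.X i))
            hτ := ?_
            hd := ?_
            hdk := ?_ }, rfl⟩
  · rw [← not_le]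
    intro h
    have h1 := (hV (MvPolynomial.X i) 1).1 (by
      rw [map_one (algebraMap (MvPolynomial (Fin n) k) M), map_one]
      exact h)
    rw [degVal_le i hX one_ne_zero, MvPolynomial.degreeOf_one] at h1
    have h2 := degreeOf_X_pow_self (k := k) i 1
    rw [pow_one] at h2
    omega
  · intro r hr
    rw [← map_pow, ← map_pow]
    have h1 := degreeOf_X_pow_self (k := k) i (r.degreeOf i)
    apply le_antisymm
    · rw [hV, degVal_le i hr (pow_ne_zero _ hX), h1]
    · rw [hV, degVal_le i (pow_ne_zero _ hX) hr, h1]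
  · intro c _
    exact MvPolynomial.degreeOf_C c i

end deg

section grid

variable {k : Type*} [Field k] [Infinite k] {n : ℕ}

theorem exists_eval_ne {r : MvPolynomial (Fin n) k} (hr : r ≠ 0) :
    ∃ c : Fin n → k, MvPolynomial.eval c r ≠ 0 := by
  by_contra h
  push Not at h
  exact hr (MvPolynomial.funext fun c => by rw [h c, map_zero])

/-- translates -/
noncomputable def sh (ξ : Fin n → k) : MvPolynomial (Fin n) k →ₐ[k] MvPolynomial (Fin n) k :=
  MvPolynomial.aeval fun i => MvPolynomial.X i + MvPolynomial.C (ξ i)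

theorem aeval_sh (c ξ : Fin n → k) (d : MvPolynomial (Fin n) k) :
    (MvPolynomial.aeval c : MvPolynomial (Fin n) k →ₐ[k] k) (sh ξ d) =
      MvPolynomial.aeval (fun i => c i + ξ i) d := by
  rw [sh, MvPolynomial.comp_aeval_apply]
  congr 2
  funext i
  rw [map_add, MvPolynomial.aeval_X, ← MvPolynomial.algebraMap_eq, AlgHom.commutes]
  rfl

theorem exists_aeval_ne {r : MvPolynomial (Fin n) k} (hr : r ≠ 0) :
    ∃ c : Fin n → k, (MvPolynomial.aeval c : MvPolynomial (Fin n) k →ₐ[k] k) r ≠ 0 := by
  obtain ⟨c, hc⟩ := exists_eval_ne hr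
  exact ⟨c, hc⟩

/-- grids which avoid a hypersurface and separate polynomials of bounded degrees -/
theorem exists_grid (m : Fin n → ℕ) {d : MvPolynomial (Fin n) k} (hd : d ≠ 0) :
    ∃ Ξ : Finset (MvPolynomial (Fin n) k →ₐ[k] k), Ξ.card ≤ ∏ i, (m i + 1) ∧
      (∀ ε ∈ Ξ, ε d ≠ 0) ∧
      ∀ r : MvPolynomial (Fin n) k, r ≠ 0 → (∀ i, r.degreeOf i ≤ m i) → ∃ ε ∈ Ξ, ε r ≠ 0 := by
  classical
  have hS : ∀ i, ∃ S : Finset k, S.card = m i + 1 := fun i =>
    Infinite.exists_subset_card_eq k (m i + 1)
  choose S hS using hS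
  have hshift : ∀ (ξ : Fin n → k), sh ξ d ≠ 0 := by
    intro ξ h0
    obtain ⟨η, hη⟩ := exists_aeval_ne hd
    apply hη
    have h1 := aeval_sh (fun i => η i - ξ i) ξ d
    rw [h0, map_zero] at h1
    simp only [sub_add_cancel] at h1
    exact h1.symm
  obtain ⟨c, hc⟩ := exists_aeval_ne (Finset.prod_ne_zero_iff.2
    fun ξ (_ : ξ ∈ Fintype.piFinset S) => hshift ξ)
  rw [map_prod, Finset.prod_ne_zero_iff] at hc
  refine ⟨(Fintype.piFinset S).image fun ξ => MvPolynomial.aeval fun i => c i + ξ i, ?_, ?_, ?_⟩
  · refine Finset.card_image_le.trans ?_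
    rw [Fintype.card_piFinset]
    exact (Finset.prod_congr rfl fun i _ => hS i).le
  · intro ε hε
    obtain ⟨ξ, hξ, rfl⟩ := Finset.mem_image.1 hε
    have h1 := hc ξ hξ
    rwa [aeval_sh] at h1
  · intro r hr hdeg
    by_contra hcon
    push Not at hcon
    apply hr
    refine MvPolynomial.eq_zero_of_eval_zero_at_prod_finset r
      (fun i => (S i).image fun s => c i + s) (fun i => ?_) fun η hη => ?_
    · rw [Finset.card_image_of_injective _ (add_right_injective (c i)), hS i]
      exact Nat.lt_succ_of_le (hdeg i)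
    · have h1 : ∀ i, ∃ s ∈ S i, c i + s = η i := fun i => Finset.mem_image.1 (hη i)
      choose ξ hξ hξη using h1
      have h2 := hcon _ (Finset.mem_image.2 ⟨ξ, Fintype.mem_piFinset.2 hξ, rfl⟩)
      have h3 : (fun i => c i + ξ i) = η := funext hξη
      rw [h3] at h2
      exact h2

end grid

end Pool.Agent.Q147.GP
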