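import Pool.Agent.Q147.GP.Omega

/-!
# Relations as polynomials in several variables
-/

set_option autoImplicit false
set_option linter.unusedSectionVars false

namespace Pool.Agent.Q147.GP

open Polynomial Module

variable {k Ω : Type*} [Field k] [Field Ω] [Algebra k Ω] {n : ℕ}

theorem eval_finSucc (x : Fin n → Ω) (y : Ω) (f : MvPolynomial (Fin (n + 1)) k) :
    (MvPolynomial.finSuccEquiv k n f).eval₂
      (MvPolynomial.aeval x : MvPolynomial (Fin n) k →ₐ[k] Ω).toRingHom y =
      MvPolynomial.aeval (Fin.cons y x : Fin (n + 1) → Ω) f := by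
  have h : (Polynomial.eval₂RingHom
      (MvPolynomial.aeval x : MvPolynomial (Fin n) k →ₐ[k] Ω).toRingHom y).comp
      (MvPolynomial.finSuccEquiv k n).toAlgHom.toRingHom =
      (MvPolynomial.aeval (Fin.cons y x : Fin (n + 1) → Ω) :
        MvPolynomial (Fin (n + 1)) k →ₐ[k] Ω).toRingHom := by
    refine MvPolynomial.ringHom_ext (fun c => ?_) (fun i => ?_)
    · change (MvPolynomial.finSuccEquiv k n (MvPolynomial.C c)).eval₂ _ y =
        MvPolynomial.aeval (Fin.cons y x : Fin (n + 1) → Ω) (MvPolynomial.C c)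
      rw [MvPolynomial.finSuccEquiv_apply]
      simp
    · change (MvPolynomial.finSuccEquiv k n (MvPolynomial.X i)).eval₂ _ y =
        MvPolynomial.aeval (Fin.cons y x : Fin (n + 1) → Ω) (MvPolynomial.X i)
      refine Fin.cases ?_ (fun i => ?_) i
      · rw [MvPolynomial.finSuccEquiv_X_zero, MvPolynomial.aeval_X, eval₂_X, Fin.cons_zero]
      · rw [MvPolynomial.finSuccEquiv_X_succ, MvPolynomial.aeval_X, eval₂_C, Fin.cons_succ]
        exact MvPolynomial.aeval_X x i
  exact congrArg (fun g : MvPolynomial (Fin (n + 1)) k →+* Ω => g f) h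

theorem relX_iff (x : Fin n → Ω) (a w : Fin n → ℕ) (y : Ω) :
    RelX (k := k) x a w y ↔ ∃ f : MvPolynomial (Fin (n + 1)) k, f ≠ 0 ∧
      (∀ m ∈ f.support, ∀ i : Fin n, m i.succ + w i * m 0 ≤ a i) ∧
      MvPolynomial.aeval (Fin.cons y x : Fin (n + 1) → Ω) f = 0 := by
  have key : ∀ f : MvPolynomial (Fin (n + 1)) k,
      (∀ m ∈ f.support, ∀ i : Fin n, m i.succ + w i * m 0 ≤ a i) ↔
      ∀ s, (MvPolynomial.finSuccEquiv k n f).coeff s ≠ 0 →
        ∀ i, ((MvPolynomial.finSuccEquiv k n f).coeff s).degreeOf i + w i * s ≤ a i := by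
    intro f
    constructor
    · intro h s hs i
      have h1 : ∀ m ∈ ((MvPolynomial.finSuccEquiv k n f).coeff s).support,
          m i + w i * s ≤ a i := by
        intro m hm
        rw [MvPolynomial.mem_support_iff, MvPolynomial.finSuccEquiv_coeff_coeff] at hm
        have := h _ (MvPolynomial.mem_support_iff.2 hm) i
        rwa [Finsupp.cons_succ, Finsupp.cons_zero] at this
      obtain ⟨m₀, hm₀⟩ := MvPolynomial.support_nonempty.2 hs
      have h2 := h1 m₀ hm₀
      have h3 : ((MvPolynomial.finSuccEquiv k n f).coeff s).degreeOf i ≤ a i - w i * s := by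
        rw [MvPolynomial.degreeOf_le_iff]
        intro m hm
        have := h1 m hm
        omega
      omega
    · intro h m hm i
      have h1 : (((MvPolynomial.finSuccEquiv k n f).coeff (m 0)).coeff m.tail) ≠ 0 := by
        rw [MvPolynomial.finSuccEquiv_coeff_coeff, Finsupp.cons_tail]
        exact MvPolynomial.mem_support_iff.1 hm
      have h2 : (MvPolynomial.finSuccEquiv k n f).coeff (m 0) ≠ 0 := by
        intro h0
        rw [h0, MvPolynomial.coeff_zero] at h1
        exact h1 rfl
      have h3 := h (m 0) h2 i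
      have h4 : m.tail i ≤ ((MvPolynomial.finSuccEquiv k n f).coeff (m 0)).degreeOf i :=
        MvPolynomial.degreeOf_le_iff.1 le_rfl _ (MvPolynomial.mem_support_iff.2 h1)
      rw [Finsupp.tail_apply] at h4
      omega
  constructor
  · rintro ⟨G, h0, h1, h2⟩
    obtain ⟨f, rfl⟩ := (MvPolynomial.finSuccEquiv k n).surjective G
    refine ⟨f, fun h => h0 (by rw [h, map_zero]), (key f).2 h2, ?_⟩
    rw [← eval_finSucc]
    exact h1
  · rintro ⟨f, h0, h1, h2⟩
    refine ⟨MvPolynomial.finSuccEquiv k n f, ?_, ?_, (key f).1 h1⟩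
    · exact (map_ne_zero_iff _ (MvPolynomial.finSuccEquiv k n).injective).2 h0
    · rw [eval_finSucc]
      exact h2

/-- relations of bounded total degree between two numbers -/
theorem relX_total_iff (x y : Ω) (D : ℕ) :
    RelX (k := k) (fun _ : Fin 1 => x) (fun _ => D) (fun _ => 1) y ↔
      ∃ f : MvPolynomial (Fin 2) k, f ≠ 0 ∧ f.totalDegree ≤ D ∧
        MvPolynomial.aeval ![y, x] f = 0 := by
  have hcons : (Fin.cons y (fun _ : Fin 1 => x) : Fin 2 → Ω) = ![y, x] := by
    funext i
    fin_cases i <;> rfl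
  rw [relX_iff, hcons]
  refine exists_congr fun f => and_congr_right fun _ => and_congr_left fun _ => ?_
  rw [MvPolynomial.totalDegree, Finset.sup_le_iff]
  refine forall_congr' fun m => imp_congr_right fun _ => ?_
  have h1 : (m.sum fun _ e => e) = m 0 + m 1 := by
    rw [Finsupp.sum_fintype _ _ (fun _ => rfl)]
    exact Fin.sum_univ_two _
  rw [h1]
  constructor
  · intro h
    have := h 0
    change m 1 + 1 * m 0 ≤ D at this
    omega
  · intro h i
    obtain rfl : i = 0 := Subsingleton.elim _ _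
    change m 1 + 1 * m 0 ≤ D
    omega

/-- relations of bounded degree in the variables `x` -/
theorem relX_degree_iff (x : Fin n → Ω) (a : Fin n → ℕ) (y : Ω) :
    RelX (k := k) x a (fun _ => 0) y ↔ ∃ f : MvPolynomial (Fin (n + 1)) k, f ≠ 0 ∧
      (∀ i : Fin n, f.degreeOf i.succ ≤ a i) ∧
      MvPolynomial.aeval (Fin.cons y x : Fin (n + 1) → Ω) f = 0 := by
  rw [relX_iff]
  refine exists_congr fun f => and_congr_right fun _ => and_congr_left fun _ => ?_
  simp only [zero_mul, add_zero, MvPolynomial.degreeOf_le_iff]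
  exact ⟨fun h i m hm => h m hm i, fun h m hm i => h i m hm⟩

end Pool.Agent.Q147.GP
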