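import Pool.Agent.Q147.GP.MvInst
import Pool.Agent.Q147.GP.Grow

/-!
# Algebraic functions of finitely many algebraically independent numbers
-/

set_option autoImplicit false
set_option linter.unusedSectionVars false

namespace Pool.Agent.Q147.GP

open Polynomial Module

section rel

variable {k R K M : Type*} [Field k] [CommRing R] [IsDomain R] [UniqueFactorizationMonoid R]
  [Field K] [Field M] [Algebra k R] [Algebra R K] [IsFractionRing R K] [Algebra R M]
  [Algebra K M] [IsScalarTower R K M] [IsGalois K M] [Algebra k M] [IsScalarTower k R M]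
  {ι : Type*}

/-- the Gauss norm of a translate -/
theorem gn_comp_le {Γ : Type*} [LinearOrderedCommGroupWithZero Γ] (v : Valuation M Γ) {ρ : Γ}
    (hρ : ρ ≠ 0) {z : M} (hz : v z ≤ ρ) (f : M[X]) : gn v ρ (f.comp (X - C z)) ≤ gn v ρ f := by
  refine gn_le fun s => ?_
  rw [comp, eval₂_eq_sum_range, finsetSum_coeff]
  have h1 : ∀ i ∈ Finset.range (f.natDegree + 1), v ((C (f.coeff i) * (X - C z) ^ i).coeff s) ≤
      gn v ρ f * (ρ ^ s)⁻¹ := by
    intro i _
    rw [← div_eq_mul_inv, le_div_iff₀ (zero_lt_iff.2 (pow_ne_zero _ hρ))]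
    refine (le_gn v ρ _ s).trans ?_
    have h2 : ∀ m : ℕ, gn v ρ ((X - C z) ^ m) = ρ ^ m := by
      intro m
      induction m with
      | zero => rw [pow_zero, pow_zero, ← C_1, gn_C, map_one]
      | succ m ih => rw [pow_succ, gn_mul v hρ, ih, gn_X_sub_C, max_eq_left hz, pow_succ]
    rw [gn_mul v hρ, gn_C, h2]
    exact le_gn v ρ f i
  have h2 := Valuation.map_sum_le v h1
  refine le_trans (mul_le_mul_left h2 _) ?_
  rw [mul_assoc, inv_mul_cancel₀ (pow_ne_zero _ hρ), mul_one]

/-- relations of bounded degree are stable under translations by elements of small degree -/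
theorem Rel.add {I : ι → InfPlace k R M} {a w : ι → ℕ} {y : M} (h : Rel I a w y) (p : R)
    (hp : ∀ i, (I i).V.valuation (algebraMap R M p) ≤ (I i).τ ^ w i) :
    Rel I a w (y + algebraMap R M p) := by
  obtain ⟨G, hG0, hG, hGd⟩ := h
  refine ⟨G.comp (X - C p), fun h0 => hG0 ?_, ?_, fun s hs i => ?_⟩
  · have h1 : (G.comp (X - C p)).comp (X + C p) = G := by
      rw [comp_assoc]
      simp
    rw [← h1, h0, zero_comp]
  · rw [eval₂_comp]
    simpa using hG
  · refine deg_of_gn (I i) ?_ s hs
    rw [Polynomial.map_comp]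
    simp only [Polynomial.map_sub, map_X, map_C]
    exact (gn_comp_le _ (pow_ne_zero _ (I i).pos.ne') (hp i) _).trans
      (gn_inf_le (I i) (fun s hs => hGd s hs i))

end rel

section omega

universe uk uo

variable {k : Type uk} {Ω : Type uo} [Field k] [IsAlgClosed k] [CharZero k] [Field Ω]
  [Algebra k Ω] [IsAlgClosed Ω] {n : ℕ}

/-- the number `y` is a root of a nonzero polynomial with coefficients in `k[x]` such that the
coefficient of `Y ^ s` has degree at most `a i - w i * s` in the `i`-th variable -/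
def RelX (x : Fin n → Ω) (a w : Fin n → ℕ) (y : Ω) : Prop :=
  ∃ G : (MvPolynomial (Fin n) k)[X], G ≠ 0 ∧
    G.eval₂ (MvPolynomial.aeval x : MvPolynomial (Fin n) k →ₐ[k] Ω).toRingHom y = 0 ∧
    ∀ s, G.coeff s ≠ 0 → ∀ i, (G.coeff s).degreeOf i + w i * s ≤ a i

/-- everything which is needed about the field of algebraic functions of `x` -/
structure Model (x : Fin n → Ω) (K M : Type*) [Field K] [Field M]
    [Algebra (MvPolynomial (Fin n) k) K] [IsFractionRing (MvPolynomial (Fin n) k) K]
    [Algebra (MvPolynomial (Fin n) k) M] [Algebra K M]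
    [IsScalarTower (MvPolynomial (Fin n) k) K M] [IsGalois K M] [Algebra k M]
    [IsScalarTower k (MvPolynomial (Fin n) k) M] where
  /-- the embedding -/
  j : M →ₐ[k] Ω
  hj : ∀ r : MvPolynomial (Fin n) k, j (algebraMap _ M r) = MvPolynomial.aeval x r
  surj : ∀ y : Ω, (∃ G : (MvPolynomial (Fin n) k)[X], G ≠ 0 ∧
    G.eval₂ (MvPolynomial.aeval x : MvPolynomial (Fin n) k →ₐ[k] Ω).toRingHom y = 0) →
    ∃ z : M, j z = y

/-- to prove something about `x` one may use a model -/
theorem with_model (x : Fin n → Ω) (hx : AlgebraicIndependent k x) {P : Prop}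
    (h : ∀ (K : Type uk) (M : Type uo) [Field K] [Field M]
      [Algebra (MvPolynomial (Fin n) k) K] [IsFractionRing (MvPolynomial (Fin n) k) K]
      [Algebra (MvPolynomial (Fin n) k) M] [Algebra K M]
      [IsScalarTower (MvPolynomial (Fin n) k) K M] [IsGalois K M] [Algebra k M]
      [IsScalarTower k (MvPolynomial (Fin n) k) M], Model (k := k) x K M → P) : P := by
  let : Algebra (MvPolynomial (Fin n) k) Ω :=
    (MvPolynomial.aeval x : MvPolynomial (Fin n) k →ₐ[k] Ω).toRingHom.toAlgebra
  have hinj : Function.Injective (algebraMap (MvPolynomial (Fin n) k) Ω) := hx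
  have : FaithfulSMul (MvPolynomial (Fin n) k) Ω := (faithfulSMul_iff_algebraMap_injective _ _).2 hinj
  let : Algebra (FractionRing (MvPolynomial (Fin n) k)) Ω := FractionRing.liftAlgebra _ Ω
  have : IsScalarTower (MvPolynomial (Fin n) k) (FractionRing (MvPolynomial (Fin n) k)) Ω :=
    FractionRing.isScalarTower_liftAlgebra _ Ω
  have : IsScalarTower k (MvPolynomial (Fin n) k) Ω := IsScalarTower.of_algebraMap_eq fun c =>
    ((MvPolynomial.aeval x : MvPolynomial (Fin n) k →ₐ[k] Ω).commutes c).symm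
  have : IsScalarTower k (FractionRing (MvPolynomial (Fin n) k)) Ω :=
    IsScalarTower.of_algebraMap_eq fun c => by
      rw [IsScalarTower.algebraMap_apply k (MvPolynomial (Fin n) k) Ω,
        IsScalarTower.algebraMap_apply k (MvPolynomial (Fin n) k)
          (FractionRing (MvPolynomial (Fin n) k))]
      exact IsScalarTower.algebraMap_apply (MvPolynomial (Fin n) k)
        (FractionRing (MvPolynomial (Fin n) k)) Ω _
  have : CharZero (FractionRing (MvPolynomial (Fin n) k)) :=
    charZero_of_injective_algebraMap (IsFractionRing.injective (MvPolynomial (Fin n) k) _)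
  let K := FractionRing (MvPolynomial (Fin n) k)
  let M := algebraicClosure K Ω
  have : IsScalarTower k (MvPolynomial (Fin n) k) M := IsScalarTower.of_algebraMap_eq fun c =>
    Subtype.ext (IsScalarTower.algebraMap_apply k (MvPolynomial (Fin n) k) Ω c)
  have : IsGalois K M := IsAlgClosure.isGalois K M
  refine h K M ⟨{ M.val.toRingHom with commutes' := fun c => rfl }, fun r => rfl, fun y hy => ?_⟩
  obtain ⟨G, hG0, hG⟩ := hy
  have h1 : IsAlgebraic (MvPolynomial (Fin n) k) y := ⟨G, hG0, hG⟩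
  have h2 : IsAlgebraic K y := (IsFractionRing.isAlgebraic_iff (MvPolynomial (Fin n) k) K Ω).1 h1
  exact ⟨⟨y, mem_algebraicClosure_iff.2 h2⟩, rfl⟩

section use

variable {x : Fin n → Ω} {K : Type uk} {M : Type uo} [Field K] [Field M]
  [Algebra (MvPolynomial (Fin n) k) K] [IsFractionRing (MvPolynomial (Fin n) k) K]
  [Algebra (MvPolynomial (Fin n) k) M] [Algebra K M]
  [IsScalarTower (MvPolynomial (Fin n) k) K M] [IsGalois K M] [Algebra k M]
  [IsScalarTower k (MvPolynomial (Fin n) k) M]

theorem Model.eval (m : Model (k := k) x K M) (G : (MvPolynomial (Fin n) k)[X]) (z : M) :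
    G.eval₂ (MvPolynomial.aeval x : MvPolynomial (Fin n) k →ₐ[k] Ω).toRingHom (m.j z) =
      m.j (G.eval₂ (algebraMap _ M) z) := by
  have h1 : m.j (G.eval₂ (algebraMap _ M) z) =
      G.eval₂ ((m.j : M →+* Ω).comp (algebraMap _ M)) (m.j z) :=
    Polynomial.hom_eval₂ G _ (m.j : M →+* Ω) z
  rw [h1]
  congr 1
  exact RingHom.ext fun r => (m.hj r).symm

theorem Model.rel_iff (m : Model (k := k) x K M) {I : Fin n → InfPlace k (MvPolynomial (Fin n) k) M}
    (hI : ∀ i, (I i).d = fun r => r.degreeOf i) (a w : Fin n → ℕ) (z : M) :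
    Rel I a w z ↔ RelX (k := k) x a w (m.j z) := by
  constructor
  · rintro ⟨G, h0, h1, h2⟩
    refine ⟨G, h0, by rw [m.eval, h1, map_zero], fun s hs i => ?_⟩
    have := h2 s hs i
    rwa [hI i] at this
  · rintro ⟨G, h0, h1, h2⟩
    refine ⟨G, h0, ?_, fun s hs i => ?_⟩
    · rw [m.eval] at h1
      exact (map_eq_zero_iff m.j m.j.injective).1 h1
    · rw [hI i]
      exact h2 s hs i

theorem Model.lift (m : Model (k := k) x K M) {a w : Fin n → ℕ} {y : Ω}
    (h : RelX (k := k) x a w y) : ∃ z : M, m.j z = y := by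
  obtain ⟨G, h0, h1, -⟩ := h
  exact m.surj y ⟨G, h0, h1⟩

theorem map_dot' (j : M →ₐ[k] Ω) {e : ℕ} (t : Fin e → k) (u : Fin e → M) :
    j (dot t u) = dot t fun i => j (u i) := by
  rw [dot, dot, map_sum]
  exact Finset.sum_congr rfl fun i _ => by rw [map_smul]

end use

theorem exists_infPlaces {K M : Type*} [Field K] [Field M]
    [Algebra (MvPolynomial (Fin n) k) K] [IsFractionRing (MvPolynomial (Fin n) k) K]
    [Algebra (MvPolynomial (Fin n) k) M] [Algebra K M]
    [IsScalarTower (MvPolynomial (Fin n) k) K M] :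
    ∃ I : Fin n → InfPlace k (MvPolynomial (Fin n) k) M, ∀ i, (I i).d = fun r => r.degreeOf i := by
  have h := fun i => exists_infPlace (k := k) (M := M) (inj_RM (MvPolynomial (Fin n) k) K M) i
  choose I hI using h
  exact ⟨I, hI⟩

/-- **Structure theorem.** The elements of a space of finite dimension which satisfy relations of
bounded degree with `x` form a finite union of subspaces. -/
theorem exists_subspaces_omega (x : Fin n → Ω) (hx : AlgebraicIndependent k x)
    (a w : Fin n → ℕ) (W : Submodule k Ω) [FiniteDimensional k W] :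
    ∃ UU : Set (Submodule k Ω), UU.Finite ∧
      ∀ y, (y ∈ W ∧ RelX (k := k) x a w y) ↔ ∃ U ∈ UU, y ∈ U := by
  refine with_model x hx fun K M _ _ _ _ _ _ _ _ _ _ m => ?_
  obtain ⟨I, hI⟩ := exists_infPlaces (k := k) (n := n) (K := K) (M := M)
  have hinj : Function.Injective m.j.toLinearMap := m.j.injective
  have : FiniteDimensional k (W.comap m.j.toLinearMap) :=
    FiniteDimensional.of_injective (V₂ := W)
      ((m.j.toLinearMap.comp (W.comap m.j.toLinearMap).subtype).codRestrict W fun z => z.2)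
      fun z z' h => Subtype.ext (hinj (congrArg Subtype.val h))
  obtain ⟨UU, hf, hUU⟩ := exists_subspaces K I a w (W.comap m.j.toLinearMap)
  refine ⟨(fun U => U.map m.j.toLinearMap) '' UU, hf.image _, fun y => ⟨?_, ?_⟩⟩
  · rintro ⟨hy, hr⟩
    obtain ⟨z, rfl⟩ := m.lift hr
    obtain ⟨U, hU, hz⟩ := (hUU z).1 ⟨hy, (m.rel_iff hI a w z).2 hr⟩
    exact ⟨_, ⟨U, hU, rfl⟩, ⟨z, hz, rfl⟩⟩
  · rintro ⟨_, ⟨U, hU, rfl⟩, ⟨z, hz, rfl⟩⟩
    obtain ⟨h1, h2⟩ := (hUU z).2 ⟨U, hU, hz⟩
    exact ⟨h1, (m.rel_iff hI a w z).1 h2⟩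

theorem RelX.add {x : Fin n → Ω} (hx : AlgebraicIndependent k x) {a w : Fin n → ℕ} {y : Ω}
    (h : RelX (k := k) x a w y) (p : MvPolynomial (Fin n) k) (hp : ∀ i, p.degreeOf i ≤ w i) :
    RelX (k := k) x a w (y + MvPolynomial.aeval x p) := by
  refine with_model x hx fun K M _ _ _ _ _ _ _ _ _ _ m => ?_
  obtain ⟨I, hI⟩ := exists_infPlaces (k := k) (n := n) (K := K) (M := M)
  obtain ⟨z, rfl⟩ := m.lift h
  have h1 := ((m.rel_iff hI a w z).2 h).add p fun i => by
    by_cases hp0 : p = 0
    · rw [hp0, map_zero, map_zero]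
      exact zero_le
    · rw [(I i).hd p hp0, hI i]
      exact pow_le_pow_right₀ (I i).hτ.le (hp i)
  have h2 := (m.rel_iff hI a w _).1 h1
  rwa [map_add, m.hj] at h2

/-- **Dimension inequality.** -/
theorem dim_ineq_omega (x : Fin n → Ω) (hx : AlgebraicIndependent k x) (a w : Fin n → ℕ) {e : ℕ}
    (u : Fin e → Ω) (hu : LinearIndependent k u) (h1u : ∃ t : Fin e → k, dot t u = 1)
    (hrel : ∀ t : Fin e → k, RelX (k := k) x a w (dot t u))
    (hyp : ∀ (h : ℕ) (s : Fin h → Ω), LinearIndependent k s →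
      ∀ (l : ℕ) (ω : Fin l → Fin h → Fin e → k), LinearIndependent k ω →
        (∀ j, ∑ i, s i * dot (ω j i) u = 0) → l ≤ h * (h - 1))
    (he : 0 < e) {h : ℕ} (hhe : h ≤ e) (q : ℕ) :
    q * (h * (e - h)) + e ≤ ∏ i, ((q + 1) * a i + 1) := by
  refine with_model x hx fun K M _ _ _ _ _ _ _ _ _ _ m => ?_
  obtain ⟨I, hI⟩ := exists_infPlaces (k := k) (n := n) (K := K) (M := M)
  have hsingle : ∀ j, dot (Pi.single j (1 : k)) u = u j := fun j => dot_single u j
  have hlift : ∀ j, ∃ z : M, m.j z = u j := fun j => by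
    have := hrel (Pi.single j 1)
    rw [hsingle] at this
    exact m.lift this
  choose z hz using hlift
  have hju : (fun i => m.j (z i)) = u := funext hz
  have hdot : ∀ t : Fin e → k, m.j (dot t z) = dot t u := fun t => by rw [map_dot', hju]
  have hzi : LinearIndependent k z := by
    apply LinearIndependent.of_comp m.j.toLinearMap
    have : (m.j.toLinearMap : M → Ω) ∘ z = u := hju
    rw [this]
    exact hu
  have h1z : (1 : M) ∈ LinearMap.range (dotL k z) := by
    obtain ⟨t, ht⟩ := h1u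
    refine ⟨t, m.j.injective ?_⟩
    change m.j (dot t z) = m.j 1
    rw [hdot, ht, map_one]
  obtain ⟨b, hb⟩ := exists_datum K he z I a w fun t =>
    (m.rel_iff hI a w _).2 (by rw [hdot]; exact hrel t)
  obtain ⟨d, hd0, hd⟩ := exists_res (k := k) (R := MvPolynomial (Fin n) k) K z
  have hyp' : ∀ (h : ℕ) (s : Fin h → M), LinearIndependent k s →
      ∀ (l : ℕ) (ω : Fin l → Fin h → Fin e → k), LinearIndependent k ω →
        (∀ j, ∑ i, s i * dot (ω j i) z = 0) → l ≤ h * (h - 1) := by
    intro h s hs l ω hω h0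
    refine hyp h (fun i => m.j (s i)) ?_ l ω hω fun j => ?_
    · exact hs.map' m.j.toLinearMap (LinearMap.ker_eq_bot.2 m.j.injective)
    · have h3 := congrArg m.j (h0 j)
      rw [map_sum, map_zero] at h3
      rw [← h3]
      refine Finset.sum_congr rfl fun i _ => ?_
      rw [map_mul, hdot]
  set W : Submodule k M := LinearMap.range (dotL k z) with hW
  have hWe : finrank k W = e := by
    rw [hW, LinearMap.finrank_range_of_inj (dotL_injective hzi), finrank_fin_fun]
  have hWfg : W.FG := by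
    rw [← Submodule.fg_top]
    exact Module.Finite.fg_top
  have hfd : ∀ q, FiniteDimensional k (W ^ q : Submodule k M) := fun q =>
    Module.Finite.iff_fg.2 (hWfg.pow q)
  have hmono : ∀ q, finrank k (W ^ q : Submodule k M) ≤
      finrank k (W ^ (q + 1) : Submodule k M) := by
    intro q
    have := hfd (q + 1)
    refine Submodule.finrank_mono fun y hy => ?_
    rw [pow_succ, ← mul_one y]
    exact Submodule.mul_mem_mul hy h1z
  have hge : ∀ q, e ≤ finrank k (W ^ (q + 1) : Submodule k M) := by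
    intro q
    induction q with
    | zero => rw [zero_add, pow_one, hWe]
    | succ q ih => exact ih.trans (hmono _)
  have hgrid : ∀ q : ℕ, ∃ Ξ : Finset (MvPolynomial (Fin n) k →ₐ[k] k),
      Ξ.card ≤ ∏ i, (q * a i + 1) ∧
      (∀ ε ∈ Ξ, ∃ V c, Res K k z ε V c) ∧
      ∀ r : MvPolynomial (Fin n) k, r ≠ 0 → (∀ i, (I i).d r ≤ q * a i) → ∃ ε ∈ Ξ, ε r ≠ 0 := by
    intro q
    obtain ⟨Ξ, hΞc, hΞd, hΞ⟩ := exists_grid (fun i => q * a i) hd0
    refine ⟨Ξ, hΞc, fun ε hε => hd ε (hΞd ε hε), fun r hr h => hΞ r hr fun i => ?_⟩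
    have := h i
    rwa [hI i] at this
  have hstep : ∀ q, q * (h * (e - h)) + e ≤ finrank k (W ^ (q + 1) : Submodule k M) := by
    intro q
    induction q with
    | zero =>
      rw [zero_mul, zero_add, zero_add, pow_one, hWe]
    | succ q ih =>
      rcases Nat.eq_zero_or_pos h with rfl | hpos
      · rw [zero_mul, mul_zero, zero_add]
        exact hge _
      · obtain ⟨Ξ, hΞc, hΞr, hΞ⟩ := hgrid (q + 1 + 1)
        have h1 := growth_step hzi h1z hb hΞ hΞr hyp' hpos (hhe.trans (hge q))
        have h2 : h * (e - h) + h * h = h * e := by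
          rw [← mul_add, Nat.sub_add_cancel hhe]
        rw [← hW] at h1
        have h3 : (q + 1) * (h * (e - h)) = q * (h * (e - h)) + h * (e - h) := by ring
        omega
  obtain ⟨Ξ, hΞc, hΞr, hΞ⟩ := hgrid (q + 1)
  exact ((hstep q).trans (finrank_pow_le hb hΞ hΞr)).trans hΞc

end omega

end Pool.Agent.Q147.GP
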