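import Mathlib

/-!
# Orbits of tuples under a Galois group
-/

set_option autoImplicit false
set_option linter.unusedSectionVars false

namespace Pool.Agent.Q147.GP

open Polynomial

variable (K : Type*) {M : Type*} [Field K] [Field M] [Algebra K M] [IsGalois K M] {e : ℕ}

theorem orbit_finite (u : Fin e → M) :
    Set.Finite {v : Fin e → M | ∃ g : M ≃ₐ[K] M, v = fun j => g (u j)} := by
  classical
  have hfin : ∀ j : Fin e, Set.Finite {z : M | aeval z (minpoly K (u j)) = 0} := by
    intro j
    have h0 : minpoly K (u j) ≠ 0 := minpoly.ne_zero (Algebra.IsIntegral.isIntegral (u j))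
    refine (((minpoly K (u j)).map (algebraMap K M)).roots.toFinset.finite_toSet).subset ?_
    intro z hz
    rw [Finset.mem_coe, Multiset.mem_toFinset, mem_roots']
    refine ⟨(Polynomial.map_ne_zero_iff (algebraMap K M).injective).2 h0, ?_⟩
    rw [IsRoot.def, eval_map_algebraMap]
    exact hz
  refine (Set.Finite.pi' hfin).subset ?_
  rintro v ⟨g, rfl⟩ j
  change aeval (g (u j)) (minpoly K (u j)) = 0
  rw [aeval_algEquiv]
  simp

/-- the orbit of a tuple -/
noncomputable def orb (u : Fin e → M) : Finset (Fin e → M) := (orbit_finite K u).toFinset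

variable {K}

theorem mem_orb {u v : Fin e → M} : v ∈ orb K u ↔ ∃ g : M ≃ₐ[K] M, v = fun j => g (u j) := by
  rw [orb, Set.Finite.mem_toFinset]
  rfl

theorem self_mem_orb (u : Fin e → M) : u ∈ orb K u := mem_orb.2 ⟨AlgEquiv.refl, rfl⟩

theorem map_mem_orb {u v : Fin e → M} (g : M ≃ₐ[K] M) (hv : v ∈ orb K u) :
    (fun j => g (v j)) ∈ orb K u := by
  obtain ⟨h, rfl⟩ := mem_orb.1 hv
  exact mem_orb.2 ⟨h.trans g, rfl⟩

theorem prod_orb_comp {α : Type*} [CommMonoid α] (u : Fin e → M) (g : M ≃ₐ[K] M)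
    (F : (Fin e → M) → α) :
    ∏ v ∈ orb K u, F (fun j => g (v j)) = ∏ v ∈ orb K u, F v := by
  refine Finset.prod_nbij' (fun v j => g (v j)) (fun v j => g.symm (v j))
    (fun v hv => map_mem_orb g hv) (fun v hv => map_mem_orb g.symm hv) (fun v hv => ?_)
    (fun v hv => ?_) (fun v hv => rfl)
  · funext j
    exact g.symm_apply_apply _
  · funext j
    exact g.apply_symm_apply _

theorem prod_orb_mem (u : Fin e → M) (F : (Fin e → M) → M)
    (hF : ∀ (g : M ≃ₐ[K] M) (v : Fin e → M), g (F v) = F fun j => g (v j)) :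
    ∏ v ∈ orb K u, F v ∈ Set.range (algebraMap K M) := by
  rw [InfiniteGalois.mem_range_algebraMap_iff_fixed]
  intro g
  rw [map_prod, ← prod_orb_comp u g F]
  exact Finset.prod_congr rfl fun v _ => hF g v

variable {k : Type*} [Field k] [Algebra k M]

/-- the linear combination `t · v` -/
noncomputable def dot (t : Fin e → k) (v : Fin e → M) : M := ∑ j, t j • v j

/-- the polynomial with roots `t · v` -/
noncomputable def pol (K : Type*) [Field K] [Algebra K M] [IsGalois K M] (u : Fin e → M)
    (t : Fin e → k) : M[X] := ∏ v ∈ orb K u, (X - C (dot t v))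

theorem pol_monic (u : Fin e → M) (t : Fin e → k) : (pol K u t).Monic :=
  monic_prod_of_monic _ _ fun _ _ => monic_X_sub_C _

theorem eval_pol (u : Fin e → M) (t : Fin e → k) : (pol K u t).eval (dot t u) = 0 := by
  rw [pol, eval_prod]
  refine Finset.prod_eq_zero (self_mem_orb u) ?_
  simp

/-- `k` is fixed by the group -/
def Fixes (K k M : Type*) [Field K] [Field M] [Algebra K M] [Field k] [Algebra k M] : Prop :=
  ∀ (g : M ≃ₐ[K] M) (c : k), g (algebraMap k M c) = algebraMap k M c

omit [IsGalois K M] in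
theorem map_dot (hk : Fixes K k M) (g : M ≃ₐ[K] M) (t : Fin e → k) (v : Fin e → M) :
    g (dot t v) = dot t fun j => g (v j) := by
  rw [dot, dot, map_sum]
  refine Finset.sum_congr rfl fun j _ => ?_
  rw [Algebra.smul_def, Algebra.smul_def, map_mul, hk]

theorem map_pol (hk : Fixes K k M) (g : M ≃ₐ[K] M) (u : Fin e → M) (t : Fin e → k) :
    (pol K u t).map (g : M →+* M) = pol K u t := by
  rw [pol, Polynomial.map_prod, ← prod_orb_comp u g (fun v => X - C (dot t v))]
  refine Finset.prod_congr rfl fun v _ => ?_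
  rw [Polynomial.map_sub, map_X, map_C]
  congr 2
  exact map_dot hk g t v

theorem coeff_mem_of_map (f : M[X]) (hf : ∀ g : M ≃ₐ[K] M, f.map (g : M →+* M) = f) (s : ℕ) :
    f.coeff s ∈ Set.range (algebraMap K M) := by
  rw [InfiniteGalois.mem_range_algebraMap_iff_fixed]
  intro g
  conv_rhs => rw [← hf g]
  rw [coeff_map]
  rfl

theorem pol_coeff_mem (hk : Fixes K k M) (u : Fin e → M) (t : Fin e → k) (s : ℕ) :
    (pol K u t).coeff s ∈ Set.range (algebraMap K M) :=
  coeff_mem_of_map _ (fun g => map_pol hk g u t) s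

/-- a polynomial over `K` with root `t · u` is divisible by `pol` if `t` separates the orbit -/
theorem pol_dvd (hk : Fixes K k M) (u : Fin e → M) (t : Fin e → k)
    (ht : ∀ v ∈ orb K u, ∀ w ∈ orb K u, dot t v = dot t w → v = w) (f : M[X])
    (hf : ∀ g : M ≃ₐ[K] M, f.map (g : M →+* M) = f) (h0 : f.eval (dot t u) = 0) :
    pol K u t ∣ f := by
  rw [pol]
  refine Finset.prod_dvd_of_coprime ?_ ?_
  · intro v hv w hw hvw
    refine isCoprime_X_sub_C_of_isUnit_sub ?_
    exact (sub_ne_zero.2 fun h => hvw (ht v hv w hw h)).isUnit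
  · intro v hv
    obtain ⟨g, rfl⟩ := mem_orb.1 hv
    rw [dvd_iff_isRoot, IsRoot.def, ← map_dot hk g t u, ← hf g, eval_map]
    have h1 : eval₂ (g : M →+* M) ((g : M →+* M) (dot t u)) f = 0 := by
      rw [eval₂_hom, h0, map_zero]
    exact h1

end Pool.Agent.Q147.GP
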