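import Pool.Agent.Q147.GP.Total

/-!
# The dimension inequality without a hypothesis on the growth
-/

set_option autoImplicit false
set_option linter.unusedSectionVars false

namespace Pool.Agent.Q147.GP

open Polynomial Module

universe uk uo

variable {k : Type uk} {Ω : Type uo} [Field k] [IsAlgClosed k] [CharZero k] [Field Ω]
  [Algebra k Ω] [IsAlgClosed Ω] {n : ℕ}

/-- the dimension of a space of numbers which satisfy relations of total degree at most `D` -/
theorem dim_plain_tot (hn : 0 < n) (x : Fin n → Ω) (hx : AlgebraicIndependent k x) (D : ℕ) {e : ℕ}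
    (u : Fin e → Ω) (hu : LinearIndependent k u)
    (hrel : ∀ t : Fin e → k, RelT (k := k) x D (dot t u)) (he : 0 < e) :
    e ≤ (D + n).choose n := by
  refine with_model x hx fun K M _ _ _ _ _ _ _ _ _ _ m => ?_
  obtain ⟨I, hI⟩ := exists_totPlace (k := k) (M := M) (inj_RM (MvPolynomial (Fin n) k) K M)
    ⟨0, hn⟩
  have hsingle : ∀ j, dot (Pi.single j (1 : k)) u = u j := fun j => dot_single u j
  have hlift : ∀ j, ∃ z : M, m.j z = u j := fun j => by
    have := hrel (Pi.single j 1)
    rw [hsingle] at this
    exact m.liftT this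
  choose z hz using hlift
  have hju : (fun i => m.j (z i)) = u := funext hz
  have hdot : ∀ t : Fin e → k, m.j (dot t z) = dot t u := fun t => by rw [map_dot', hju]
  have hzi : LinearIndependent k z := by
    apply LinearIndependent.of_comp m.j.toLinearMap
    have : (m.j.toLinearMap : M → Ω) ∘ z = u := hju
    rw [this]
    exact hu
  obtain ⟨b, hb⟩ := exists_datum K he z (fun _ : Unit => I) (fun _ => D) (fun _ => 1) fun t =>
    (m.relT_iff hI D _).2 (by rw [hdot]; exact hrel t)
  obtain ⟨d, hd0, hd⟩ := exists_res (k := k) (R := MvPolynomial (Fin n) k) K z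
  obtain ⟨Ξ, hΞc, hΞd, hΞ⟩ := exists_tot_points (k := k) (1 * D) hd0
  have h1 := finrank_pow_le (q := 1) hb (Ξ := Ξ) (fun r hr h => hΞ r hr (by
    have := h ()
    rwa [hI] at this)) (fun ε hε => hd ε (hΞd ε hε))
  rw [pow_one, LinearMap.finrank_range_of_inj (dotL_injective hzi), finrank_fin_fun] at h1
  rw [one_mul] at hΞc
  exact h1.trans hΞc

/-- the dimension of a space of numbers which satisfy relations of degree at most `a i` in `x i` -/
theorem dim_plain_omega (x : Fin n → Ω) (hx : AlgebraicIndependent k x) (a w : Fin n → ℕ) {e : ℕ}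
    (u : Fin e → Ω) (hu : LinearIndependent k u)
    (hrel : ∀ t : Fin e → k, RelX (k := k) x a w (dot t u)) (he : 0 < e) :
    e ≤ ∏ i, (a i + 1) := by
  refine with_model x hx fun K M _ _ _ _ _ _ _ _ _ _ m => ?_
  obtain ⟨I, hI⟩ := exists_infPlaces (k := k) (n := n) (K := K) (M := M)
  have hsingle : ∀ j, dot (Pi.single j (1 : k)) u = u j := fun j => dot_single u j
  have hlift : ∀ j, ∃ z : M, m.j z = u j := fun j => by
    have := hrel (Pi.single j 1)
    rw [hsingle] at this
    exact m.lift this
  choose z hz using hlift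
  have hju : (fun i => m.j (z i)) = u := funext hz
  have hdot : ∀ t : Fin e → k, m.j (dot t z) = dot t u := fun t => by rw [map_dot', hju]
  have hzi : LinearIndependent k z := by
    apply LinearIndependent.of_comp m.j.toLinearMap
    have : (m.j.toLinearMap : M → Ω) ∘ z = u := hju
    rw [this]
    exact hu
  obtain ⟨b, hb⟩ := exists_datum K he z I a w fun t =>
    (m.rel_iff hI a w _).2 (by rw [hdot]; exact hrel t)
  obtain ⟨d, hd0, hd⟩ := exists_res (k := k) (R := MvPolynomial (Fin n) k) K z
  obtain ⟨Ξ, hΞc, hΞd, hΞ⟩ := exists_grid (fun i => 1 * a i) hd0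
  have h1 := finrank_pow_le (q := 1) hb (Ξ := Ξ) (fun r hr h => hΞ r hr fun i => (by
    have := h i
    rwa [hI i] at this)) (fun ε hε => hd ε (hΞd ε hε))
  rw [pow_one, LinearMap.finrank_range_of_inj (dotL_injective hzi), finrank_fin_fun] at h1
  simp only [one_mul] at hΞc
  exact h1.trans hΞc

end Pool.Agent.Q147.GP
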