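import Pool.Agent.Q147.GP.Plain

/-!
# The structure theorem with the dimension bound, without a hypothesis on the growth
-/

set_option autoImplicit false
set_option linter.unusedSectionVars false

namespace Pool.Agent.Q147.GP

open Polynomial Module

universe uk uo

variable {k : Type uk} {Ω : Type uo} [Field k] [IsAlgClosed k] [CharZero k] [Field Ω]
  [Algebra k Ω] [IsAlgClosed Ω] {n : ℕ}

theorem exists_affine' (x : Fin n → Ω) {z : Ω}
    (hz : z ∈ Submodule.span k ({1} ∪ Set.range x)) :
    ∃ p : MvPolynomial (Fin n) k, p.totalDegree ≤ 1 ∧ z = MvPolynomial.aeval x p := by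
  refine Submodule.span_induction (p := fun z _ => ∃ p : MvPolynomial (Fin n) k,
    p.totalDegree ≤ 1 ∧ z = MvPolynomial.aeval x p) ?_ ?_ ?_ ?_ hz
  · rintro z (rfl | ⟨i, rfl⟩)
    · exact ⟨1, by rw [MvPolynomial.totalDegree_one]; exact Nat.zero_le _, (map_one _).symm⟩
    · exact ⟨MvPolynomial.X i, (MvPolynomial.totalDegree_X i).le, (MvPolynomial.aeval_X x i).symm⟩
  · exact ⟨0, by rw [MvPolynomial.totalDegree_zero]; exact Nat.zero_le _, (map_zero _).symm⟩
  · rintro _ _ _ _ ⟨p, hp, rfl⟩ ⟨p', hp', rfl⟩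
    exact ⟨p + p', (MvPolynomial.totalDegree_add p p').trans (max_le hp hp'), (map_add _ _ _).symm⟩
  · rintro c _ _ ⟨p, hp, rfl⟩
    exact ⟨c • p, (MvPolynomial.totalDegree_smul_le c p).trans hp, (map_smul _ _ _).symm⟩

/-- a space of numbers which satisfy relations of bounded total degree has small dimension -/
theorem finrank_le_tot (hn : 0 < n) (x : Fin n → Ω) (hx : AlgebraicIndependent k x) (D : ℕ)
    (U : Submodule k Ω) [FiniteDimensional k U] (hrel : ∀ y ∈ U, RelT (k := k) x D y) :
    finrank k U ≤ (D + n).choose n := by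
  rcases Nat.eq_zero_or_pos (finrank k U) with h0 | h0
  · rw [h0]
    exact Nat.zero_le _
  let bU := Module.finBasis k U
  let u : Fin (finrank k U) → Ω := fun j => (bU j : Ω)
  have hu : LinearIndependent k u :=
    bU.linearIndependent.map' U.subtype (Submodule.ker_subtype U)
  refine dim_plain_tot hn x hx D u hu (fun t => hrel _ ?_) h0
  exact Submodule.sum_mem _ fun j _ => U.smul_mem _ (bU j).2

/-- **Main theorem**, total degree. -/
theorem plain_main (hn : 0 < n) (x : Fin n → Ω) (hx : AlgebraicIndependent k x)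
    (D : ℕ) (W : Submodule k Ω) [FiniteDimensional k W] :
    ∃ UU : Set (Submodule k Ω), UU.Finite ∧
      (∀ y, (y ∈ W ∧ RelT (k := k) x D y) ↔ ∃ U ∈ UU, y ∈ U) ∧
      ∀ U ∈ UU, FiniteDimensional k (U ⊔ Submodule.span k ({1} ∪ Set.range x) : Submodule k Ω) ∧
        (∀ y ∈ U ⊔ Submodule.span k ({1} ∪ Set.range x), RelT (k := k) x D y) ∧
        finrank k (U ⊔ Submodule.span k ({1} ∪ Set.range x) : Submodule k Ω) ≤
          (D + n).choose n := by
  obtain ⟨UU, hUf, hUU⟩ := exists_subspaces_tot (k := k) hn x hx D W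
  refine ⟨UU, hUf, hUU, ?_⟩
  intro U hU
  have hUW : U ≤ W := fun y hy => ((hUU y).2 ⟨U, hU, hy⟩).1
  have : FiniteDimensional k U := Submodule.finiteDimensional_of_le hUW
  have hfin : FiniteDimensional k (Submodule.span k ({1} ∪ Set.range x : Set Ω)) :=
    FiniteDimensional.span_of_finite _ ((Set.finite_singleton _).union (Set.finite_range x))
  have hfd : FiniteDimensional k
      (U ⊔ Submodule.span k ({1} ∪ Set.range x) : Submodule k Ω) :=
    Submodule.finiteDimensional_sup _ _
  have hrel : ∀ y ∈ U ⊔ Submodule.span k ({1} ∪ Set.range x), RelT (k := k) x D y := by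
    intro y hy
    obtain ⟨z, hz, z', hz', rfl⟩ := Submodule.mem_sup.1 hy
    obtain ⟨p, hp, rfl⟩ := exists_affine' x hz'
    exact RelT.add hn hx ((hUU z).2 ⟨U, hU, hz⟩).2 p hp
  exact ⟨hfd, hrel, finrank_le_tot hn x hx D _ hrel⟩

end Pool.Agent.Q147.GP
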