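import Pool.Agent.Q147.GP.Dich

/-!
# The elements of a space which satisfy relations of bounded degree form finitely many subspaces
-/

set_option autoImplicit false
set_option linter.unusedSectionVars false

namespace Pool.Agent.Q147.GP

open Polynomial Module

variable {k R K M : Type*} [Field k] [CommRing R] [IsDomain R] [UniqueFactorizationMonoid R]
  [Field K] [Field M] [Algebra k R] [Algebra R K] [IsFractionRing R K] [Algebra R M]
  [Algebra K M] [IsScalarTower R K M] [IsGalois K M] [Algebra k M] [IsScalarTower k R M]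
  {e : ℕ} {ι : Type*}

/-- `t ↦ t · u` as a linear map -/
noncomputable def dotL (k : Type*) [Field k] [Algebra k M] (u : Fin e → M) :
    (Fin e → k) →ₗ[k] M where
  toFun t := dot t u
  map_add' a b := dot_add a b u
  map_smul' c a := dot_smul c a u

theorem dotL_apply (u : Fin e → M) (t : Fin e → k) : dotL k u t = dot t u := rfl

theorem dotL_injective {u : Fin e → M} (hu : LinearIndependent k u) :
    Function.Injective (dotL k u) := by
  rw [injective_iff_map_eq_zero]
  intro t ht
  exact funext fun j => (Fintype.linearIndependent_iff.1 hu) t ht j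

theorem not_cover [Infinite k] {E : Type*} [AddCommGroup E] [Module k E]
    {BB : Set (Submodule k E)} (hf : BB.Finite) (ht : ∀ P ∈ BB, P ≠ ⊤) :
    ∃ t : E, ∀ P ∈ BB, t ∉ P := by
  by_contra hcon
  push Not at hcon
  have h1 : ⋃ P ∈ hf.toFinset, (P : Set E) = Set.univ := by
    rw [Set.eq_univ_iff_forall]
    intro t
    obtain ⟨P, hP, ht⟩ := hcon t
    simp only [Set.mem_iUnion]
    exact ⟨P, hf.mem_toFinset.2 hP, ht⟩
  exact ht _ (hf.mem_toFinset.1 (Subspace.top_mem_of_biUnion_eq_univ h1)) rfl

theorem exists_datum [Infinite k] [Finite ι] (K : Type*) [Field K] [Algebra R K]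
    [IsFractionRing R K] [Algebra K M] [IsScalarTower R K M] [IsGalois K M] (he : 0 < e)
    (u : Fin e → M) (I : ι → InfPlace k R M)
    (a w : ι → ℕ) (h : ∀ t : Fin e → k, Rel I a w (dot t u)) : ∃ b, Datum K u I a w b := by
  rcases dichotomy (K := K) he u I a w with hb | ⟨BB, hf, ht, hBB⟩
  · exact hb
  · obtain ⟨t, ht'⟩ := not_cover hf ht
    obtain ⟨P, hP, htP⟩ := hBB t (h t)
    exact absurd htP (ht' P hP)

theorem structure_aux [Infinite k] [Finite ι] (K : Type*) [Field K] [Algebra R K]
    [IsFractionRing R K] [Algebra K M] [IsScalarTower R K M] [IsGalois K M]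
    (I : ι → InfPlace k R M) (a w : ι → ℕ) (N : ℕ) :
    ∀ W : Submodule k M, FiniteDimensional k W → finrank k W = N →
    ∃ UU : Set (Submodule k M), UU.Finite ∧
      ∀ y, (y ∈ W ∧ Rel I a w y) ↔ ∃ U ∈ UU, y ∈ U := by
  classical
  induction N using Nat.strong_induction_on with
  | _ N ih =>
    intro W hW hN
    rcases Nat.eq_zero_or_pos N with h0 | hpos
    · have hbot : W = ⊥ := by
        rw [← Submodule.finrank_eq_zero (R := k), hN, h0]
      subst hbot
      by_cases hR : Rel I a w (0 : M)
      · refine ⟨{⊥}, Set.finite_singleton _, fun y => ⟨fun h => ⟨⊥, rfl, h.1⟩, ?_⟩⟩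
        rintro ⟨U, rfl, hy⟩
        refine ⟨hy, ?_⟩
        rw [(Submodule.mem_bot k).1 hy]
        exact hR
      · refine ⟨∅, Set.finite_empty, fun y => ⟨fun h => ?_, ?_⟩⟩
        · rw [(Submodule.mem_bot k).1 h.1] at h
          exact absurd h.2 hR
        · rintro ⟨U, hU, -⟩
          exact absurd hU (Set.notMem_empty U)
    · let bW : Basis (Fin N) k W := finBasisOfFinrankEq k W hN
      let u : Fin N → M := fun j => (bW j : M)
      have hu : LinearIndependent k u :=
        bW.linearIndependent.map' W.subtype (Submodule.ker_subtype W)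
      have hrange : ∀ y, y ∈ W ↔ ∃ t : Fin N → k, y = dot t u := by
        intro y
        constructor
        · intro hy
          refine ⟨fun j => bW.repr ⟨y, hy⟩ j, ?_⟩
          have h1 := congrArg Subtype.val (bW.sum_repr ⟨y, hy⟩)
          rw [Submodule.coe_sum] at h1
          exact h1.symm
        · rintro ⟨t, rfl⟩
          exact Submodule.sum_mem _ fun j _ => W.smul_mem _ (bW j).2
      rcases dichotomy (K := K) hpos u I a w with ⟨b, hb⟩ | ⟨BB, hf, ht, hBB⟩
      · refine ⟨{W}, Set.finite_singleton _, fun y => ⟨fun h => ⟨W, rfl, h.1⟩, ?_⟩⟩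
        rintro ⟨U, rfl, hy⟩
        refine ⟨hy, ?_⟩
        obtain ⟨t, rfl⟩ := (hrange y).1 hy
        exact datum_rel hb t
      · have h1 : ∀ P : Submodule k (Fin N → k), ∃ UU : Set (Submodule k M), P ∈ BB →
            UU.Finite ∧ ∀ y, (y ∈ P.map (dotL k u) ∧ Rel I a w y) ↔ ∃ U ∈ UU, y ∈ U := by
          intro P
          by_cases hP : P ∈ BB
          · have hlt : finrank k (P.map (dotL k u)) < N := by
              rw [← (Submodule.equivMapOfInjective _ (dotL_injective hu) P).finrank_eq]
              have := Submodule.finrank_lt (ht P hP)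
              rwa [finrank_fin_fun] at this
            obtain ⟨UU, h2, h3⟩ := ih _ hlt (P.map (dotL k u)) inferInstance rfl
            exact ⟨UU, fun _ => ⟨h2, h3⟩⟩
          · exact ⟨∅, fun h => absurd h hP⟩
        choose UU hUU using h1
        refine ⟨⋃ P ∈ BB, UU P, hf.biUnion fun P hP => (hUU P hP).1, fun y => ?_⟩
        simp only [Set.mem_iUnion]
        constructor
        · rintro ⟨hy, hr⟩
          obtain ⟨t, rfl⟩ := (hrange y).1 hy
          obtain ⟨P, hP, htP⟩ := hBB t hr
          obtain ⟨U, hU, hyU⟩ := ((hUU P hP).2 (dot t u)).1 ⟨⟨t, htP, rfl⟩, hr⟩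
          exact ⟨U, ⟨P, hP, hU⟩, hyU⟩
        · rintro ⟨U, ⟨P, hP, hU⟩, hyU⟩
          obtain ⟨⟨t, htP, ht2⟩, hr⟩ := ((hUU P hP).2 y).2 ⟨U, hU, hyU⟩
          refine ⟨(hrange y).2 ⟨t, ht2.symm⟩, hr⟩

/-- **Structure theorem.** -/
theorem exists_subspaces [Infinite k] [Finite ι] (K : Type*) [Field K] [Algebra R K]
    [IsFractionRing R K] [Algebra K M] [IsScalarTower R K M] [IsGalois K M]
    (I : ι → InfPlace k R M) (a w : ι → ℕ) (W : Submodule k M) [FiniteDimensional k W] :
    ∃ UU : Set (Submodule k M), UU.Finite ∧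
      ∀ y, (y ∈ W ∧ Rel I a w y) ↔ ∃ U ∈ UU, y ∈ U :=
  structure_aux K I a w _ W inferInstance rfl

end Pool.Agent.Q147.GP
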