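import Pool.Agent.Q147.GP.Total
import Pool.Agent.Q147.GP.Logs

/-!
# Logarithms with relations of bounded total degree
-/

set_option autoImplicit false
set_option linter.unusedSectionVars false

namespace Pool.Agent.Q147.GP

open Module
open Pool.Agent.Y787 (QC mem_QC HypC)

variable {Cc : Type} [Field Cc] [CharZero Cc] [IsAlgClosed Cc] {Lt : Submodule (QC Cc) Cc}
  [HypC Lt] {n : ℕ}

theorem log_bound_tot (hn : 0 < n) (x : Fin n → Cc) (hx : AlgebraicIndependent (QC Cc) x) (D : ℕ)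
    (U : Submodule (QC Cc) Cc) [FiniteDimensional (QC Cc) U] (hUL : U ≤ Lt) (h1 : (1 : Cc) ∈ U)
    (hrel : ∀ y ∈ U, RelT (k := QC Cc) x D y) {h : ℕ} (hh : h ≤ finrank (QC Cc) U) (q : ℕ) :
    q * (h * (finrank (QC Cc) U - h)) + finrank (QC Cc) U ≤ ((q + 1) * D + n).choose n := by
  have := isAlgClosed_QC Cc
  let bU := Module.finBasis (QC Cc) U
  let u : Fin (finrank (QC Cc) U) → Cc := fun j => (bU j : Cc)
  have hu : LinearIndependent (QC Cc) u :=
    bU.linearIndependent.map' U.subtype (Submodule.ker_subtype U)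
  have hrange : ∀ y ∈ U, ∃ t : Fin (finrank (QC Cc) U) → QC Cc, dot t u = y := by
    intro y hy
    refine ⟨fun j => bU.repr ⟨y, hy⟩ j, ?_⟩
    have h1 := congrArg Subtype.val (bU.sum_repr ⟨y, hy⟩)
    rw [Submodule.coe_sum] at h1
    exact h1
  have hmem : ∀ t : Fin (finrank (QC Cc) U) → QC Cc, dot t u ∈ U := fun t =>
    Submodule.sum_mem _ fun j _ => U.smul_mem _ (bU j).2
  have hpos : 0 < finrank (QC Cc) U := by
    have : Nontrivial U := ⟨⟨⟨1, h1⟩, 0, fun h => one_ne_zero (congrArg Subtype.val h)⟩⟩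
    exact finrank_pos
  refine dim_ineq_tot hn x hx D u hu (hrange 1 h1) (fun t => hrel _ (hmem t))
    (fun h s hs l ω hω h0 => ?_) hpos hh q
  refine Pool.Agent.Y787.hyperplane (Lt := Lt) h l s
    (fun i j => dot (ω j i) u) hs (fun i j => hUL (hmem _)) h0 ?_
  have hinj : Function.Injective ((dotL (QC Cc) u).compLeft (Fin h)) := by
    intro f g hfg
    funext i
    exact dotL_injective hu (congrFun hfg i)
  exact hω.map' _ (LinearMap.ker_eq_bot.2 hinj)

/-- a linear combination of `1` and the `x i` is the value of a polynomial of degree at most one -/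
theorem exists_affine (x : Fin n → Cc) {z : Cc}
    (hz : z ∈ Submodule.span (QC Cc) ({1} ∪ Set.range x)) :
    ∃ p : MvPolynomial (Fin n) (QC Cc), p.totalDegree ≤ 1 ∧ MvPolynomial.aeval x p = z := by
  refine Submodule.span_induction (p := fun z _ => ∃ p : MvPolynomial (Fin n) (QC Cc),
    p.totalDegree ≤ 1 ∧ MvPolynomial.aeval x p = z) ?_ ?_ ?_ ?_ hz
  · rintro z (rfl | ⟨i, rfl⟩)
    · exact ⟨1, by rw [MvPolynomial.totalDegree_one]; exact Nat.zero_le _, map_one _⟩
    · exact ⟨MvPolynomial.X i, by rw [MvPolynomial.totalDegree_X], MvPolynomial.aeval_X x i⟩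
  · exact ⟨0, by rw [MvPolynomial.totalDegree_zero]; exact Nat.zero_le _, map_zero _⟩
  · rintro _ _ _ _ ⟨p, hp, rfl⟩ ⟨p', hp', rfl⟩
    exact ⟨p + p', (MvPolynomial.totalDegree_add p p').trans (max_le hp hp'), map_add _ _ _⟩
  · rintro c _ _ ⟨p, hp, rfl⟩
    exact ⟨c • p, (MvPolynomial.totalDegree_smul_le c p).trans hp, map_smul _ _ _⟩

/-- **Main theorem**, total degree. -/
theorem total_main (hn : 0 < n) (x : Fin n → Cc) (hx : AlgebraicIndependent (QC Cc) x)
    (D : ℕ) (W : Submodule (QC Cc) Cc) [FiniteDimensional (QC Cc) W] (hW : W ≤ Lt) :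
    ∃ UU : Set (Submodule (QC Cc) Cc), UU.Finite ∧
      (∀ y, (y ∈ W ∧ RelT (k := QC Cc) x D y) ↔ ∃ U ∈ UU, y ∈ U) ∧
      ∀ U ∈ UU, ∀ e q h : ℕ,
        e = finrank (QC Cc) (U ⊔ (Submodule.span (QC Cc) ({1} ∪ Set.range x) ⊓ Lt) :
          Submodule _ Cc) →
        h ≤ e → q * (h * (e - h)) + e ≤ ((q + 1) * D + n).choose n := by
  have := isAlgClosed_QC Cc
  obtain ⟨UU, hUf, hUU⟩ := exists_subspaces_tot (k := QC Cc) hn x hx D W
  refine ⟨UU, hUf, hUU, ?_⟩
  rintro U hU e q h rfl hh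
  have hUW : U ≤ W := fun y hy => ((hUU y).2 ⟨U, hU, hy⟩).1
  have : FiniteDimensional (QC Cc) U := Submodule.finiteDimensional_of_le hUW
  have hfin : FiniteDimensional (QC Cc) (Submodule.span (QC Cc) ({1} ∪ Set.range x : Set Cc)) :=
    FiniteDimensional.span_of_finite _ ((Set.finite_singleton _).union (Set.finite_range x))
  have hfin' : FiniteDimensional (QC Cc)
      (Submodule.span (QC Cc) ({1} ∪ Set.range x : Set Cc) ⊓ Lt : Submodule (QC Cc) Cc) :=
    Submodule.finiteDimensional_of_le inf_le_left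
  have hfd : FiniteDimensional (QC Cc)
      (U ⊔ (Submodule.span (QC Cc) ({1} ∪ Set.range x) ⊓ Lt) : Submodule (QC Cc) Cc) :=
    Submodule.finiteDimensional_sup _ _
  refine log_bound_tot (Lt := Lt) hn x hx D _ ?_ ?_ ?_ hh q
  · exact sup_le (hUW.trans hW) inf_le_right
  · exact Submodule.mem_sup_right ⟨Submodule.subset_span (Or.inl rfl), Pool.Agent.Y787.Lt_one⟩
  · intro y hy
    obtain ⟨z, hz, z', hz', rfl⟩ := Submodule.mem_sup.1 hy
    obtain ⟨p, hp, rfl⟩ := exists_affine x hz'.1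
    exact RelT.add hn hx ((hUU z).2 ⟨U, hU, hz⟩).2 p hp

theorem choose_one_bound {e D h : ℕ} (he : 0 < e)
    (hb : ∀ q, q * (h * (e - h)) + e ≤ ((q + 1) * D + 1).choose 1) : h * (e - h) ≤ D := by
  refine le_of_growth (fun q => ?_) he
  have := hb q
  rwa [Nat.choose_one_right] at this

theorem arith_rank {r D : ℕ} (h : ∀ h ≤ r + 2, h * (r + 2 - h) ≤ D) :
    (r + 1) * (r + 3) ≤ 4 * D := by
  rcases Nat.even_or_odd' r with ⟨s, rfl | rfl⟩
  · have h1 := h (s + 1) (by omega)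
    have h2 : (s + 1) * (s + 1) ≤ (s + 1) * (2 * s + 2 - (s + 1)) :=
      Nat.mul_le_mul_left _ (by omega)
    nlinarith
  · have h1 := h (s + 1) (by omega)
    have h2 : (s + 1) * (s + 2) ≤ (s + 1) * (2 * s + 1 + 2 - (s + 1)) :=
      Nat.mul_le_mul_left _ (by omega)
    nlinarith

/-- the additive group of a space -/
noncomputable def subgroupOf (Λ : AddSubgroup Cc) (U : Submodule (QC Cc) Cc) : AddSubgroup Cc :=
  Λ ⊓ U.toAddSubgroup

/-- **Groups.** The members of a finitely generated group of logarithms which satisfy a relation of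
bounded total degree with fixed algebraically independent logarithms form finitely many subgroups of
small rank. -/
theorem group_tot (hn : 0 < n) (x : Fin n → Cc) (hx : AlgebraicIndependent (QC Cc) x)
    (hxL : ∀ i, x i ∈ Lt) (D : ℕ) (Λ : AddSubgroup Cc) (hΛ : Λ.FG) (hΛL : ∀ l ∈ Λ, l ∈ Lt)
    (hbaker : ∀ (r : ℕ) (l : Fin r → Cc), (∀ i, l i ∈ Λ) →
      LinearIndependent ℚ (Fin.append x l) →
      LinearIndependent (QC Cc) (Fin.cons 1 (Fin.append x l) : Fin (n + r + 1) → Cc)) :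
    ∃ S : Set (AddSubgroup Cc), S.Finite ∧
      (∀ l, (l ∈ Λ ∧ RelT (k := QC Cc) x D l) ↔ ∃ Δ ∈ S, l ∈ Δ) ∧
      ∀ Δ ∈ S, ∀ (r : ℕ) (l : Fin r → Cc), (∀ i, l i ∈ Δ) →
        LinearIndependent ℚ (Fin.append x l) → ∀ q h : ℕ, h ≤ n + r + 1 →
          q * (h * (n + r + 1 - h)) + (n + r + 1) ≤ ((q + 1) * D + n).choose n := by
  obtain ⟨T, hT⟩ := hΛ
  let W : Submodule (QC Cc) Cc := Submodule.span (QC Cc) (T : Set Cc)
  have : FiniteDimensional (QC Cc) W := FiniteDimensional.span_finset (QC Cc) T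
  have hΛW : ∀ l ∈ Λ, l ∈ W := by
    intro l hl
    rw [← hT] at hl
    exact (AddSubgroup.closure_le (K := W.toAddSubgroup)).2 Submodule.subset_span hl
  have hWL : W ≤ Lt := Submodule.span_le.2 fun l hl => hΛL l (hT ▸ AddSubgroup.subset_closure hl)
  obtain ⟨UU, hUf, hUU, hb⟩ := total_main (Lt := Lt) hn x hx D W hWL
  refine ⟨subgroupOf Λ '' UU, hUf.image _, fun l => ⟨?_, ?_⟩, ?_⟩
  · rintro ⟨hl, hr⟩
    obtain ⟨U, hU, hlU⟩ := (hUU l).1 ⟨hΛW l hl, hr⟩
    exact ⟨_, ⟨U, hU, rfl⟩, hl, hlU⟩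
  · rintro ⟨_, ⟨U, hU, rfl⟩, hl, hlU⟩
    exact ⟨hl, ((hUU l).2 ⟨U, hU, hlU⟩).2⟩
  · rintro _ ⟨U, hU, rfl⟩ r l hl hli q h hh
    have hUW : U ≤ W := fun y hy => ((hUU y).2 ⟨U, hU, hy⟩).1
    have : FiniteDimensional (QC Cc) U := Submodule.finiteDimensional_of_le hUW
    have hfin : FiniteDimensional (QC Cc) (Submodule.span (QC Cc) ({1} ∪ Set.range x : Set Cc)) :=
      FiniteDimensional.span_of_finite _ ((Set.finite_singleton _).union (Set.finite_range x))
    have hfin' : FiniteDimensional (QC Cc)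
        (Submodule.span (QC Cc) ({1} ∪ Set.range x : Set Cc) ⊓ Lt : Submodule (QC Cc) Cc) :=
      Submodule.finiteDimensional_of_le inf_le_left
    have hfd : FiniteDimensional (QC Cc)
        (U ⊔ (Submodule.span (QC Cc) ({1} ∪ Set.range x) ⊓ Lt) : Submodule (QC Cc) Cc) :=
      Submodule.finiteDimensional_sup _ _
    set V : Submodule (QC Cc) Cc := U ⊔ (Submodule.span (QC Cc) ({1} ∪ Set.range x) ⊓ Lt) with hV
    have hli' := hbaker r l (fun i => (hl i).1) hli
    have hmem : ∀ j, (Fin.cons 1 (Fin.append x l) : Fin (n + r + 1) → Cc) j ∈ V := by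
      intro j
      refine Fin.cases ?_ (fun i => ?_) j
      · rw [Fin.cons_zero]
        exact Submodule.mem_sup_right
          ⟨Submodule.subset_span (Or.inl rfl), Pool.Agent.Y787.Lt_one⟩
      · rw [Fin.cons_succ]
        refine Fin.addCases (fun i => ?_) (fun i => ?_) i
        · rw [Fin.append_left]
          exact Submodule.mem_sup_right
            ⟨Submodule.subset_span (Or.inr ⟨i, rfl⟩), hxL i⟩
        · rw [Fin.append_right]
          exact Submodule.mem_sup_left (hl i).2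
    have h1 : LinearIndependent (QC Cc) (fun j : Fin (n + r + 1) =>
        (⟨(Fin.cons 1 (Fin.append x l) : Fin (n + r + 1) → Cc) j, hmem j⟩ : V)) := by
      refine LinearIndependent.of_comp V.subtype ?_
      exact hli'
    have h2 := h1.fintype_card_le_finrank
    rw [Fintype.card_fin] at h2
    refine le_trans ?_ (hb U hU _ q h rfl (hh.trans h2))
    exact Nat.add_le_add (Nat.mul_le_mul_left _ (Nat.mul_le_mul_left _ (Nat.sub_le_sub_right h2 _)))
      h2

end Pool.Agent.Q147.GP
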