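import Pool.Agent.Q147.GP.MvRel
import Pool.Agent.H297R2.Generic

/-!
# Relations of bounded total degree
-/

set_option autoImplicit false
set_option linter.unusedSectionVars false

namespace Pool.Agent.Q147.GP

open Polynomial Module

section tot

variable {k : Type*} [Field k] {n : ℕ}

/-- the total degree as a valuation -/
noncomputable def totVal :
    Valuation (MvPolynomial (Fin n) k) (WithZero (Multiplicative ℤ)) where
  toFun r := by
    classical
    exact if r = 0 then 0 else ((Multiplicative.ofAdd (r.totalDegree : ℤ) : Multiplicative ℤ) :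
      WithZero (Multiplicative ℤ))
  map_zero' := by simp
  map_one' := by
    simp [MvPolynomial.totalDegree_one]
  map_mul' r s := by
    by_cases hr : r = 0
    · simp [hr]
    by_cases hs : s = 0
    · simp [hs]
    have h := MvPolynomial.totalDegree_mul_of_isDomain hr hs
    simp only [hr, hs, mul_eq_zero, or_self, if_false, h, Nat.cast_add, ofAdd_add,
      WithZero.coe_mul]
  map_add_le_max' r s := by
    by_cases hrs : r + s = 0
    · simp [hrs]
    by_cases hr : r = 0
    · subst hr
      rw [if_neg hrs]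
      refine le_max_of_le_right ?_
      rw [zero_add] at hrs ⊢
      rw [if_neg hrs]
    by_cases hs : s = 0
    · subst hs
      rw [if_neg hrs]
      refine le_max_of_le_left ?_
      rw [add_zero] at hrs ⊢
      rw [if_neg hrs]
    simp only [hr, hs, hrs, if_false]
    have h := MvPolynomial.totalDegree_add r s
    rcases le_max_iff.1 h with h | h
    · refine le_max_of_le_left ?_
      rw [WithZero.coe_le_coe, Multiplicative.ofAdd_le]
      exact_mod_cast h
    · refine le_max_of_le_right ?_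
      rw [WithZero.coe_le_coe, Multiplicative.ofAdd_le]
      exact_mod_cast h

theorem totVal_apply {r : MvPolynomial (Fin n) k} (hr : r ≠ 0) :
    totVal r = ((Multiplicative.ofAdd (r.totalDegree : ℤ) : Multiplicative ℤ) :
      WithZero (Multiplicative ℤ)) := by
  classical
  change (if r = 0 then 0 else _) = _
  rw [if_neg hr]

theorem totVal_eq_zero (r : MvPolynomial (Fin n) k) (h : totVal r = 0) : r = 0 := by
  by_contra hr
  rw [totVal_apply hr] at h
  exact WithZero.coe_ne_zero h

theorem totVal_le {r s : MvPolynomial (Fin n) k} (hr : r ≠ 0) (hs : s ≠ 0) :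
    totVal r ≤ totVal s ↔ r.totalDegree ≤ s.totalDegree := by
  rw [totVal_apply hr, totVal_apply hs, WithZero.coe_le_coe, Multiplicative.ofAdd_le]
  exact Nat.cast_le

/-- the place at infinity for the total degree -/
theorem exists_totPlace {M : Type*} [Field M] [Algebra (MvPolynomial (Fin n) k) M]
    (hinj : Function.Injective (algebraMap (MvPolynomial (Fin n) k) M)) (i : Fin n) :
    ∃ I : InfPlace k (MvPolynomial (Fin n) k) M, I.d = fun r => r.totalDegree := by
  obtain ⟨V, hV⟩ := place_of_valuation (algebraMap (MvPolynomial (Fin n) k) M) hinj totVal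
    totVal_eq_zero
  have hX : (MvPolynomial.X i : MvPolynomial (Fin n) k) ≠ 0 := MvPolynomial.X_ne_zero i
  refine ⟨{ V := V
            d := fun r => r.totalDegree
            τ := V.valuation (algebraMap (MvPolynomial (Fin n) k) M (MvPolynomial.X i))
            hτ := ?_
            hd := ?_
            hdk := ?_ }, rfl⟩
  · rw [← not_le]
    intro h
    have h1 := (hV (MvPolynomial.X i) 1).1 (by
      rw [map_one (algebraMap (MvPolynomial (Fin n) k) M), map_one]
      exact h)
    rw [totVal_le hX one_ne_zero, MvPolynomial.totalDegree_one, MvPolynomial.totalDegree_X] at h1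
    omega
  · intro r hr
    rw [← map_pow, ← map_pow]
    have h1 : ((MvPolynomial.X i : MvPolynomial (Fin n) k) ^ r.totalDegree).totalDegree =
        r.totalDegree := MvPolynomial.totalDegree_X_pow i _
    apply le_antisymm
    · rw [hV, totVal_le hr (pow_ne_zero _ hX), h1]
    · rw [hV, totVal_le (pow_ne_zero _ hX) hr, h1]
  · intro c _
    exact MvPolynomial.totalDegree_C c

/-- points which separate a space of polynomials -/
theorem exists_points [Infinite k] [IsAlgClosed k] (P : Submodule k (MvPolynomial (Fin n) k))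
    [FiniteDimensional k P] {d : MvPolynomial (Fin n) k} (hd : d ≠ 0) :
    ∃ Ξ : Finset (MvPolynomial (Fin n) k →ₐ[k] k), Ξ.card ≤ finrank k P ∧
      (∀ ε ∈ Ξ, ε d ≠ 0) ∧ ∀ r ∈ P, r ≠ 0 → ∃ ε ∈ Ξ, ε r ≠ 0 := by
  classical
  let J := {c : Fin n → k // (MvPolynomial.aeval c : MvPolynomial (Fin n) k →ₐ[k] k) d ≠ 0}
  let f : J → P →ₗ[k] k := fun c =>
    (MvPolynomial.aeval c.1 : MvPolynomial (Fin n) k →ₐ[k] k).toLinearMap.comp P.subtype
  obtain ⟨s, hs, hsurj⟩ := exists_sel f (fun r hr => by
    by_contra hne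
    have h1 : (r : MvPolynomial (Fin n) k) * d ≠ 0 :=
      mul_ne_zero (fun h => hne (Subtype.ext h)) hd
    obtain ⟨c, hc⟩ := exists_aeval_ne h1
    rw [map_mul] at hc
    exact left_ne_zero_of_mul hc (hr ⟨c, right_ne_zero_of_mul hc⟩)) (finrank k P) le_rfl
  let L : P →ₗ[k] (s → k) := LinearMap.pi fun i => f i
  have hL : Function.Surjective L := hsurj
  have hLi : Function.Injective L := by
    rw [LinearMap.injective_iff_surjective_of_finrank_eq_finrank]
    · exact hL
    · rw [finrank_fintype_fun_eq_card, Fintype.card_coe, hs]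
  refine ⟨s.image fun c => MvPolynomial.aeval c.1, Finset.card_image_le.trans hs.le,
    fun ε hε => ?_, fun r hr hr0 => ?_⟩
  · obtain ⟨c, hc, rfl⟩ := Finset.mem_image.1 hε
    exact c.2
  · by_contra hcon
    push Not at hcon
    apply hr0
    have h1 : L ⟨r, hr⟩ = 0 := funext fun c =>
      hcon _ (Finset.mem_image.2 ⟨c.1, c.2, rfl⟩)
    have h2 := (injective_iff_map_eq_zero L).1 hLi _ h1
    exact congrArg Subtype.val h2

open Pool.Agent.H297R2 (Ex card_Ex) in
/-- points which separate the polynomials of bounded total degree -/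
theorem exists_tot_points [IsAlgClosed k] (m : ℕ) {d : MvPolynomial (Fin n) k} (hd : d ≠ 0) :
    ∃ Ξ : Finset (MvPolynomial (Fin n) k →ₐ[k] k), Ξ.card ≤ (m + n).choose n ∧
      (∀ ε ∈ Ξ, ε d ≠ 0) ∧
      ∀ r : MvPolynomial (Fin n) k, r ≠ 0 → r.totalDegree ≤ m → ∃ ε ∈ Ξ, ε r ≠ 0 := by
  classical
  have hinf : Infinite k := IsAlgClosed.instInfinite
  let g : Ex (Fin n) m → MvPolynomial (Fin n) k := fun s => MvPolynomial.monomial s.1 1
  let P : Submodule k (MvPolynomial (Fin n) k) := Submodule.span k (Set.range g)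
  have hP : FiniteDimensional k P := FiniteDimensional.span_of_finite k (Set.finite_range g)
  obtain ⟨Ξ, h1, h2, h3⟩ := exists_points P hd
  refine ⟨Ξ, h1.trans ((finrank_range_le_card g).trans (card_Ex n m)), h2, fun r hr hrm => ?_⟩
  refine h3 r ?_ hr
  rw [MvPolynomial.as_sum r]
  refine Submodule.sum_mem _ fun s hs => ?_
  have h4 : s.degree ≤ m := by
    have h5 := MvPolynomial.le_totalDegree hs
    rw [Finsupp.degree_eq_sum]
    rw [Finsupp.sum_fintype _ _ (fun _ => rfl)] at h5
    exact h5.trans hrm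
  have h6 : MvPolynomial.monomial s (MvPolynomial.coeff s r) =
      MvPolynomial.coeff s r • g ⟨s, h4⟩ := by
    simp only [g]
    rw [MvPolynomial.smul_monomial, smul_eq_mul, mul_one]
  rw [h6]
  exact P.smul_mem _ (Submodule.subset_span ⟨_, rfl⟩)

end tot

section omega

universe uk uo

variable {k : Type uk} {Ω : Type uo} [Field k] [IsAlgClosed k] [CharZero k] [Field Ω]
  [Algebra k Ω] [IsAlgClosed Ω] {n : ℕ}

/-- the number `y` is a root of a nonzero polynomial with coefficients in `k[x]` such that the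
coefficient of `Y ^ s` has total degree at most `D - s` -/
def RelT (x : Fin n → Ω) (D : ℕ) (y : Ω) : Prop :=
  ∃ G : (MvPolynomial (Fin n) k)[X], G ≠ 0 ∧
    G.eval₂ (MvPolynomial.aeval x : MvPolynomial (Fin n) k →ₐ[k] Ω).toRingHom y = 0 ∧
    ∀ s, G.coeff s ≠ 0 → (G.coeff s).totalDegree + s ≤ D

section use

variable {x : Fin n → Ω} {K : Type uk} {M : Type uo} [Field K] [Field M]
  [Algebra (MvPolynomial (Fin n) k) K] [IsFractionRing (MvPolynomial (Fin n) k) K]
  [Algebra (MvPolynomial (Fin n) k) M] [Algebra K M]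
  [IsScalarTower (MvPolynomial (Fin n) k) K M] [IsGalois K M] [Algebra k M]
  [IsScalarTower k (MvPolynomial (Fin n) k) M]

theorem Model.relT_iff (m : Model (k := k) x K M)
    {I : InfPlace k (MvPolynomial (Fin n) k) M}
    (hI : I.d = fun r => r.totalDegree) (D : ℕ) (z : M) :
    Rel (fun _ : Unit => I) (fun _ => D) (fun _ => 1) z ↔ RelT (k := k) x D (m.j z) := by
  constructor
  · rintro ⟨G, h0, h1, h2⟩
    refine ⟨G, h0, by rw [m.eval, h1, map_zero], fun s hs => ?_⟩
    have := h2 s hs ()
    rwa [hI, one_mul] at this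
  · rintro ⟨G, h0, h1, h2⟩
    refine ⟨G, h0, ?_, fun s hs i => ?_⟩
    · rw [m.eval] at h1
      exact (map_eq_zero_iff m.j m.j.injective).1 h1
    · rw [hI, one_mul]
      exact h2 s hs

theorem Model.liftT (m : Model (k := k) x K M) {D : ℕ} {y : Ω}
    (h : RelT (k := k) x D y) : ∃ z : M, m.j z = y := by
  obtain ⟨G, h0, h1, -⟩ := h
  exact m.surj y ⟨G, h0, h1⟩

end use

/-- **Structure theorem**, total degree. -/
theorem exists_subspaces_tot (hn : 0 < n) (x : Fin n → Ω) (hx : AlgebraicIndependent k x)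
    (D : ℕ) (W : Submodule k Ω) [FiniteDimensional k W] :
    ∃ UU : Set (Submodule k Ω), UU.Finite ∧
      ∀ y, (y ∈ W ∧ RelT (k := k) x D y) ↔ ∃ U ∈ UU, y ∈ U := by
  refine with_model x hx fun K M _ _ _ _ _ _ _ _ _ _ m => ?_
  obtain ⟨I, hI⟩ := exists_totPlace (k := k) (M := M) (inj_RM (MvPolynomial (Fin n) k) K M)
    ⟨0, hn⟩
  have hinj : Function.Injective m.j.toLinearMap := m.j.injective
  have : FiniteDimensional k (W.comap m.j.toLinearMap) :=
    FiniteDimensional.of_injective (V₂ := W)
      ((m.j.toLinearMap.comp (W.comap m.j.toLinearMap).subtype).codRestrict W fun z => z.2)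
      fun z z' h => Subtype.ext (hinj (congrArg Subtype.val h))
  obtain ⟨UU, hf, hUU⟩ := exists_subspaces K (fun _ : Unit => I) (fun _ => D) (fun _ => 1)
    (W.comap m.j.toLinearMap)
  refine ⟨(fun U => U.map m.j.toLinearMap) '' UU, hf.image _, fun y => ⟨?_, ?_⟩⟩
  · rintro ⟨hy, hr⟩
    obtain ⟨z, rfl⟩ := m.liftT hr
    obtain ⟨U, hU, hz⟩ := (hUU z).1 ⟨hy, (m.relT_iff hI D z).2 hr⟩
    exact ⟨_, ⟨U, hU, rfl⟩, ⟨z, hz, rfl⟩⟩
  · rintro ⟨_, ⟨U, hU, rfl⟩, ⟨z, hz, rfl⟩⟩
    obtain ⟨h1, h2⟩ := (hUU z).2 ⟨U, hU, hz⟩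
    exact ⟨h1, (m.relT_iff hI D z).1 h2⟩

theorem RelT.add (hn : 0 < n) {x : Fin n → Ω} (hx : AlgebraicIndependent k x) {D : ℕ} {y : Ω}
    (h : RelT (k := k) x D y) (p : MvPolynomial (Fin n) k) (hp : p.totalDegree ≤ 1) :
    RelT (k := k) x D (y + MvPolynomial.aeval x p) := by
  refine with_model x hx fun K M _ _ _ _ _ _ _ _ _ _ m => ?_
  obtain ⟨I, hI⟩ := exists_totPlace (k := k) (M := M) (inj_RM (MvPolynomial (Fin n) k) K M)
    ⟨0, hn⟩
  obtain ⟨z, rfl⟩ := m.liftT h
  have h1 := ((m.relT_iff hI D z).2 h).add p fun i => by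
    by_cases hp0 : p = 0
    · rw [hp0, map_zero, map_zero]
      exact zero_le
    · rw [I.hd p hp0, hI]
      exact pow_le_pow_right₀ I.hτ.le hp
  have h2 := (m.relT_iff hI D _).1 h1
  rwa [map_add, m.hj] at h2

/-- **Dimension inequality**, total degree. -/
theorem dim_ineq_tot (hn : 0 < n) (x : Fin n → Ω) (hx : AlgebraicIndependent k x) (D : ℕ) {e : ℕ}
    (u : Fin e → Ω) (hu : LinearIndependent k u) (h1u : ∃ t : Fin e → k, dot t u = 1)
    (hrel : ∀ t : Fin e → k, RelT (k := k) x D (dot t u))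
    (hyp : ∀ (h : ℕ) (s : Fin h → Ω), LinearIndependent k s →
      ∀ (l : ℕ) (ω : Fin l → Fin h → Fin e → k), LinearIndependent k ω →
        (∀ j, ∑ i, s i * dot (ω j i) u = 0) → l ≤ h * (h - 1))
    (he : 0 < e) {h : ℕ} (hhe : h ≤ e) (q : ℕ) :
    q * (h * (e - h)) + e ≤ ((q + 1) * D + n).choose n := by
  refine with_model x hx fun K M _ _ _ _ _ _ _ _ _ _ m => ?_
  obtain ⟨I, hI⟩ := exists_totPlace (k := k) (M := M) (inj_RM (MvPolynomial (Fin n) k) K M)
    ⟨0, hn⟩
  have hsingle : ∀ j, dot (Pi.single j (1 : k)) u = u j := fun j => dot_single u j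
  have hlift : ∀ j, ∃ z : M, m.j z = u j := fun j => by
    have := hrel (Pi.single j 1)
    rw [hsingle] at this
    exact m.liftT this
  choose z hz using hlift
  have hju : (fun i => m.j (z i)) = u := funext hz
  have hdot : ∀ t : Fin e → k, m.j (dot t z) = dot t u := fun t => by rw [map_dot', hju]
  have hzi : LinearIndependent k z := by
    apply LinearIndependent.of_comp m.j.toLinearMap
    have : (m.j.toLinearMap : M → Ω) ∘ z = u := hju
    rw [this]
    exact hu
  have h1z : (1 : M) ∈ LinearMap.range (dotL k z) := by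
    obtain ⟨t, ht⟩ := h1u
    refine ⟨t, m.j.injective ?_⟩
    change m.j (dot t z) = m.j 1
    rw [hdot, ht, map_one]
  obtain ⟨b, hb⟩ := exists_datum K he z (fun _ : Unit => I) (fun _ => D) (fun _ => 1) fun t =>
    (m.relT_iff hI D _).2 (by rw [hdot]; exact hrel t)
  obtain ⟨d, hd0, hd⟩ := exists_res (k := k) (R := MvPolynomial (Fin n) k) K z
  have hyp' : ∀ (h : ℕ) (s : Fin h → M), LinearIndependent k s →
      ∀ (l : ℕ) (ω : Fin l → Fin h → Fin e → k), LinearIndependent k ω →
        (∀ j, ∑ i, s i * dot (ω j i) z = 0) → l ≤ h * (h - 1) := by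
    intro h s hs l ω hω h0
    refine hyp h (fun i => m.j (s i)) ?_ l ω hω fun j => ?_
    · exact hs.map' m.j.toLinearMap (LinearMap.ker_eq_bot.2 m.j.injective)
    · have h3 := congrArg m.j (h0 j)
      rw [map_sum, map_zero] at h3
      rw [← h3]
      refine Finset.sum_congr rfl fun i _ => ?_
      rw [map_mul, hdot]
  set W : Submodule k M := LinearMap.range (dotL k z) with hW
  have hWe : finrank k W = e := by
    rw [hW, LinearMap.finrank_range_of_inj (dotL_injective hzi), finrank_fin_fun]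
  have hWfg : W.FG := by
    rw [← Submodule.fg_top]
    exact Module.Finite.fg_top
  have hfd : ∀ q, FiniteDimensional k (W ^ q : Submodule k M) := fun q =>
    Module.Finite.iff_fg.2 (hWfg.pow q)
  have hmono : ∀ q, finrank k (W ^ q : Submodule k M) ≤
      finrank k (W ^ (q + 1) : Submodule k M) := by
    intro q
    have := hfd (q + 1)
    refine Submodule.finrank_mono fun y hy => ?_
    rw [pow_succ, ← mul_one y]
    exact Submodule.mul_mem_mul hy h1z
  have hge : ∀ q, e ≤ finrank k (W ^ (q + 1) : Submodule k M) := by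
    intro q
    induction q with
    | zero => rw [zero_add, pow_one, hWe]
    | succ q ih => exact ih.trans (hmono _)
  have hgrid : ∀ q : ℕ, ∃ Ξ : Finset (MvPolynomial (Fin n) k →ₐ[k] k),
      Ξ.card ≤ (q * D + n).choose n ∧
      (∀ ε ∈ Ξ, ∃ V c, Res K k z ε V c) ∧
      ∀ r : MvPolynomial (Fin n) k, r ≠ 0 →
        (∀ i : Unit, ((fun _ : Unit => I) i).d r ≤ q * (fun _ : Unit => D) i) →
        ∃ ε ∈ Ξ, ε r ≠ 0 := by
    intro q
    obtain ⟨Ξ, hΞc, hΞd, hΞ⟩ := exists_tot_points (k := k) (q * D) hd0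
    refine ⟨Ξ, hΞc, fun ε hε => hd ε (hΞd ε hε), fun r hr h => hΞ r hr ?_⟩
    have := h ()
    rwa [hI] at this
  have hstep : ∀ q, q * (h * (e - h)) + e ≤ finrank k (W ^ (q + 1) : Submodule k M) := by
    intro q
    induction q with
    | zero =>
      rw [zero_mul, zero_add, zero_add, pow_one, hWe]
    | succ q ih =>
      rcases Nat.eq_zero_or_pos h with rfl | hpos
      · rw [zero_mul, mul_zero, zero_add]
        exact hge _
      · obtain ⟨Ξ, hΞc, hΞr, hΞ⟩ := hgrid (q + 1 + 1)
        have h1 := growth_step hzi h1z hb hΞ hΞr hyp' hpos (hhe.trans (hge q))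
        have h2 : h * (e - h) + h * h = h * e := by
          rw [← mul_add, Nat.sub_add_cancel hhe]
        rw [← hW] at h1
        have h3 : (q + 1) * (h * (e - h)) = q * (h * (e - h)) + h * (e - h) := by ring
        omega
  obtain ⟨Ξ, hΞc, hΞr, hΞ⟩ := hgrid (q + 1)
  exact ((hstep q).trans (finrank_pow_le hb hΞ hΞr)).trans hΞc

/-- relations of bounded total degree as polynomials in `n + 1` variables -/
theorem relT_iff (x : Fin n → Ω) (D : ℕ) (y : Ω) :
    RelT (k := k) x D y ↔ ∃ f : MvPolynomial (Fin (n + 1)) k, f ≠ 0 ∧ f.totalDegree ≤ D ∧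
      MvPolynomial.aeval (Fin.cons y x : Fin (n + 1) → Ω) f = 0 := by
  have hdeg : ∀ m : Fin (n + 1) →₀ ℕ, (m.sum fun _ e => e) = (m.tail.sum fun _ e => e) + m 0 := by
    intro m
    rw [Finsupp.sum_fintype _ _ (fun _ => rfl), Finsupp.sum_fintype _ _ (fun _ => rfl),
      Fin.sum_univ_succ, add_comm]
    rfl
  have key : ∀ f : MvPolynomial (Fin (n + 1)) k, f.totalDegree ≤ D ↔
      ∀ s, (MvPolynomial.finSuccEquiv k n f).coeff s ≠ 0 →
        ((MvPolynomial.finSuccEquiv k n f).coeff s).totalDegree + s ≤ D := by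
    intro f
    rw [MvPolynomial.totalDegree, Finset.sup_le_iff]
    constructor
    · intro h s hs
      have h1 : ∀ m ∈ ((MvPolynomial.finSuccEquiv k n f).coeff s).support,
          (m.sum fun _ e => e) + s ≤ D := by
        intro m hm
        rw [MvPolynomial.mem_support_iff, MvPolynomial.finSuccEquiv_coeff_coeff] at hm
        have := h _ (MvPolynomial.mem_support_iff.2 hm)
        rwa [hdeg, Finsupp.tail_cons, Finsupp.cons_zero] at this
      obtain ⟨m₀, hm₀⟩ := MvPolynomial.support_nonempty.2 hs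
      have h2 := h1 m₀ hm₀
      have h3 : ((MvPolynomial.finSuccEquiv k n f).coeff s).totalDegree ≤ D - s := by
        rw [MvPolynomial.totalDegree, Finset.sup_le_iff]
        intro m hm
        have := h1 m hm
        omega
      omega
    · intro h m hm
      have h1 : (((MvPolynomial.finSuccEquiv k n f).coeff (m 0)).coeff m.tail) ≠ 0 := by
        rw [MvPolynomial.finSuccEquiv_coeff_coeff, Finsupp.cons_tail]
        exact MvPolynomial.mem_support_iff.1 hm
      have h2 : (MvPolynomial.finSuccEquiv k n f).coeff (m 0) ≠ 0 := by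
        intro h0
        rw [h0, MvPolynomial.coeff_zero] at h1
        exact h1 rfl
      have h3 := h (m 0) h2
      have h4 := MvPolynomial.le_totalDegree (MvPolynomial.mem_support_iff.2 h1)
      rw [hdeg]
      omega
  constructor
  · rintro ⟨G, h0, h1, h2⟩
    obtain ⟨f, rfl⟩ := (MvPolynomial.finSuccEquiv k n).surjective G
    refine ⟨f, fun h => h0 (by rw [h, map_zero]), (key f).2 h2, ?_⟩
    rw [← eval_finSucc]
    exact h1
  · rintro ⟨f, h0, h1, h2⟩
    refine ⟨MvPolynomial.finSuccEquiv k n f, ?_, ?_, (key f).1 h1⟩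
    · exact (map_ne_zero_iff _ (MvPolynomial.finSuccEquiv k n).injective).2 h0
    · rw [eval_finSucc]
      exact h2

end omega

end Pool.Agent.Q147.GP
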